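import Mathlib

/-!
The basic inequality of the step: if `a · H = 1`, `v` is small, then
`|G|² ≤ |H|² exp (A (|a + v|² - |a|²))` for an explicit solution of `(a + v) · G = 1`.
-/

set_option autoImplicit false

open Complex

namespace Pool.Agent.K9h23.Lac

/-- the numerical inequality -/
theorem num_ineq {A s t w : ℝ} {x y : ℂ} (hw : 0 ≤ w) (hx : ‖x‖ ^ 2 ≤ s * w ^ 2)
    (hy : ‖y‖ ^ 2 ≤ t * w ^ 2) (hs : 16 ≤ A * s) (hs4 : s ≤ 4) (hs0 : 0 < s) (ht : 25 * A ≤ t)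
    (hA : 4 ≤ A) (hwA : 100 * A ^ 2 * w ≤ 1) :
    (99 / 100) * (s * t) ≤ ‖(((s * t - 1 : ℝ) : ℂ) + t * x - y)‖ ∧
    ‖(y - t * x) / ((s * t - 1 : ℝ) : ℂ)‖ ≤ 1 / 2 ∧
    ‖1 + A * x + (A * x) ^ 2 / 2‖ ^ 2 + (s * t - 1) *
      ‖(1 - (1 + y) * (1 + A * x + (A * x) ^ 2 / 2)) / (((s * t - 1 : ℝ) : ℂ) + t * x - y)‖ ^ 2 ≤
      Real.exp (2 * A * x.re + A * w ^ 2) := by
  have ht0 : 0 < t := by linarith
  have hA0 : 0 < A := by linarith
  have hst : 400 ≤ s * t := by nlinarith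
  have hnx := norm_nonneg x
  have hny := norm_nonneg y
  -- bounds of w
  have hA2 : 16 ≤ A ^ 2 := by nlinarith
  have hw1 : w ≤ 1 / 1600 := by nlinarith
  have hAw : 400 * (A * w) ≤ 1 := by nlinarith [mul_nonneg hA0.le hw]
  -- x small
  have hx2 : ‖x‖ ≤ 2 * w := by
    have : ‖x‖ ^ 2 ≤ (2 * w) ^ 2 := by nlinarith [sq_nonneg w]
    exact le_of_sq_le_sq this (by positivity)
  set X : ℂ := A * x with hX
  have hXn : ‖X‖ = A * ‖x‖ := by
    rw [hX, norm_mul, Complex.norm_real, Real.norm_of_nonneg hA0.le]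
  have hX0 := norm_nonneg X
  have hXw : ‖X‖ ≤ 2 * A * w := by rw [hXn]; nlinarith
  have hX1 : ‖X‖ ≤ 1 / 200 := by nlinarith
  -- |t x| ≤ 0.004 s t
  have hxs : ‖x‖ ≤ (4 / 1000) * s := by
    have h1 : ‖x‖ ^ 2 ≤ ((4 / 1000) * s) ^ 2 := by
      have h2 : w ^ 2 ≤ (16 / 1000000) * s := by
        have h3 : A * w ^ 2 ≤ (16 / 1000000) * (A * s) := by nlinarith
        exact le_of_mul_le_mul_left (by linarith : A * w ^ 2 ≤ A * ((16 / 1000000) * s)) hA0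
      nlinarith
    exact le_of_sq_le_sq h1 (by positivity)
  have hys : ‖y‖ ≤ (1 / 1000) * (s * t) := by
    have h1 : ‖y‖ ^ 2 ≤ ((1 / 1000) * (s * t)) ^ 2 := by
      have h2 : w ^ 2 ≤ (1 / 1000000) * (s * (s * t)) := by
        have h3 : A * w ^ 2 ≤ (1 / 1000000) * ((A * s) * (s * t)) := by
          have h4 : (6400 : ℝ) ≤ (A * s) * (s * t) := by nlinarith
          nlinarith
        exact le_of_mul_le_mul_left (by linarith : A * w ^ 2 ≤ A * ((1 / 1000000) * (s * (s * t))))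
          hA0
      nlinarith
    exact le_of_sq_le_sq h1 (by positivity)
  have htx : ‖(t : ℂ) * x‖ ≤ (4 / 1000) * (s * t) := by
    rw [norm_mul, Complex.norm_real, Real.norm_of_nonneg ht0.le]
    nlinarith
  have hσ0 : 0 < s * t - 1 := by linarith
  have hσn : ‖((s * t - 1 : ℝ) : ℂ)‖ = s * t - 1 := by
    rw [Complex.norm_real, Real.norm_of_nonneg hσ0.le]
  have hden : (99 / 100) * (s * t) ≤ ‖(((s * t - 1 : ℝ) : ℂ) + t * x - y)‖ := by
    have h1 : ‖((s * t - 1 : ℝ) : ℂ)‖ ≤ ‖(((s * t - 1 : ℝ) : ℂ) + t * x - y)‖ + ‖(t : ℂ) * x‖ +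
        ‖y‖ := by
      have h2 : ((s * t - 1 : ℝ) : ℂ) = (((s * t - 1 : ℝ) : ℂ) + t * x - y) - t * x + y := by ring
      calc ‖((s * t - 1 : ℝ) : ℂ)‖ = ‖(((s * t - 1 : ℝ) : ℂ) + t * x - y) - t * x + y‖ := by
            rw [← h2]
        _ ≤ _ := (norm_add_le _ _).trans (by gcongr; exact norm_sub_le _ _)
    rw [hσn] at h1
    linarith
  refine ⟨hden, ?_, ?_⟩
  · rw [norm_div, hσn, div_le_iff₀ hσ0]
    have := norm_sub_le y ((t:ℂ) * x)
    linarith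
  -- the main inequality
  set E : ℂ := 1 + X + X ^ 2 / 2 with hE
  have hE1 : ‖E - 1‖ ≤ (101 / 100) * ‖X‖ := by
    have h1 : E - 1 = X + X ^ 2 / 2 := by rw [hE]; ring
    rw [h1]
    refine (norm_add_le _ _).trans ?_
    rw [norm_div, norm_pow]
    have : ‖(2:ℂ)‖ = 2 := by simp
    rw [this]
    nlinarith
  have hEn : ‖E‖ ≤ 101 / 100 := by
    have h1 : ‖E‖ ≤ ‖E - 1‖ + ‖(1:ℂ)‖ := by
      calc ‖E‖ = ‖(E - 1) + 1‖ := by ring_nf
        _ ≤ _ := norm_add_le _ _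
    rw [norm_one] at h1
    linarith
  have hEexp : ‖E‖ ≤ Real.exp X.re + (2 / 9) * ‖X‖ ^ 3 := by
    have h1 := Complex.exp_bound (x := X) (by linarith) (n := 3) (by norm_num)
    have h2 : ∑ m ∈ Finset.range 3, X ^ m / (m.factorial : ℂ) = E := by
      simp [Finset.sum_range_succ, hE, Nat.factorial]
    rw [h2] at h1
    have h3 : ‖E‖ ≤ ‖cexp X‖ + ‖cexp X - E‖ := by
      calc ‖E‖ = ‖cexp X - (cexp X - E)‖ := by ring_nf
        _ ≤ _ := norm_sub_le _ _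
    rw [Complex.norm_exp] at h3
    have h4 : ‖X‖ ^ 3 * (((3 : ℕ).succ : ℝ) * (((3 : ℕ).factorial : ℝ) * ((3 : ℕ) : ℝ))⁻¹) =
        (2 / 9) * ‖X‖ ^ 3 := by
      norm_num [Nat.factorial]
      ring
    rw [h4] at h1
    linarith
  have hre : |X.re| ≤ 1 / 200 := (Complex.abs_re_le_norm X).trans hX1
  have hexpu : Real.exp X.re ≤ 102 / 100 := by
    have h1 : Real.exp X.re ≤ Real.exp (1 / 200) := Real.exp_le_exp.2 (abs_le.1 hre).2
    have h2 := Real.exp_bound' (x := 1 / 200) (by norm_num) (by norm_num) (n := 2) (by norm_num)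
    norm_num [Finset.sum_range_succ, Nat.factorial] at h2
    linarith
  have hexpl : 99 / 100 ≤ Real.exp (2 * X.re) := by
    have h1 := Real.add_one_le_exp (2 * X.re)
    have h2 := (abs_le.1 hre).1
    linarith
  have hXc : ‖X‖ ^ 3 ≤ (8 / 100) * (A * w ^ 2) := by
    have h1 : ‖X‖ ^ 3 ≤ (2 * A * w) ^ 3 := pow_le_pow_left₀ hX0 hXw 3
    have h2 : (2 * A * w) ^ 3 = 8 * (A ^ 2 * w) * (A * w ^ 2) := by ring
    have h3 : 0 ≤ A * w ^ 2 := by positivity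
    nlinarith
  have hX3 : ‖X‖ ^ 3 ≤ 1 / 200 := by
    have : ‖X‖ ^ 3 ≤ (1 / 200) ^ 3 := pow_le_pow_left₀ hX0 hX1 3
    norm_num at this ⊢
    linarith
  have hE2 : ‖E‖ ^ 2 ≤ Real.exp (2 * X.re) + ‖X‖ ^ 3 := by
    have h1 : ‖E‖ ^ 2 ≤ (Real.exp X.re + (2 / 9) * ‖X‖ ^ 3) ^ 2 :=
      pow_le_pow_left₀ (norm_nonneg _) hEexp 2
    have h2 : Real.exp (2 * X.re) = Real.exp X.re ^ 2 := by
      rw [← Real.exp_nat_mul]; norm_num
    have h3 := Real.exp_pos X.re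
    have h4 : 0 ≤ ‖X‖ ^ 3 := by positivity
    nlinarith
  have hc : (s * t - 1) * ‖(1 - (1 + y) * E) / (((s * t - 1 : ℝ) : ℂ) + t * x - y)‖ ^ 2 ≤
      (25 / 100) * (A * w ^ 2) := by
    set den : ℂ := ((s * t - 1 : ℝ) : ℂ) + t * x - y with hdn
    have hd0 : 0 < ‖den‖ := lt_of_lt_of_le (by positivity) hden
    have hnum : ‖1 - (1 + y) * E‖ ≤ (101 / 100) * (‖X‖ + ‖y‖) := by
      have h1 : 1 - (1 + y) * E = -(E - 1) - y * E := by ring
      rw [h1]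
      refine (norm_sub_le _ _).trans ?_
      rw [norm_neg, norm_mul]
      nlinarith
    rw [norm_div, div_pow, mul_div_assoc']
    rw [div_le_iff₀ (by positivity)]
    have h2 : ‖1 - (1 + y) * E‖ ^ 2 ≤ ((101 / 100) * (‖X‖ + ‖y‖)) ^ 2 :=
      pow_le_pow_left₀ (norm_nonneg _) hnum 2
    have h3 : ((99 / 100) * (s * t)) ^ 2 ≤ ‖den‖ ^ 2 := pow_le_pow_left₀ (by positivity) hden 2
    have h4 : ((101 / 100) * (‖X‖ + ‖y‖)) ^ 2 ≤ (20402 / 10000) * (A ^ 2 * (s * w ^ 2) + t * w ^ 2) := by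
      have h5 : ‖X‖ ^ 2 ≤ A ^ 2 * (s * w ^ 2) := by
        rw [hXn, mul_pow]
        gcongr
      nlinarith [sq_nonneg (‖X‖ - ‖y‖)]
    have h6 : (s * t - 1) * ‖1 - (1 + y) * E‖ ^ 2 ≤
        (s * t) * ((20402 / 10000) * (A ^ 2 * (s * w ^ 2) + t * w ^ 2)) := by
      calc (s * t - 1) * ‖1 - (1 + y) * E‖ ^ 2 ≤ (s * t) * ‖1 - (1 + y) * E‖ ^ 2 := by
            gcongr; linarith
        _ ≤ _ := by
            gcongr
            exact h2.trans h4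
    -- A² s ≤ A s t / 25 , t ≤ A s t / 16
    have h7 : A ^ 2 * s ≤ (1 / 25) * (A * (s * t)) := by
      have : A * s * (25 * A) ≤ A * s * t := by gcongr
      nlinarith
    have h8 : t ≤ (1 / 16) * (A * (s * t)) := by nlinarith
    have h9 : A ^ 2 * (s * w ^ 2) + t * w ^ 2 ≤ (41 / 400) * (A * (s * t)) * w ^ 2 := by
      have : (A ^ 2 * s + t) * w ^ 2 ≤ ((41 / 400) * (A * (s * t))) * w ^ 2 := by
        gcongr
        linarith
      linarith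
    calc (s * t - 1) * ‖1 - (1 + y) * E‖ ^ 2 ≤
          (s * t) * ((20402 / 10000) * (A ^ 2 * (s * w ^ 2) + t * w ^ 2)) := h6
      _ ≤ (s * t) * ((20402 / 10000) * ((41 / 400) * (A * (s * t)) * w ^ 2)) := by gcongr
      _ ≤ (25 / 100) * (A * w ^ 2) * ((99 / 100) * (s * t)) ^ 2 := by
          have h10 : 0 ≤ (s * t) ^ 2 * (A * w ^ 2) := by positivity
          nlinarith
      _ ≤ (25 / 100) * (A * w ^ 2) * ‖den‖ ^ 2 := by gcongr
  have hre2 : X.re = A * x.re := by rw [hX]; simp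
  have hfin : Real.exp (2 * X.re) * (1 + A * w ^ 2) ≤ Real.exp (2 * A * x.re + A * w ^ 2) := by
    have h1 : 2 * A * x.re + A * w ^ 2 = 2 * X.re + A * w ^ 2 := by rw [hre2]; ring
    rw [h1, Real.exp_add]
    have := Real.add_one_le_exp (A * w ^ 2)
    gcongr
    linarith
  have h0 : 0 ≤ A * w ^ 2 := by positivity
  nlinarith

end Pool.Agent.K9h23.Lac
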