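import Mathlib
import Pool.Agent.K9h23.Lac.Ineq

/-!
The step in vector form.
-/

set_option autoImplicit false

open Complex

namespace Pool.Agent.K9h23.Lac

variable {N : ℕ}

/-- the square of the euclidean norm -/
noncomputable def nsq (u : Fin N → ℂ) : ℝ := ∑ j, ‖u j‖ ^ 2

/-- the bilinear product -/
noncomputable def bd (u v : Fin N → ℂ) : ℂ := ∑ j, u j * v j

/-- the product `∑ conj a_j v_j` -/
noncomputable def xx (a v : Fin N → ℂ) : ℂ := ∑ j, starRingEnd ℂ (a j) * v j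

/-- the quadratic polynomial -/
noncomputable def EE (A : ℝ) (x : ℂ) : ℂ := 1 + A * x + (A * x) ^ 2 / 2

theorem nsq_nonneg (u : Fin N → ℂ) : 0 ≤ nsq u := Finset.sum_nonneg fun _ _ => by positivity

theorem nsq_c (u : Fin N → ℂ) : ((nsq u : ℝ) : ℂ) = ∑ j, u j * starRingEnd ℂ (u j) := by
  unfold nsq
  push_cast
  refine Finset.sum_congr rfl fun j _ => ?_
  rw [Complex.mul_conj, Complex.normSq_eq_norm_sq]
  push_cast
  rfl

theorem nn_eq (u : Fin N → ℂ) :
    ‖(WithLp.toLp 2 u : EuclideanSpace ℂ (Fin N))‖ ^ 2 = nsq u := EuclideanSpace.norm_sq_eq _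

/-- Cauchy-Schwarz -/
theorem bd_le (u v : Fin N → ℂ) : ‖bd u v‖ ^ 2 ≤ nsq u * nsq v := by
  have h1 : ‖bd u v‖ ≤ ∑ j, ‖u j‖ * ‖v j‖ := by
    unfold bd
    refine (norm_sum_le _ _).trans (Finset.sum_le_sum fun j _ => ?_)
    rw [norm_mul]
  have h2 := Finset.sum_mul_sq_le_sq_mul_sq Finset.univ (fun j => ‖u j‖) (fun j => ‖v j‖)
  calc ‖bd u v‖ ^ 2 ≤ (∑ j, ‖u j‖ * ‖v j‖) ^ 2 := pow_le_pow_left₀ (norm_nonneg _) h1 2
    _ ≤ _ := h2

theorem xx_eq (a v : Fin N → ℂ) : xx a v = bd (fun j => starRingEnd ℂ (a j)) v := rfl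

theorem nsq_conj (a : Fin N → ℂ) : nsq (fun j => starRingEnd ℂ (a j)) = nsq a := by
  unfold nsq
  simp

theorem xx_le (a v : Fin N → ℂ) : ‖xx a v‖ ^ 2 ≤ nsq a * nsq v := by
  rw [xx_eq, ← nsq_conj a]
  exact bd_le _ _

theorem nsq_add (a v : Fin N → ℂ) : nsq (fun j => a j + v j) = nsq a + 2 * (xx a v).re + nsq v := by
  have h : ((nsq (fun j => a j + v j) : ℝ) : ℂ) = nsq a + (xx a v + starRingEnd ℂ (xx a v)) +
      nsq v := by
    rw [nsq_c, nsq_c, nsq_c]
    unfold xx
    rw [map_sum, ← Finset.sum_add_distrib, ← Finset.sum_add_distrib, ← Finset.sum_add_distrib]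
    refine Finset.sum_congr rfl fun j _ => ?_
    simp only [map_add, map_mul, Complex.conj_conj]
    ring
  rw [Complex.add_conj] at h
  exact_mod_cast h

/-- the vector `t conj a - H` -/
noncomputable def UU (a H : Fin N → ℂ) (j : Fin N) : ℂ :=
  nsq H * starRingEnd ℂ (a j) - H j

/-- the combination `e H + c U` -/
theorem comb_nsq (a H : Fin N → ℂ) (h1 : bd a H = 1) (e c : ℂ) :
    nsq (fun j => e * H j + c * UU a H j) =
      nsq H * (‖e‖ ^ 2 + (nsq a * nsq H - 1) * ‖c‖ ^ 2) := by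
  have e1 : ∑ j, H j * starRingEnd ℂ (UU a H j) = 0 := by
    have : ∑ j, H j * starRingEnd ℂ (UU a H j) = nsq H * bd a H - nsq H := by
      rw [nsq_c]
      conv_rhs => rw [← nsq_c]
      unfold bd
      rw [Finset.mul_sum]
      conv_rhs => rw [nsq_c H]
      rw [← nsq_c H, nsq_c H]
      rw [← Finset.sum_sub_distrib]
      refine Finset.sum_congr rfl fun j _ => ?_
      unfold UU
      rw [map_sub, map_mul, Complex.conj_conj, Complex.conj_ofReal, nsq_c H]
      ring
    rw [this, h1]; ring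
  have e2 : ∑ j, starRingEnd ℂ (H j) * UU a H j = 0 := by
    have := congrArg (starRingEnd ℂ) e1
    rw [map_sum, map_zero] at this
    rw [← this]
    refine Finset.sum_congr rfl fun j _ => ?_
    rw [map_mul, Complex.conj_conj]
  have e3 : ∑ j, a j * UU a H j = nsq H * nsq a - 1 := by
    unfold UU
    rw [nsq_c a, Finset.mul_sum, ← h1]
    unfold bd
    rw [← Finset.sum_sub_distrib]
    refine Finset.sum_congr rfl fun j _ => ?_
    ring
  have e4 : ∑ j, UU a H j * starRingEnd ℂ (UU a H j) = nsq H * (nsq H * nsq a - 1) := by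
    have : ∀ j, UU a H j * starRingEnd ℂ (UU a H j) =
        nsq H * (a j * UU a H j) - starRingEnd ℂ (H j) * UU a H j := by
      intro j
      conv_lhs => rw [show starRingEnd ℂ (UU a H j) = nsq H * a j - starRingEnd ℂ (H j) by
        unfold UU; rw [map_sub, map_mul, Complex.conj_conj, Complex.conj_ofReal]]
      ring
    rw [Finset.sum_congr rfl (fun j _ => this j), Finset.sum_sub_distrib, ← Finset.mul_sum, e2, e3]
    ring
  have h : ((nsq (fun j => e * H j + c * UU a H j) : ℝ) : ℂ) =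
      ((nsq H * (‖e‖ ^ 2 + (nsq a * nsq H - 1) * ‖c‖ ^ 2) : ℝ) : ℂ) := by
    rw [nsq_c]
    have h2 : ∀ j, (e * H j + c * UU a H j) * starRingEnd ℂ (e * H j + c * UU a H j) =
        (e * starRingEnd ℂ e) * (H j * starRingEnd ℂ (H j)) +
        (e * starRingEnd ℂ c) * (H j * starRingEnd ℂ (UU a H j)) +
        (c * starRingEnd ℂ e) * (starRingEnd ℂ (H j) * UU a H j) +
        (c * starRingEnd ℂ c) * (UU a H j * starRingEnd ℂ (UU a H j)) := by
      intro j
      rw [map_add, map_mul, map_mul]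
      ring
    rw [Finset.sum_congr rfl (fun j _ => h2 j)]
    rw [Finset.sum_add_distrib, Finset.sum_add_distrib, Finset.sum_add_distrib,
      ← Finset.mul_sum, ← Finset.mul_sum, ← Finset.mul_sum, ← Finset.mul_sum, e1, e2, e4,
      ← nsq_c, Complex.mul_conj, Complex.mul_conj, Complex.normSq_eq_norm_sq,
      Complex.normSq_eq_norm_sq]
    push_cast
    ring
  exact_mod_cast h

/-- the product with `a + v` -/
theorem comb_bd (a H v : Fin N → ℂ) (h1 : bd a H = 1) (e c : ℂ) :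
    bd (fun j => a j + v j) (fun j => e * H j + c * UU a H j) =
      e * (1 + bd H v) + c * (((nsq a * nsq H - 1 : ℝ) : ℂ) + nsq H * xx a v - bd H v) := by
  have e3 : ∑ j, a j * UU a H j = nsq H * nsq a - 1 := by
    unfold UU
    rw [nsq_c a, Finset.mul_sum, ← h1]
    unfold bd
    rw [← Finset.sum_sub_distrib]
    refine Finset.sum_congr rfl fun j _ => ?_
    ring
  have e4 : ∑ j, v j * UU a H j = nsq H * xx a v - bd H v := by
    unfold UU xx bd
    rw [Finset.mul_sum, ← Finset.sum_sub_distrib]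
    refine Finset.sum_congr rfl fun j _ => ?_
    ring
  have e5 : ∑ j, v j * H j = bd H v := by
    unfold bd
    refine Finset.sum_congr rfl fun j _ => ?_
    ring
  have h2 : bd (fun j => a j + v j) (fun j => e * H j + c * UU a H j) =
      e * (∑ j, a j * H j) + e * (∑ j, v j * H j) + c * (∑ j, a j * UU a H j) +
        c * (∑ j, v j * UU a H j) := by
    rw [Finset.mul_sum, Finset.mul_sum, Finset.mul_sum, Finset.mul_sum, ← Finset.sum_add_distrib,
      ← Finset.sum_add_distrib, ← Finset.sum_add_distrib]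
    unfold bd
    refine Finset.sum_congr rfl fun j _ => ?_
    ring
  rw [h2, e3, e4, e5]
  have h3 : ∑ j, a j * H j = 1 := h1
  rw [h3]
  push_cast
  ring

/-- the cutoff in the size of `H` -/
noncomputable def th (A t : ℝ) : ℝ := max 0 (min 1 ((t - 25 * A) / (75 * A)))

/-- the truncated `y` -/
noncomputable def yh (A t : ℝ) (y : ℂ) : ℂ := ((100 * A / max (100 * A) t : ℝ) : ℂ) * y

noncomputable def sg (s t : ℝ) : ℝ := max (s * t - 1) 1

noncomputable def ww (s t : ℝ) (x y : ℂ) : ℂ := (y - t * x) / (sg s t : ℂ)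

noncomputable def cc (A s t : ℝ) (x y : ℂ) : ℂ :=
  -(y + (EE A x - 1) + y * (EE A x - 1)) * ((1 / sg s t : ℝ) : ℂ) * (1 / (1 - ww s t x y))

/-- the step -/
noncomputable def GG (A : ℝ) (a H v : Fin N → ℂ) (j : Fin N) : ℂ :=
  H j + th A (nsq H) * ((EE A (xx a v) - 1) * H j +
    cc A (nsq a) (nsq H) (xx a v) (bd H v) * UU a H j) -
  (1 - th A (nsq H)) * (H j * (yh A (nsq H) (bd H v) * (1 / (1 + yh A (nsq H) (bd H v)))))

theorem th_mem {A t : ℝ} : 0 ≤ th A t ∧ th A t ≤ 1 := by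
  unfold th
  constructor
  · exact le_max_left _ _
  · exact max_le zero_le_one (min_le_left _ _)

theorem th_pos {A t : ℝ} (hA : 0 < A) (h : th A t ≠ 0) : 25 * A ≤ t := by
  by_contra hcon
  push Not at hcon
  apply h
  unfold th
  rw [max_eq_left]
  refine (min_le_right _ _).trans ?_
  exact div_nonpos_of_nonpos_of_nonneg (by linarith) (by positivity)

theorem th_one {A t : ℝ} (hA : 0 < A) (h : th A t ≠ 1) : t ≤ 100 * A := by
  by_contra hcon
  push Not at hcon
  apply h
  unfold th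
  rw [min_eq_left, max_eq_right zero_le_one]
  rw [le_div_iff₀ (by positivity)]
  linarith

/-- the smallness of the auxiliary quantities -/
theorem ww_le {A s t w : ℝ} {x y : ℂ} (hw : 0 ≤ w) (hx : ‖x‖ ^ 2 ≤ s * w ^ 2)
    (hy : ‖y‖ ^ 2 ≤ t * w ^ 2) (hs : 16 ≤ A * s) (hs4 : s ≤ 4) (hs0 : 0 < s) (ht0 : 0 ≤ t)
    (hA : 4 ≤ A) (hwA : 100 * A ^ 2 * w ≤ 1) : ‖ww s t x y‖ ≤ 1 / 2 := by
  have hA0 : 0 < A := by linarith
  by_cases ht : 25 * A ≤ t
  · have h1 := (num_ineq hw hx hy hs hs4 hs0 ht hA hwA).2.1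
    have h2 : sg s t = s * t - 1 := by
      unfold sg
      rw [max_eq_left]
      nlinarith
    unfold ww
    rw [h2]
    exact h1
  · push Not at ht
    have hsg : 1 ≤ sg s t := le_max_right _ _
    unfold ww
    rw [norm_div, Complex.norm_real, Real.norm_of_nonneg (by linarith)]
    rw [div_le_iff₀ (by linarith)]
    have hx2 : ‖x‖ ≤ 2 * w := by
      have : ‖x‖ ^ 2 ≤ (2 * w) ^ 2 := by nlinarith [sq_nonneg w]
      exact le_of_sq_le_sq this (by positivity)
    have hw2 : A * w ≤ 1 / 400 := by nlinarith [mul_nonneg hA0.le hw]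
    have hy2 : ‖y‖ ≤ 10 * (A * w) := by
      have : ‖y‖ ^ 2 ≤ (10 * (A * w)) ^ 2 := by
        have h1 : t * w ^ 2 ≤ 25 * A * w ^ 2 := by gcongr
        have h2 : 25 * A * w ^ 2 ≤ 100 * A ^ 2 * w ^ 2 := by
          have : 25 * A ≤ 100 * A ^ 2 := by nlinarith
          gcongr
        nlinarith
      exact le_of_sq_le_sq this (by positivity)
    have h3 := norm_sub_le y ((t:ℂ) * x)
    have h4 : ‖(t:ℂ) * x‖ ≤ 50 * (A * w) := by
      rw [norm_mul, Complex.norm_real, Real.norm_of_nonneg ht0]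
      calc t * ‖x‖ ≤ (25 * A) * (2 * w) := by gcongr
        _ = _ := by ring
    linarith

theorem yh_le {A t w : ℝ} {y : ℂ} (hw : 0 ≤ w) (hy : ‖y‖ ^ 2 ≤ t * w ^ 2) (ht0 : 0 ≤ t)
    (hA : 4 ≤ A) (hwA : 100 * A ^ 2 * w ≤ 1) : ‖yh A t y‖ ≤ 1 / 2 := by
  have hA0 : 0 < A := by linarith
  have hM : 0 < max (100 * A) t := lt_max_of_lt_left (by positivity)
  have hw2 : A * w ≤ 1 / 400 := by nlinarith [mul_nonneg hA0.le hw]
  unfold yh
  rw [norm_mul, Complex.norm_real, Real.norm_of_nonneg (by positivity)]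
  have h1 : (100 * A / max (100 * A) t * ‖y‖) ^ 2 ≤ (1 / 2) ^ 2 := by
    rw [mul_pow]
    have h2 : (100 * A / max (100 * A) t) ^ 2 * ‖y‖ ^ 2 ≤
        (100 * A / max (100 * A) t) ^ 2 * (t * w ^ 2) := by gcongr
    refine h2.trans ?_
    have h3 : (100 * A / max (100 * A) t) ^ 2 * t ≤ 100 * A := by
      rw [div_pow, div_mul_eq_mul_div, div_le_iff₀ (by positivity)]
      have h4 : t ≤ max (100 * A) t := le_max_right _ _
      have h5 : 100 * A ≤ max (100 * A) t := le_max_left _ _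
      calc (100 * A) ^ 2 * t = 100 * A * (100 * A * t) := by ring
        _ ≤ 100 * A * (max (100 * A) t * max (100 * A) t) := by gcongr
        _ = _ := by ring
    have h6 : (100 * A / max (100 * A) t) ^ 2 * (t * w ^ 2) ≤ 100 * A * w ^ 2 := by
      calc (100 * A / max (100 * A) t) ^ 2 * (t * w ^ 2) =
          ((100 * A / max (100 * A) t) ^ 2 * t) * w ^ 2 := by ring
        _ ≤ _ := by gcongr
    refine h6.trans ?_
    have hw3 : w ≤ 1 / 1600 := by nlinarith
    nlinarith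
  exact le_of_sq_le_sq h1 (by norm_num)

end Pool.Agent.K9h23.Lac
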