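import Mathlib
import Pool.Agent.K9h23.Lac.Vec

/-!
The properties of the step.
-/

set_option autoImplicit false

open Complex

namespace Pool.Agent.K9h23.Lac

variable {N : ℕ}

/-- the admissible constants -/
structure Adm (A : ℝ) (a v : Fin N → ℂ) : Prop where
  hA : 4 ≤ A
  hs : 16 ≤ A * nsq a
  hs4 : nsq a ≤ 4
  hv : nsq v * (100 * A ^ 2) ^ 2 ≤ 1

theorem Adm.w {A : ℝ} {a v : Fin N → ℂ} (h : Adm A a v) :
    100 * A ^ 2 * Real.sqrt (nsq v) ≤ 1 := by
  have h1 : (100 * A ^ 2 * Real.sqrt (nsq v)) ^ 2 ≤ 1 ^ 2 := by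
    rw [mul_pow, Real.sq_sqrt (nsq_nonneg _)]
    linarith [h.hv]
  exact le_of_sq_le_sq h1 (by norm_num)

theorem Adm.s0 {A : ℝ} {a v : Fin N → ℂ} (h : Adm A a v) : 0 < nsq a := by
  have h1 := h.hA
  have h2 := h.hs
  by_contra hcon
  push Not at hcon
  nlinarith [nsq_nonneg a]

/-- `(1 - θ) u + θ v` has euclidean norm at most the maximum -/
theorem nsq_conv {u v : Fin N → ℂ} {θ M : ℝ} (h0 : 0 ≤ θ) (h1 : θ ≤ 1) (hu : nsq u ≤ M)
    (hv : nsq v ≤ M) : nsq (fun j => (1 - θ) * u j + θ * v j) ≤ M := by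
  have hM : 0 ≤ M := (nsq_nonneg u).trans hu
  have e : ∀ j, ‖(1 - (θ:ℂ)) * u j + θ * v j‖ ^ 2 ≤ (1 - θ) * ‖u j‖ ^ 2 + θ * ‖v j‖ ^ 2 := by
    intro j
    have h3 : ‖(1 - (θ:ℂ)) * u j + θ * v j‖ ≤ (1 - θ) * ‖u j‖ + θ * ‖v j‖ := by
      refine (norm_add_le _ _).trans ?_
      rw [norm_mul, norm_mul, Complex.norm_real, Real.norm_of_nonneg h0]
      have : ‖(1 - (θ:ℂ))‖ = 1 - θ := by
        rw [← Complex.ofReal_one, ← Complex.ofReal_sub, Complex.norm_real,
          Real.norm_of_nonneg (by linarith)]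
      rw [this]
    have h4 : ((1 - θ) * ‖u j‖ + θ * ‖v j‖) ^ 2 ≤ (1 - θ) * ‖u j‖ ^ 2 + θ * ‖v j‖ ^ 2 := by
      have : (1 - θ) * ‖u j‖ ^ 2 + θ * ‖v j‖ ^ 2 - ((1 - θ) * ‖u j‖ + θ * ‖v j‖) ^ 2 =
          θ * (1 - θ) * (‖u j‖ - ‖v j‖) ^ 2 := by ring
      have h5 : 0 ≤ θ * (1 - θ) * (‖u j‖ - ‖v j‖) ^ 2 :=
        mul_nonneg (mul_nonneg h0 (by linarith)) (sq_nonneg _)
      linarith
    exact (pow_le_pow_left₀ (norm_nonneg _) h3 2).trans h4
  unfold nsq at *
  refine (Finset.sum_le_sum fun j _ => e j).trans ?_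
  rw [Finset.sum_add_distrib, ← Finset.mul_sum, ← Finset.mul_sum]
  have h5 : (1 - θ) * ∑ j, ‖u j‖ ^ 2 ≤ (1 - θ) * M :=
    mul_le_mul_of_nonneg_left hu (by linarith)
  have h6 : θ * ∑ j, ‖v j‖ ^ 2 ≤ θ * M := mul_le_mul_of_nonneg_left hv h0
  linarith

theorem nsq_smul (c : ℂ) (u : Fin N → ℂ) : nsq (fun j => c * u j) = ‖c‖ ^ 2 * nsq u := by
  unfold nsq
  rw [Finset.mul_sum]
  refine Finset.sum_congr rfl fun j _ => ?_
  rw [norm_mul, mul_pow]

theorem bd_smul (b : Fin N → ℂ) (c : ℂ) (u : Fin N → ℂ) :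
    bd b (fun j => c * u j) = c * bd b u := by
  unfold bd
  rw [Finset.mul_sum]
  refine Finset.sum_congr rfl fun j _ => ?_
  ring

theorem bd_conv (b : Fin N → ℂ) (u v : Fin N → ℂ) (θ : ℂ) :
    bd b (fun j => (1 - θ) * u j + θ * v j) = (1 - θ) * bd b u + θ * bd b v := by
  unfold bd
  rw [Finset.mul_sum, Finset.mul_sum, ← Finset.sum_add_distrib]
  refine Finset.sum_congr rfl fun j _ => ?_
  ring

theorem bd_add (a v H : Fin N → ℂ) (h1 : bd a H = 1) :
    bd (fun j => a j + v j) H = 1 + bd H v := by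
  rw [← h1]
  unfold bd
  rw [← Finset.sum_add_distrib]
  refine Finset.sum_congr rfl fun j _ => ?_
  ring

variable {A : ℝ} {a H v : Fin N → ℂ}

/-- the step is a convex combination -/
theorem GG_eq (A : ℝ) (a H v : Fin N → ℂ) (hy : ‖yh A (nsq H) (bd H v)‖ ≤ 1 / 2) :
    GG A a H v = fun j => (1 - (th A (nsq H) : ℂ)) * ((1 / (1 + yh A (nsq H) (bd H v))) * H j) +
      th A (nsq H) * (EE A (xx a v) * H j +
        cc A (nsq a) (nsq H) (xx a v) (bd H v) * UU a H j) := by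
  have h1 : 1 + yh A (nsq H) (bd H v) ≠ 0 := by
    intro h
    have h2 : yh A (nsq H) (bd H v) = -1 := by linear_combination h
    rw [h2, norm_neg, norm_one] at hy
    norm_num at hy
  funext j
  unfold GG
  have h3 : yh A (nsq H) (bd H v) * (1 / (1 + yh A (nsq H) (bd H v))) =
      1 - 1 / (1 + yh A (nsq H) (bd H v)) := by
    field_simp
    ring
  rw [h3]
  ring

theorem cc_eq {s t : ℝ} {x y : ℂ} (hst : 2 ≤ s * t)
    (hd : ((s * t - 1 : ℝ) : ℂ) + t * x - y ≠ 0) :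
    cc A s t x y = (1 - (1 + y) * EE A x) / (((s * t - 1 : ℝ) : ℂ) + t * x - y) := by
  have h2 : sg s t = s * t - 1 := by
    unfold sg
    rw [max_eq_left]
    linarith
  unfold cc ww
  rw [h2]
  have h3 : ((s * t - 1 : ℝ) : ℂ) ≠ 0 := by
    have : s * t - 1 ≠ 0 := by linarith
    exact_mod_cast this
  have h4 : 1 - (y - t * x) / ((s * t - 1 : ℝ) : ℂ) =
      (((s * t - 1 : ℝ) : ℂ) + t * x - y) / ((s * t - 1 : ℝ) : ℂ) := by
    field_simp
    ring
  rw [h4]
  have h5 : ((1 / (s * t - 1) : ℝ) : ℂ) = 1 / ((s * t - 1 : ℝ) : ℂ) := by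
    push_cast
    ring
  rw [h5]
  field_simp
  ring

/-- the two facts needed about the fast part -/
theorem fast (h : Adm A a v) (h1 : bd a H = 1) (ht : 25 * A ≤ nsq H) :
    bd (fun j => a j + v j) (fun j => EE A (xx a v) * H j +
      cc A (nsq a) (nsq H) (xx a v) (bd H v) * UU a H j) = 1 ∧
    nsq (fun j => EE A (xx a v) * H j +
      cc A (nsq a) (nsq H) (xx a v) (bd H v) * UU a H j) ≤
      nsq H * Real.exp (A * (nsq (fun j => a j + v j) - nsq a)) := by
  set w := Real.sqrt (nsq v) with hw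
  have hw2 : w ^ 2 = nsq v := Real.sq_sqrt (nsq_nonneg _)
  have h2 : ‖xx a v‖ ^ 2 ≤ nsq a * w ^ 2 := by rw [hw2]; exact xx_le a v
  have h3 : ‖bd H v‖ ^ 2 ≤ nsq H * w ^ 2 := by rw [hw2]; exact bd_le H v
  obtain ⟨h4, -, h6⟩ := num_ineq (Real.sqrt_nonneg _) h2 h3 h.hs h.hs4 h.s0 ht h.hA h.w
  have hst : 400 ≤ nsq a * nsq H := by
    have := h.hs
    have := h.s0
    nlinarith
  have hd : ((nsq a * nsq H - 1 : ℝ) : ℂ) + nsq H * xx a v - bd H v ≠ 0 := by
    intro hcon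
    rw [hcon, norm_zero] at h4
    linarith
  have hc := cc_eq (A := A) (x := xx a v) (y := bd H v) (by linarith : 2 ≤ nsq a * nsq H) hd
  constructor
  · rw [comb_bd a H v h1, hc]
    field_simp
    ring
  · rw [comb_nsq a H h1, hc, nsq_add]
    have h7 : A * (nsq a + 2 * (xx a v).re + nsq v - nsq a) = 2 * A * (xx a v).re + A * w ^ 2 := by
      rw [hw2]; ring
    rw [h7]
    exact mul_le_mul_of_nonneg_left h6 (nsq_nonneg _)

theorem slow (h : Adm A a v) (h1 : bd a H = 1) (ht : nsq H ≤ 100 * A) :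
    yh A (nsq H) (bd H v) = bd H v ∧
    bd (fun j => a j + v j) (fun j => (1 / (1 + yh A (nsq H) (bd H v))) * H j) = 1 ∧
    nsq (fun j => (1 / (1 + yh A (nsq H) (bd H v))) * H j) ≤ 400 * A := by
  have hA0 : 0 < A := by linarith [h.hA]
  set w := Real.sqrt (nsq v) with hw
  have hw2 : w ^ 2 = nsq v := Real.sq_sqrt (nsq_nonneg _)
  have h3 : ‖bd H v‖ ^ 2 ≤ nsq H * w ^ 2 := by rw [hw2]; exact bd_le H v
  have h4 := yh_le (Real.sqrt_nonneg _) h3 (nsq_nonneg H) h.hA h.w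
  have h5 : yh A (nsq H) (bd H v) = bd H v := by
    unfold yh
    rw [max_eq_left ht, div_self (by positivity)]
    simp
  have h6 : 1 + yh A (nsq H) (bd H v) ≠ 0 := by
    intro hcon
    have h2 : yh A (nsq H) (bd H v) = -1 := by linear_combination hcon
    rw [h2, norm_neg, norm_one] at h4
    norm_num at h4
  refine ⟨h5, ?_, ?_⟩
  · rw [bd_smul, bd_add a v H h1, h5, one_div, inv_mul_cancel₀]
    rw [h5] at h6
    exact h6
  · rw [nsq_smul]
    have h7 : ‖1 / (1 + yh A (nsq H) (bd H v))‖ ^ 2 ≤ 4 := by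
      rw [norm_div, norm_one]
      have h8 : 1 / 2 ≤ ‖1 + yh A (nsq H) (bd H v)‖ := by
        have h9 : ‖(1:ℂ)‖ ≤ ‖1 + yh A (nsq H) (bd H v)‖ + ‖yh A (nsq H) (bd H v)‖ := by
          calc ‖(1:ℂ)‖ = ‖(1 + yh A (nsq H) (bd H v)) - yh A (nsq H) (bd H v)‖ := by ring_nf
            _ ≤ _ := norm_sub_le _ _
        rw [norm_one] at h9
        linarith
      have h10 : 1 / ‖1 + yh A (nsq H) (bd H v)‖ ≤ 2 := by
        rw [div_le_iff₀ (by linarith)]
        linarith
      have h11 : 0 ≤ 1 / ‖1 + yh A (nsq H) (bd H v)‖ := by positivity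
      nlinarith
    nlinarith [nsq_nonneg H]

/-- **The step.** -/
theorem GG_prop (h : Adm A a v) (h1 : bd a H = 1) :
    bd (fun j => a j + v j) (GG A a H v) = 1 ∧
    nsq (GG A a H v) ≤ max (nsq H * Real.exp (-(A * nsq a))) (400 * A) *
      Real.exp (A * nsq (fun j => a j + v j)) := by
  have hA0 : 0 < A := by linarith [h.hA]
  set w := Real.sqrt (nsq v) with hw
  have hw0 : 0 ≤ w := Real.sqrt_nonneg _
  have hw2 : w ^ 2 = nsq v := Real.sq_sqrt (nsq_nonneg _)
  have h2 : ‖xx a v‖ ^ 2 ≤ nsq a * w ^ 2 := by rw [hw2]; exact xx_le a v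
  have h3 : ‖bd H v‖ ^ 2 ≤ nsq H * w ^ 2 := by rw [hw2]; exact bd_le H v
  have h4 := yh_le (Real.sqrt_nonneg _) h3 (nsq_nonneg H) h.hA h.w
  rw [GG_eq A a H v h4]
  set θ := th A (nsq H) with hθ
  obtain ⟨hθ0, hθ1⟩ := th_mem (A := A) (t := nsq H)
  rw [← hθ] at hθ0 hθ1
  set u : Fin N → ℂ := fun j => (1 / (1 + yh A (nsq H) (bd H v))) * H j with hu
  set g : Fin N → ℂ := fun j => EE A (xx a v) * H j +
        cc A (nsq a) (nsq H) (xx a v) (bd H v) * UU a H j with hg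
  have hexp : nsq H * Real.exp (A * (nsq (fun j => a j + v j) - nsq a)) =
      (nsq H * Real.exp (-(A * nsq a))) * Real.exp (A * nsq (fun j => a j + v j)) := by
    rw [mul_assoc, ← Real.exp_add]
    congr 2
    ring
  have hE1 : 1 ≤ Real.exp (A * nsq (fun j => a j + v j)) :=
    Real.one_le_exp (mul_nonneg hA0.le (nsq_nonneg _))
  have hM : 400 * A ≤ max (nsq H * Real.exp (-(A * nsq a))) (400 * A) *
      Real.exp (A * nsq (fun j => a j + v j)) := by
    calc 400 * A = 400 * A * 1 := by ring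
      _ ≤ _ := mul_le_mul (le_max_right _ _) hE1 zero_le_one
          (le_max_of_le_right (by positivity))
  by_cases c1 : θ = 1
  · have ht : 25 * A ≤ nsq H := th_pos hA0 (by rw [← hθ, c1]; norm_num)
    obtain ⟨f1, f2⟩ := fast h h1 ht
    have e1 : (fun j => (1 - (θ : ℂ)) * u j + θ * g j) = g := by
      funext j
      rw [c1]
      push_cast
      ring
    rw [e1]
    refine ⟨f1, f2.trans ?_⟩
    rw [hexp]
    gcongr
    exact le_max_left _ _
  · have ht := th_one hA0 (by rw [← hθ]; exact c1)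
    obtain ⟨-, s2, s3⟩ := slow h h1 ht
    by_cases c0 : θ = 0
    · have e1 : (fun j => (1 - (θ : ℂ)) * u j + θ * g j) = u := by
        funext j
        rw [c0]
        push_cast
        ring
      rw [e1]
      exact ⟨s2, s3.trans hM⟩
    · have ht2 : 25 * A ≤ nsq H := th_pos hA0 (by rw [← hθ]; exact c0)
      obtain ⟨f1, f2⟩ := fast h h1 ht2
      constructor
      · rw [bd_conv, f1, s2]
        ring
      · refine (nsq_conv hθ0 hθ1 s3 ?_).trans hM
        refine f2.trans ?_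
        have h6 : A * (nsq (fun j => a j + v j) - nsq a) ≤ 1 / 2 := by
          rw [nsq_add]
          have hx2 : ‖xx a v‖ ≤ 2 * w := by
            have : ‖xx a v‖ ^ 2 ≤ (2 * w) ^ 2 := by nlinarith [sq_nonneg w, h.hs4]
            exact le_of_sq_le_sq this (by positivity)
          have h7 := (Complex.re_le_norm (xx a v)).trans hx2
          have h8 : A * w ≤ 1 / 400 := by
            have := h.w
            have := h.hA
            nlinarith [mul_nonneg hA0.le hw0]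
          have h9 : w ≤ 1 := by nlinarith [h.hA]
          rw [← hw2]
          nlinarith
        have h7 : Real.exp (A * (nsq (fun j => a j + v j) - nsq a)) ≤ 2 := by
          refine (Real.exp_le_exp.2 h6).trans ?_
          have h8 := Real.exp_bound' (x := 1 / 2) (by norm_num) (by norm_num) (n := 3) (by norm_num)
          norm_num [Finset.sum_range_succ, Nat.factorial] at h8
          linarith
        calc nsq H * Real.exp (A * (nsq (fun j => a j + v j) - nsq a)) ≤ (100 * A) * 2 :=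
              mul_le_mul ht h7 (Real.exp_pos _).le (by positivity)
          _ ≤ 400 * A := by linarith

end Pool.Agent.K9h23.Lac
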