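import Mathlib
import Pool.Agent.K9h23.Lac.Vec

/-!
Polynomials with a zero of high order: Schwarz lemma, tangential derivatives, and holomorphic
approximations of `conj z_i p`.
-/

set_option autoImplicit false

open Complex MvPolynomial

namespace Pool.Agent.K9h23.Lac

variable {n : ℕ}

abbrev MP (n : ℕ) := MvPolynomial (Fin n) ℂ

/-- degrees between `k` and `l` -/
def Rg (k l : ℕ) (p : MP n) : Prop := ∀ s, p.coeff s ≠ 0 → k ≤ s.degree ∧ s.degree ≤ l

/-- the unit ball -/
def Bal (n : ℕ) : Set (Fin n → ℂ) := {z | nsq z < 1}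

theorem Rg.mono {k k' l l' : ℕ} {p : MP n} (h : Rg k l p) (hk : k' ≤ k) (hl : l ≤ l') :
    Rg k' l' p := fun s hs => ⟨hk.trans (h s hs).1, (h s hs).2.trans hl⟩

theorem Rg.zero {k l : ℕ} : Rg k l (0 : MP n) := fun s hs => absurd (by simp) hs

theorem Rg.add {k l : ℕ} {p q : MP n} (hp : Rg k l p) (hq : Rg k l q) : Rg k l (p + q) := by
  intro s hs
  rw [coeff_add] at hs
  by_cases h : p.coeff s = 0
  · rw [h, zero_add] at hs
    exact hq s hs
  · exact hp s h

theorem Rg.C_mul {k l : ℕ} {p : MP n} (hp : Rg k l p) (c : ℂ) : Rg k l (C c * p) := by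
  intro s hs
  rw [coeff_C_mul] at hs
  exact hp s (right_ne_zero_of_mul hs)

theorem Rg.sum {ι : Type*} {k l : ℕ} (T : Finset ι) (p : ι → MP n) (h : ∀ i ∈ T, Rg k l (p i)) :
    Rg k l (∑ i ∈ T, p i) := by
  classical
  induction T using Finset.induction_on with
  | empty => simpa using Rg.zero
  | insert i T hi ih =>
    rw [Finset.sum_insert hi]
    exact (h i (Finset.mem_insert_self _ _)).add
      (ih fun j hj => h j (Finset.mem_insert_of_mem hj))

theorem Rg.mul {k l k' l' : ℕ} {p q : MP n} (hp : Rg k l p) (hq : Rg k' l' q) :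
    Rg (k + k') (l + l') (p * q) := by
  intro s hs
  rw [coeff_mul] at hs
  obtain ⟨x, hx, hne⟩ := Finset.exists_ne_zero_of_sum_ne_zero hs
  rw [Finset.HasAntidiagonal.mem_antidiagonal] at hx
  have h1 := hp _ (left_ne_zero_of_mul hne)
  have h2 := hq _ (right_ne_zero_of_mul hne)
  rw [← hx]
  have : (x.1 + x.2).degree = x.1.degree + x.2.degree := map_add _ _ _
  rw [this]
  omega

theorem Rg.pderiv {k l : ℕ} {p : MP n} (hp : Rg k l p) (i : Fin n) :
    Rg (k - 1) l (pderiv i p) := by
  intro s hs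
  rw [coeff_pderiv] at hs
  have h1 := hp _ (left_ne_zero_of_mul hs)
  have h2 : (s + Finsupp.single i 1).degree = s.degree + 1 := by
    rw [map_add, Finsupp.degree_single]
  rw [h2] at h1
  omega

theorem Rg.deg {k l : ℕ} {p : MP n} (h : p.totalDegree ≤ l) (h2 : ∀ s, p.coeff s ≠ 0 → k ≤ s.degree) :
    Rg k l p := by
  intro s hs
  refine ⟨h2 s hs, le_trans ?_ h⟩
  exact le_totalDegree (mem_support_iff.2 hs)

theorem Rg.totalDegree {k l : ℕ} {p : MP n} (h : Rg k l p) : p.totalDegree ≤ l := by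
  rw [MvPolynomial.totalDegree, Finset.sup_le_iff]
  intro s hs
  exact (h s (mem_support_iff.1 hs)).2

/-- the primitive with respect to the Euler field -/
theorem euler_prim {k l : ℕ} {p : MP n} (hk : 1 ≤ k) (h : Rg k l p) :
    ∃ P : MP n, Rg k l P ∧ ∑ i, X i * MvPolynomial.pderiv i P = p := by
  classical
  refine ⟨∑ d ∈ Finset.range (p.totalDegree + 1), C (1 / (d : ℂ)) * homogeneousComponent d p, ?_, ?_⟩
  · refine Rg.sum _ _ (fun d _ => ?_)
    refine Rg.C_mul ?_ _
    intro s hs
    rw [coeff_homogeneousComponent] at hs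
    split_ifs at hs with h1
    · exact h s hs
    · exact absurd rfl hs
  · have h1 : ∀ i : Fin n, X i * MvPolynomial.pderiv i (∑ d ∈ Finset.range (p.totalDegree + 1),
        C (1 / (d : ℂ)) * homogeneousComponent d p) = ∑ d ∈ Finset.range (p.totalDegree + 1),
        C (1 / (d : ℂ)) * (X i * MvPolynomial.pderiv i (homogeneousComponent d p)) := by
      intro i
      rw [map_sum, Finset.mul_sum]
      refine Finset.sum_congr rfl fun d _ => ?_
      rw [pderiv_C_mul]
      ring
    rw [Finset.sum_congr rfl (fun i _ => h1 i), Finset.sum_comm]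
    conv_rhs => rw [← sum_homogeneousComponent p]
    refine Finset.sum_congr rfl fun d _ => ?_
    rw [← Finset.mul_sum, (homogeneousComponent_isHomogeneous d p).sum_X_mul_pderiv]
    by_cases hd : d = 0
    · have : homogeneousComponent d p = 0 := by
        apply homogeneousComponent_eq_zero'
        intro s hs
        have := (h s (mem_support_iff.1 hs)).1
        omega
      rw [this]; simp
    · rw [nsmul_eq_mul, ← mul_assoc]
      have h2 : (C (1 / (d : ℂ)) : MP n) * (d : MP n) = 1 := by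
        rw [← map_natCast (C : ℂ →+* MP n) d, ← C_mul]
        rw [one_div, inv_mul_cancel₀ (by exact_mod_cast hd), C_1]
      rw [h2, one_mul]

/-- derivative along lines -/
theorem line_deriv (p : MP n) (w τ : Fin n → ℂ) (ζ : ℂ) :
    HasDerivAt (fun ζ : ℂ => eval (fun j => w j + ζ * τ j) p)
      (∑ i, τ i * eval (fun j => w j + ζ * τ j) (MvPolynomial.pderiv i p)) ζ := by
  induction p using MvPolynomial.induction_on with
  | C a => simpa using hasDerivAt_const ζ a
  | add p q hp hq =>
    have h := hp.add hq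
    refine (h.congr_deriv ?_).congr_of_eventuallyEq (Filter.Eventually.of_forall fun x => ?_)
    · rw [← Finset.sum_add_distrib]
      refine Finset.sum_congr rfl fun i _ => ?_
      rw [map_add, map_add]
      ring
    · simp
  | mul_X p j hp =>
    have h1 : HasDerivAt (fun ζ : ℂ => w j + ζ * τ j) (τ j) ζ := by
      have := ((hasDerivAt_id ζ).mul_const (τ j)).const_add (w j)
      simpa using this
    have h := hp.mul h1
    refine (h.congr_deriv ?_).congr_of_eventuallyEq (Filter.Eventually.of_forall fun x => ?_)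
    · have h2 : ∀ i : Fin n, τ i * eval (fun j => w j + ζ * τ j) (MvPolynomial.pderiv i (p * X j)) =
          τ i * eval (fun j => w j + ζ * τ j) (MvPolynomial.pderiv i p) * (w j + ζ * τ j) +
          eval (fun j => w j + ζ * τ j) p * (τ i * (if i = j then 1 else 0)) := by
        intro i
        rw [pderiv_mul, map_add, map_mul, map_mul, eval_X, pderiv_X]
        by_cases hij : i = j
        · subst hij
          simp
          ring
        · rw [Pi.single_eq_of_ne (fun h => hij h.symm), if_neg hij]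
          simp
          ring
      rw [Finset.sum_congr rfl (fun i _ => h2 i), Finset.sum_add_distrib, ← Finset.sum_mul,
        ← Finset.mul_sum]
      simp
    · simp

theorem line_diff (p : MP n) (w τ : Fin n → ℂ) :
    Differentiable ℂ (fun ζ : ℂ => eval (fun j => w j + ζ * τ j) p) :=
  fun ζ => (line_deriv p w τ ζ).differentiableAt

/-- the Schwarz lemma -/
theorem schwarz {k l : ℕ} {p : MP n} (h : Rg k l p) {M : ℝ}
    (hB : ∀ z ∈ Bal n, ‖eval z p‖ ≤ M) {z : Fin n → ℂ} {r : ℝ} (hr0 : 0 < r) (hr1 : r < 1)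
    (hz : nsq z ≤ r ^ 2) : ‖eval z p‖ ≤ M * r ^ k := by
  -- the quotient
  set H : ℂ → ℂ := fun μ => ∑ s ∈ p.support, p.coeff s * (∏ i, z i ^ s i) * μ ^ (s.degree - k)
    with hH
  have hHd : Differentiable ℂ H := by
    rw [hH]
    fun_prop
  have hHe : ∀ μ : ℂ, eval (fun j => μ * z j) p = μ ^ k * H μ := by
    intro μ
    rw [MvPolynomial.eval_eq', hH, Finset.mul_sum]
    refine Finset.sum_congr rfl fun s hs => ?_
    have h1 : ∏ i, (μ * z i) ^ s i = μ ^ s.degree * ∏ i, z i ^ s i := by
      simp_rw [mul_pow]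
      rw [Finset.prod_mul_distrib, Finset.prod_pow_eq_pow_sum]
      congr 2
      exact (Finsupp.degree_eq_sum s).symm
    rw [h1]
    have h2 := (h s (mem_support_iff.1 hs)).1
    have h3 : μ ^ s.degree = μ ^ k * μ ^ (s.degree - k) := by
      rw [← pow_add]
      congr 1
      omega
    rw [h3]
    ring
  have key : ∀ ρ : ℝ, r < ρ → ρ < 1 → ‖eval z p‖ * ρ ^ k ≤ M * r ^ k := by
    intro ρ h1 h2
    have hρ : 0 < ρ := hr0.trans h1
    have hR : 1 < ρ / r := by rwa [lt_div_iff₀ hr0, one_mul]
    have hR0 : 0 < ρ / r := by linarith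
    have h3 : ‖H 1‖ ≤ M / (ρ / r) ^ k := by
      refine Complex.norm_le_of_forall_mem_frontier_norm_le (U := Metric.ball (0:ℂ) (ρ / r))
        Metric.isBounded_ball hHd.diffContOnCl ?_ ?_
      · intro μ hμ
        rw [frontier_ball _ hR0.ne', mem_sphere_zero_iff_norm] at hμ
        have h4 : ‖eval (fun j => μ * z j) p‖ ≤ M := by
          apply hB
          change nsq (fun j => μ * z j) < 1
          have h5 : nsq (fun j => μ * z j) = ‖μ‖ ^ 2 * nsq z := by
            unfold nsq
            rw [Finset.mul_sum]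
            refine Finset.sum_congr rfl fun j _ => ?_
            rw [norm_mul, mul_pow]
          rw [h5, hμ]
          have h6 : (ρ / r) ^ 2 * nsq z ≤ (ρ / r) ^ 2 * r ^ 2 := by gcongr
          have h7 : (ρ / r) ^ 2 * r ^ 2 = ρ ^ 2 := by
            field_simp
          nlinarith
        rw [hHe, norm_mul, norm_pow, hμ] at h4
        rw [le_div_iff₀ (by positivity)]
        linarith
      · rw [closure_ball _ hR0.ne', Metric.mem_closedBall, dist_zero_right, norm_one]
        exact hR.le
    have h8 : ‖eval z p‖ = ‖H 1‖ := by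
      have := hHe 1
      simp only [one_mul, one_pow] at this
      rw [← this]
    rw [h8]
    rw [div_pow, div_div_eq_mul_div, le_div_iff₀ (by positivity)] at h3
    exact h3
  -- let ρ → 1
  have hlim : Filter.Tendsto (fun ρ : ℝ => ‖eval z p‖ * ρ ^ k) (nhdsWithin 1 (Set.Iio 1))
      (nhds (‖eval z p‖ * 1 ^ k)) := by
    have : Continuous (fun ρ : ℝ => ‖eval z p‖ * ρ ^ k) := by fun_prop
    exact (this.tendsto 1).mono_left nhdsWithin_le_nhds
  rw [one_pow, mul_one] at hlim
  refine le_of_tendsto hlim ?_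
  filter_upwards [Ioo_mem_nhdsLT hr1] with ρ hρ
  exact key ρ hρ.1 hρ.2

/-- the tangential derivative -/
theorem tang {k l : ℕ} {p : MP n} (h : Rg k l p) {M : ℝ}
    (hB : ∀ z ∈ Bal n, ‖eval z p‖ ≤ M) {w τ : Fin n → ℂ} {s ϱ : ℝ} (hs : nsq w ≤ s ^ 2)
    (hτ : nsq τ ≤ 1) (hwτ : xx w τ = 0) (hϱ : 0 < ϱ) (h1 : s ^ 2 + ϱ ^ 2 < 1) :
    ‖∑ i, τ i * eval w (MvPolynomial.pderiv i p)‖ ≤ M * Real.sqrt (s ^ 2 + ϱ ^ 2) ^ k / ϱ := by
  have h2 := (line_deriv p w τ 0).deriv
  simp only [zero_mul, add_zero] at h2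
  rw [← h2]
  have hr0 : 0 < s ^ 2 + ϱ ^ 2 := by positivity
  refine Complex.norm_deriv_le_of_forall_mem_sphere_norm_le hϱ (line_diff p w τ).diffContOnCl ?_
  intro ζ hζ
  rw [mem_sphere_zero_iff_norm] at hζ
  refine schwarz h hB (Real.sqrt_pos.2 hr0) ?_ ?_
  · rw [Real.sqrt_lt' one_pos]
    linarith
  · rw [Real.sq_sqrt hr0.le, nsq_add w (fun j => ζ * τ j)]
    have h3 : xx w (fun j => ζ * τ j) = ζ * xx w τ := by
      unfold xx
      rw [Finset.mul_sum]
      refine Finset.sum_congr rfl fun j _ => ?_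
      ring
    have h4 : nsq (fun j => ζ * τ j) = ϱ ^ 2 * nsq τ := by
      unfold nsq
      rw [Finset.mul_sum]
      refine Finset.sum_congr rfl fun j _ => ?_
      rw [norm_mul, mul_pow, hζ]
    rw [h3, hwτ, mul_zero, Complex.zero_re, mul_zero, add_zero, h4]
    nlinarith [sq_nonneg ϱ]

end Pool.Agent.K9h23.Lac
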