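import Mathlib
import Pool.Agent.K9h23.Lac.Poly

/-!
`conj z_i p` is close to a polynomial if `p` is a polynomial with a zero of high order.
-/

set_option autoImplicit false

open Complex MvPolynomial Set

namespace Pool.Agent.K9h23.Lac

variable {n : ℕ}

theorem pderiv_comm (i j : Fin n) (p : MP n) :
    MvPolynomial.pderiv i (MvPolynomial.pderiv j p) =
      MvPolynomial.pderiv j (MvPolynomial.pderiv i p) := by
  by_cases hij : i = j
  · rw [hij]
  ext m
  rw [coeff_pderiv, coeff_pderiv, coeff_pderiv, coeff_pderiv]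
  have h1 : (m + Finsupp.single i 1 : Fin n →₀ ℕ) j = m j := by
    classical
    rw [Finsupp.add_apply, Finsupp.single_apply, if_neg hij, add_zero]
  have h2 : (m + Finsupp.single j 1 : Fin n →₀ ℕ) i = m i := by
    classical
    rw [Finsupp.add_apply, Finsupp.single_apply, if_neg (fun h => hij h.symm), add_zero]
  rw [h1, h2]
  have h3 : m + Finsupp.single i 1 + Finsupp.single j 1 =
      m + Finsupp.single j 1 + Finsupp.single i 1 := by
    rw [add_assoc, add_comm (Finsupp.single i 1), ← add_assoc]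
  rw [h3]
  ring

theorem nsq_ind (i : Fin n) : nsq (fun j => if j = i then (1:ℂ) else 0) = 1 := by
  unfold nsq
  have : ∀ j, ‖(if j = i then (1:ℂ) else 0)‖ ^ 2 = if j = i then (1:ℝ) else 0 := by
    intro j
    split_ifs <;> simp
  rw [Finset.sum_congr rfl (fun j _ => this j)]
  simp

theorem nsq_smul' (c : ℂ) (u : Fin n → ℂ) : nsq (fun j => c * u j) = ‖c‖ ^ 2 * nsq u := by
  unfold nsq
  rw [Finset.mul_sum]
  refine Finset.sum_congr rfl fun j _ => ?_
  rw [norm_mul, mul_pow]

theorem xx_smul' (w τ : Fin n → ℂ) (c : ℂ) :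
    xx (fun j => c * w j) τ = starRingEnd ℂ c * xx w τ := by
  unfold xx
  rw [Finset.mul_sum]
  refine Finset.sum_congr rfl fun j _ => ?_
  rw [map_mul]
  ring

/-- the derivative of `s ↦ s ∑ τ_j (∂_j P)(s z)` -/
theorem kap_deriv (P : MP n) (z τ : Fin n → ℂ) (ζ : ℂ) :
    HasDerivAt (fun ζ : ℂ => ζ * ∑ j, τ j * eval (fun i => ζ * z i) (MvPolynomial.pderiv j P))
      (∑ j, τ j * eval (fun i => ζ * z i)
        (MvPolynomial.pderiv j (∑ i, X i * MvPolynomial.pderiv i P))) ζ := by
  have h1 : ∀ j : Fin n, HasDerivAt (fun ζ : ℂ => τ j * eval (fun i => ζ * z i)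
      (MvPolynomial.pderiv j P)) (τ j * ∑ i, z i * eval (fun i => ζ * z i)
        (MvPolynomial.pderiv i (MvPolynomial.pderiv j P))) ζ := by
    intro j
    have h2 := line_deriv (MvPolynomial.pderiv j P) 0 z ζ
    simp only [Pi.zero_apply, zero_add] at h2
    exact h2.const_mul _
  have h3 := (hasDerivAt_id ζ).mul (HasDerivAt.fun_sum (u := Finset.univ) (fun j _ => h1 j))
  refine (h3.congr_deriv ?_).congr_of_eventuallyEq (Filter.Eventually.of_forall fun x => ?_)
  · simp only [id, one_mul]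
    rw [Finset.mul_sum, ← Finset.sum_add_distrib]
    refine Finset.sum_congr rfl fun j _ => ?_
    have h4 : MvPolynomial.pderiv j (∑ i, X i * MvPolynomial.pderiv i P) =
        MvPolynomial.pderiv j P + ∑ i, X i * MvPolynomial.pderiv i (MvPolynomial.pderiv j P) := by
      rw [map_sum]
      have h5 : ∀ i : Fin n, MvPolynomial.pderiv j (X i * MvPolynomial.pderiv i P) =
          (if i = j then MvPolynomial.pderiv i P else 0) +
          X i * MvPolynomial.pderiv i (MvPolynomial.pderiv j P) := by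
        intro i
        rw [pderiv_mul, pderiv_X, pderiv_comm j i]
        by_cases hij : i = j
        · subst hij; simp
        · rw [Pi.single_eq_of_ne hij, if_neg hij]; simp
      rw [Finset.sum_congr rfl (fun i _ => h5 i), Finset.sum_add_distrib]
      simp
    rw [h4, map_add, map_sum, mul_add]
    congr 1
    rw [Finset.mul_sum, Finset.mul_sum, Finset.mul_sum]
    refine Finset.sum_congr rfl fun i _ => ?_
    rw [map_mul, eval_X]
    ring
  · simp

/-- the tangential part is small -/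
theorem tang_small {k l : ℕ} {p P : MP n} (h : Rg k l p)
    (hP : ∑ i, X i * MvPolynomial.pderiv i P = p) {M : ℝ} (hM : 0 ≤ M)
    (hB : ∀ z ∈ Bal n, ‖eval z p‖ ≤ M) {z τ : Fin n → ℂ} (hz : nsq z < 1)
    (hτ : nsq τ ≤ 1) (hzτ : xx z τ = 0) {κ : ℝ} (hκ : 0 < κ) (hκ2 : κ ≤ 1 / 2) :
    ‖∑ j, τ j * eval z (MvPolynomial.pderiv j P)‖ ≤
      M * (Real.sqrt (1 - κ) ^ k / Real.sqrt (κ / 2) + 3 * Real.sqrt κ) := by
  set K : ℝ → ℂ := fun s => (s : ℂ) * ∑ j, τ j * eval (fun i => (s : ℂ) * z i)
    (MvPolynomial.pderiv j P) with hK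
  set K' : ℝ → ℂ := fun s => ∑ j, τ j * eval (fun i => (s : ℂ) * z i)
    (MvPolynomial.pderiv j p) with hK'
  have hd : ∀ s : ℝ, HasDerivAt K (K' s) s := by
    intro s
    have h1 := kap_deriv P z τ (s : ℂ)
    rw [hP] at h1
    exact h1.comp_ofReal
  have hc : Continuous K := continuous_iff_continuousAt.2 fun s => (hd s).continuousAt
  have hb : ∀ s : ℝ, 0 ≤ s → ∀ ϱ : ℝ, 0 < ϱ → s ^ 2 + ϱ ^ 2 < 1 →
      ‖K' s‖ ≤ M * Real.sqrt (s ^ 2 + ϱ ^ 2) ^ k / ϱ := by
    intro s hs ϱ hϱ h1
    refine tang h hB ?_ hτ ?_ hϱ h1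
    · rw [nsq_smul', Complex.norm_real, Real.norm_of_nonneg hs]
      nlinarith [sq_nonneg s]
    · rw [xx_smul', hzτ, mul_zero]
  have hκ1 : κ < 1 := by linarith
  have hsq : 0 < Real.sqrt (κ / 2) := Real.sqrt_pos.2 (by linarith)
  -- the first interval
  set C1 : ℝ := M * Real.sqrt (1 - κ) ^ k / Real.sqrt (κ / 2) with hC1
  have hC10 : 0 ≤ C1 := by positivity
  have first : ‖K (1 - κ)‖ ≤ C1 * (1 - κ) := by
    refine image_norm_le_of_norm_deriv_right_le_deriv_boundary' (a := 0) (b := 1 - κ)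
      (f := K) (f' := K') hc.continuousOn (fun s _ => (hd s).hasDerivWithinAt)
      (B := fun s => C1 * s) (B' := fun _ => C1) ?_ (by fun_prop) ?_ ?_ ⟨by linarith, le_rfl⟩
    · simp [hK]
    · intro s _
      have := (hasDerivAt_id s).const_mul C1
      simp only [mul_one] at this
      exact this.hasDerivWithinAt
    · intro s hs
      have h1 : Real.sqrt (κ / 2) ^ 2 = κ / 2 := Real.sq_sqrt (by linarith)
      have h2 : s ^ 2 ≤ (1 - κ) ^ 2 := pow_le_pow_left₀ hs.1 hs.2.le 2
      have h3 : s ^ 2 + Real.sqrt (κ / 2) ^ 2 ≤ 1 - κ := by rw [h1]; nlinarith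
      refine (hb s hs.1 _ hsq (by linarith)).trans ?_
      rw [hC1]
      gcongr
  have second : ‖K 1 - K (1 - κ)‖ ≤ M * (3 * Real.sqrt κ) := by
    have e1 : ‖K 1 - K (1 - κ)‖ ≤ M * (3 * (Real.sqrt κ - Real.sqrt (1 - 1))) := by
      refine image_norm_le_of_norm_deriv_right_le_deriv_boundary' (a := 1 - κ) (b := 1)
        (f := fun s => K s - K (1 - κ)) (f' := K') (hc.sub continuous_const).continuousOn
        (fun s _ => ((hd s).sub_const _).hasDerivWithinAt)
        (B := fun s => M * (3 * (Real.sqrt κ - Real.sqrt (1 - s))))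
        (B' := fun s => M * (3 * (1 / (2 * Real.sqrt (1 - s))))) ?_ ?_ ?_ ?_
        ⟨by linarith, le_rfl⟩
      · simp
      · fun_prop
      · intro s hs
        have h0 : 0 < 1 - s := by linarith [hs.2]
        have h1 : HasDerivAt (fun s : ℝ => 1 - s) (-1) s := by
          simpa using (hasDerivAt_id s).const_sub 1
        have h2 := ((h1.sqrt h0.ne').const_sub (Real.sqrt κ)).const_mul 3 |>.const_mul M
        refine (h2.congr_deriv ?_).hasDerivWithinAt
        ring
      · intro s hs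
        have h0 : 0 < 1 - s := by linarith [hs.2]
        have hs0 : 0 ≤ s := by linarith [hs.1]
        set ϱ := Real.sqrt ((1 - s) / 2) with hϱ
        have hϱ0 : 0 < ϱ := Real.sqrt_pos.2 (by linarith)
        have h1 : ϱ ^ 2 = (1 - s) / 2 := Real.sq_sqrt (by linarith)
        have h2 : s ^ 2 + ϱ ^ 2 < 1 := by rw [h1]; nlinarith
        refine (hb s hs0 ϱ hϱ0 h2).trans ?_
        have h3 : Real.sqrt (s ^ 2 + ϱ ^ 2) ^ k ≤ 1 := by
          apply pow_le_one₀ (Real.sqrt_nonneg _)
          rw [Real.sqrt_le_one]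
          exact h2.le
        have h4 : 0 < Real.sqrt (1 - s) := Real.sqrt_pos.2 h0
        have h5 : 1 / ϱ ≤ 3 * (1 / (2 * Real.sqrt (1 - s))) := by
          have h6 : 2 * Real.sqrt (1 - s) ≤ 3 * ϱ := by
            have h7 : (2 * Real.sqrt (1 - s)) ^ 2 ≤ (3 * ϱ) ^ 2 := by
              rw [mul_pow, mul_pow, Real.sq_sqrt h0.le, h1]
              nlinarith
            exact le_of_sq_le_sq h7 (by positivity)
          rw [mul_one_div, div_le_div_iff₀ hϱ0 (by positivity)]
          linarith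
        calc M * Real.sqrt (s ^ 2 + ϱ ^ 2) ^ k / ϱ ≤ M * 1 / ϱ := by gcongr
          _ = M * (1 / ϱ) := by ring
          _ ≤ _ := by gcongr
    simpa using e1
  have hK1 : K 1 = ∑ j, τ j * eval z (MvPolynomial.pderiv j P) := by
    simp [hK]
  rw [← hK1]
  calc ‖K 1‖ = ‖K (1 - κ) + (K 1 - K (1 - κ))‖ := by ring_nf
    _ ≤ ‖K (1 - κ)‖ + ‖K 1 - K (1 - κ)‖ := norm_add_le _ _
    _ ≤ C1 * (1 - κ) + M * (3 * Real.sqrt κ) := add_le_add first second
    _ ≤ C1 + M * (3 * Real.sqrt κ) := by nlinarith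
    _ = _ := by rw [hC1]; ring

/-- the approximation -/
theorem conj_bound {k l : ℕ} {p : MP n} (hk : 1 ≤ k) (h : Rg k l p) {M : ℝ} (hM : 0 ≤ M)
    (hB : ∀ z ∈ Bal n, ‖eval z p‖ ≤ M) (i : Fin n) {κ : ℝ} (hκ : 0 < κ) (hκ2 : κ ≤ 1 / 2) :
    ∃ q : MP n, Rg (k - 1) l q ∧ ∀ z ∈ Bal n, ‖eval z q - starRingEnd ℂ (z i) * eval z p‖ ≤
      M * (Real.sqrt (1 - κ) ^ k / Real.sqrt (κ / 2) + 3 * Real.sqrt κ + 2 / k) := by
  classical
  obtain ⟨P, hP1, hP2⟩ := euler_prim hk h
  refine ⟨MvPolynomial.pderiv i P, hP1.pderiv i, ?_⟩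
  intro z hz
  have hz1 : nsq z < 1 := hz
  have hk0 : (0:ℝ) < k := by exact_mod_cast hk
  set r : ℝ := Real.sqrt (nsq z) with hr
  have hr2 : r ^ 2 = nsq z := Real.sq_sqrt (nsq_nonneg _)
  have hr1 : r < 1 := by rw [hr, Real.sqrt_lt' one_pos]; linarith
  have hr0 : 0 ≤ r := Real.sqrt_nonneg _
  by_cases hzero : r = 0
  · -- z = 0
    have hz0 : z = 0 := by
      have h1 : nsq z = 0 := by rw [← hr2, hzero]; norm_num
      funext j
      have h2 : ‖z j‖ ^ 2 ≤ nsq z :=
        Finset.single_le_sum (f := fun j => ‖z j‖ ^ 2) (fun j _ => by positivity)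
          (Finset.mem_univ j)
      rw [h1] at h2
      have h3 : ‖z j‖ = 0 := by nlinarith [norm_nonneg (z j)]
      simpa using h3
    -- use the bound at z = 0 through small multiples of a basis vector
    have e1 : eval z p = 0 := by
      rw [hz0, MvPolynomial.eval_zero]
      change coeff 0 p = 0
      by_contra hcon
      have := (h 0 hcon).1
      simp at this
      omega
    have e2 : ‖eval z (MvPolynomial.pderiv i P)‖ ≤
        M * (Real.sqrt (1 - κ) ^ k / Real.sqrt (κ / 2) + 3 * Real.sqrt κ) := by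
      have h1 := tang_small h hP2 hM hB (z := z) (τ := fun j => if j = i then 1 else 0) hz1
        (nsq_ind i).le (by rw [hz0]; unfold xx; simp) hκ hκ2
      simpa using h1
    rw [e1, mul_zero, sub_zero]
    refine e2.trans ?_
    have : 0 ≤ 2 / (k:ℝ) := by positivity
    exact mul_le_mul_of_nonneg_left (by linarith) hM
  · have hrp : 0 < r := lt_of_le_of_ne hr0 (Ne.symm hzero)
    set c : ℂ := starRingEnd ℂ (z i) / (nsq z : ℂ) with hc
    have hn0 : (nsq z : ℂ) ≠ 0 := by
      have : nsq z ≠ 0 := by rw [← hr2]; positivity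
      exact_mod_cast this
    set τ : Fin n → ℂ := fun j => (if j = i then 1 else 0) - c * z j with hτ
    have hzz : ∑ j, starRingEnd ℂ (z j) * z j = (nsq z : ℂ) := by
      rw [nsq_c]
      refine Finset.sum_congr rfl fun j _ => ?_
      ring
    have hx : xx z τ = 0 := by
      unfold xx
      rw [hτ]
      have h1 : ∀ j, starRingEnd ℂ (z j) * ((if j = i then 1 else 0) - c * z j) =
          (if j = i then starRingEnd ℂ (z j) else 0) - c * (starRingEnd ℂ (z j) * z j) := by
        intro j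
        split_ifs <;> ring
      rw [Finset.sum_congr rfl (fun j _ => h1 j), Finset.sum_sub_distrib, ← Finset.mul_sum, hzz]
      rw [Finset.sum_ite_eq' Finset.univ i (fun j => starRingEnd ℂ (z j)),
        if_pos (Finset.mem_univ i), hc]
      field_simp
      ring
    have hτn : nsq τ ≤ 1 := by
      have h1 : nsq (fun j => (c * z j) + τ j) = 1 := by
        have : (fun j => (c * z j) + τ j) = fun j => if j = i then (1:ℂ) else 0 := by
          funext j
          rw [hτ]
          ring
        rw [this]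
        exact nsq_ind i
      rw [nsq_add, xx_smul', hx, mul_zero, Complex.zero_re, mul_zero, add_zero] at h1
      have := nsq_nonneg (fun j => c * z j)
      linarith
    have hT := tang_small h hP2 hM hB hz1 hτn hx hκ hκ2
    have hE : eval z p = ∑ j, z j * eval z (MvPolynomial.pderiv j P) := by
      rw [← hP2, map_sum]
      refine Finset.sum_congr rfl fun j _ => ?_
      rw [map_mul, eval_X]
    have hsplit : eval z (MvPolynomial.pderiv i P) - starRingEnd ℂ (z i) * eval z p =
        (∑ j, τ j * eval z (MvPolynomial.pderiv j P)) + (c - starRingEnd ℂ (z i)) * eval z p := by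
      have h1 : ∑ j, τ j * eval z (MvPolynomial.pderiv j P) =
          eval z (MvPolynomial.pderiv i P) - c * eval z p := by
        rw [hE, Finset.mul_sum]
        have h2 : ∀ j, τ j * eval z (MvPolynomial.pderiv j P) =
            (if j = i then eval z (MvPolynomial.pderiv j P) else 0) -
              c * (z j * eval z (MvPolynomial.pderiv j P)) := by
          intro j
          rw [hτ]
          simp only
          split_ifs <;> ring
        rw [Finset.sum_congr rfl (fun j _ => h2 j), Finset.sum_sub_distrib]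
        rw [Finset.sum_ite_eq' Finset.univ i (fun j => eval z (MvPolynomial.pderiv j P)),
          if_pos (Finset.mem_univ i)]
      rw [h1]
      ring
    rw [hsplit]
    refine (norm_add_le _ _).trans ?_
    have hS : ‖eval z p‖ ≤ M * r ^ k := schwarz h hB hrp hr1 hr2.ge
    have hzi : ‖z i‖ ≤ r := by
      have h2 : ‖z i‖ ^ 2 ≤ r ^ 2 := by
        rw [hr2]
        exact Finset.single_le_sum (f := fun j => ‖z j‖ ^ 2) (fun j _ => by positivity)
          (Finset.mem_univ i)
      exact le_of_sq_le_sq h2 hr0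
    have hc2 : ‖c - starRingEnd ℂ (z i)‖ * r ≤ 1 - r ^ 2 := by
      have h1 : c - starRingEnd ℂ (z i) = starRingEnd ℂ (z i) * (((1 - r ^ 2) / r ^ 2 : ℝ) : ℂ) := by
        rw [hc, ← hr2]
        have : ((r ^ 2 : ℝ) : ℂ) ≠ 0 := by rw [hr2]; exact hn0
        push_cast at this ⊢
        rw [mul_div_assoc', mul_sub, mul_one, sub_div, mul_div_cancel_right₀ _ this]
      rw [h1, norm_mul, RCLike.norm_conj, Complex.norm_real, Real.norm_of_nonneg (by
        apply div_nonneg
        · nlinarith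
        · positivity)]
      have h2 : 0 ≤ (1 - r ^ 2) / r ^ 2 := div_nonneg (by nlinarith) (by positivity)
      calc ‖z i‖ * ((1 - r ^ 2) / r ^ 2) * r ≤ r * ((1 - r ^ 2) / r ^ 2) * r := by gcongr
        _ = 1 - r ^ 2 := by field_simp
    have hgeo : (1 - r) * r ^ (k - 1) * k ≤ 1 := by
      have h1 : (1 - r) * ∑ j ∈ Finset.range k, r ^ j = 1 - r ^ k := by
        have := geom_sum_mul r k
        linear_combination (-1) * this
      have h2 : (k : ℝ) * r ^ (k - 1) ≤ ∑ j ∈ Finset.range k, r ^ j := by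
        have : ∑ _j ∈ Finset.range k, r ^ (k - 1) ≤ ∑ j ∈ Finset.range k, r ^ j := by
          refine Finset.sum_le_sum fun j hj => ?_
          exact pow_le_pow_of_le_one hr0 hr1.le (by have := Finset.mem_range.1 hj; omega)
        simpa using this
      have h3 : 0 ≤ r ^ k := by positivity
      have h4 : 0 ≤ 1 - r := by linarith
      nlinarith
    have hlast : ‖(c - starRingEnd ℂ (z i)) * eval z p‖ ≤ M * (2 / k) := by
      rw [norm_mul]
      have h1 : r ^ k = r * r ^ (k - 1) := by
        rw [← pow_succ']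
        congr 1
        omega
      calc ‖c - starRingEnd ℂ (z i)‖ * ‖eval z p‖ ≤
            ‖c - starRingEnd ℂ (z i)‖ * (M * r ^ k) := by gcongr
        _ = M * ((‖c - starRingEnd ℂ (z i)‖ * r) * r ^ (k - 1)) := by rw [h1]; ring
        _ ≤ M * ((1 - r ^ 2) * r ^ (k - 1)) := by gcongr
        _ ≤ M * (2 / k) := by
            have h2 : (1 - r ^ 2) * r ^ (k - 1) ≤ 2 / k := by
              rw [le_div_iff₀ hk0]
              have h3 : (1 - r ^ 2) * r ^ (k - 1) * k = (1 + r) * ((1 - r) * r ^ (k - 1) * k) := by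
                ring
              rw [h3]
              have h4 : 0 ≤ (1 - r) * r ^ (k - 1) * k := by
                have : 0 ≤ 1 - r := by linarith
                positivity
              nlinarith
            gcongr
    calc ‖∑ j, τ j * eval z (MvPolynomial.pderiv j P)‖ + ‖(c - starRingEnd ℂ (z i)) * eval z p‖ ≤
          M * (Real.sqrt (1 - κ) ^ k / Real.sqrt (κ / 2) + 3 * Real.sqrt κ) + M * (2 / k) :=
          add_le_add hT hlast
      _ = _ := by ring

/-- **Approximation of `conj z_i p`.** -/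
theorem conj_approx {η : ℝ} (hη : 0 < η) : ∃ k0 : ℕ, 1 ≤ k0 ∧ ∀ k, k0 ≤ k → ∀ (l : ℕ) (p : MP n),
    Rg k l p → ∀ M : ℝ, 0 ≤ M → (∀ z ∈ Bal n, ‖eval z p‖ ≤ M) → ∀ i : Fin n,
    ∃ q : MP n, Rg (k - 1) l q ∧
      ∀ z ∈ Bal n, ‖eval z q - starRingEnd ℂ (z i) * eval z p‖ ≤ M * η := by
  set κ : ℝ := min (1 / 2) ((η / 9) ^ 2) with hκ
  have hκ0 : 0 < κ := lt_min (by norm_num) (by positivity)
  have hκ2 : κ ≤ 1 / 2 := min_le_left _ _
  have h1 : 3 * Real.sqrt κ ≤ η / 3 := by
    have : Real.sqrt κ ≤ η / 9 := by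
      rw [Real.sqrt_le_left (by positivity)]
      exact min_le_right _ _
    linarith
  have h2 : Filter.Tendsto (fun k : ℕ => Real.sqrt (1 - κ) ^ k / Real.sqrt (κ / 2)) Filter.atTop
      (nhds (0 / Real.sqrt (κ / 2))) := by
    refine (tendsto_pow_atTop_nhds_zero_of_lt_one (Real.sqrt_nonneg _) ?_).div_const _
    rw [Real.sqrt_lt' one_pos]
    linarith
  rw [zero_div] at h2
  have h3 : Filter.Tendsto (fun k : ℕ => (2:ℝ) / k) Filter.atTop (nhds 0) :=
    tendsto_const_div_atTop_nhds_zero_nat 2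
  obtain ⟨k1, hk1⟩ := Filter.eventually_atTop.1 (h2.eventually_lt_const (show (0:ℝ) < η / 3 by positivity))
  obtain ⟨k2, hk2⟩ := Filter.eventually_atTop.1 (h3.eventually_lt_const (show (0:ℝ) < η / 3 by positivity))
  refine ⟨max 1 (max k1 k2), le_max_left _ _, ?_⟩
  intro k hk l p hp M hM hB i
  have hk' : 1 ≤ k := (le_max_left _ _).trans hk
  obtain ⟨q, hq1, hq2⟩ := conj_bound hk' hp hM hB i hκ0 hκ2
  refine ⟨q, hq1, fun z hz => (hq2 z hz).trans ?_⟩
  have h4 := hk1 k (((le_max_left _ _).trans (le_max_right _ _)).trans hk)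
  have h5 := hk2 k (((le_max_right _ _).trans (le_max_right _ _)).trans hk)
  gcongr
  linarith

end Pool.Agent.K9h23.Lac
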