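import Mathlib
import Pool.Agent.K9h23.Lac.Conj
import Pool.Agent.K9h23.Lac.Stp

/-!
Families of functions which are approximated by polynomials with a zero of high order, and their
multipliers.
-/

set_option autoImplicit false

open Complex MvPolynomial Set

namespace Pool.Agent.K9h23.Lac

variable {n N : ℕ}

/-- the data of one step -/
structure Dt (n N : ℕ) where
  f : Fin N → MP n
  h : Fin N → MP n
  q : Fin N → MP n

/-- evaluation -/
noncomputable def ev (p : Fin N → MP n) (z : Fin n → ℂ) : Fin N → ℂ := fun j => eval z (p j)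

/-- polynomials of size at most `D` -/
def Sz (D : ℕ) (p : Fin N → MP n) : Prop := ∀ j, Rg 0 D (p j) ∧ ∀ s, ‖(p j).coeff s‖ ≤ D

/-- the admissible data -/
structure AdD (A : ℝ) (D : ℕ) (d : Dt n N) : Prop where
  sf : Sz D d.f
  sh : Sz D d.h
  ad : ∀ z ∈ Bal n, Adm A (ev d.f z) (ev d.q z)
  bz : ∀ z ∈ Bal n, ‖bd (ev d.f z) (ev d.h z) - 1‖ ≤ 1 / 8

/-- families of functions -/
abbrev Fy (n N : ℕ) := Dt n N → (Fin n → ℂ) → ℂ

def Bdd (A : ℝ) (D : ℕ) (u : Fy n N) (M : ℝ) : Prop := ∀ d, AdD A D d → ∀ z ∈ Bal n, ‖u d z‖ ≤ M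

/-- families approximated by polynomials with a zero of high order -/
def JJ (A : ℝ) (D : ℕ) (u : Fy n N) : Prop :=
  (∃ M, Bdd A D u M) ∧ ∀ η : ℝ, 0 < η → ∀ k' : ℕ, ∃ k0 : ℕ, ∀ l : ℕ, ∃ D' : ℕ, ∀ d, AdD A D d →
    (∀ j, Rg k0 l (d.q j)) → ∃ p : MP n, Rg k' D' p ∧ ∀ z ∈ Bal n, ‖u d z - eval z p‖ ≤ η

/-- multipliers -/
def MM (A : ℝ) (D : ℕ) (φ : Fy n N) : Prop :=
  (∃ M, Bdd A D φ M) ∧ ∀ u, JJ A D u → JJ A D (fun d z => φ d z * u d z)

variable {A : ℝ} {D : ℕ}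

theorem rg_high {k0 k0' l : ℕ} {d : Dt n N} (h : ∀ j, Rg k0 l (d.q j)) (hk : k0' ≤ k0) :
    ∀ j, Rg k0' l (d.q j) := fun j => (h j).mono hk le_rfl

theorem JJ.add {u v : Fy n N} (hu : JJ A D u) (hv : JJ A D v) :
    JJ A D (fun d z => u d z + v d z) := by
  obtain ⟨⟨M, hM⟩, hu2⟩ := hu
  obtain ⟨⟨M', hM'⟩, hv2⟩ := hv
  refine ⟨⟨M + M', fun d hd z hz => (norm_add_le _ _).trans (add_le_add (hM d hd z hz)
    (hM' d hd z hz))⟩, fun η hη k' => ?_⟩
  obtain ⟨k1, hk1⟩ := hu2 (η / 2) (by positivity) k'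
  obtain ⟨k2, hk2⟩ := hv2 (η / 2) (by positivity) k'
  refine ⟨max k1 k2, fun l => ?_⟩
  obtain ⟨D1, hD1⟩ := hk1 l
  obtain ⟨D2, hD2⟩ := hk2 l
  refine ⟨max D1 D2, fun d hd hq => ?_⟩
  obtain ⟨p1, hp1, hp1'⟩ := hD1 d hd (rg_high hq (le_max_left _ _))
  obtain ⟨p2, hp2, hp2'⟩ := hD2 d hd (rg_high hq (le_max_right _ _))
  refine ⟨p1 + p2, (hp1.mono le_rfl (le_max_left _ _)).add (hp2.mono le_rfl (le_max_right _ _)),
    fun z hz => ?_⟩
  rw [map_add]
  calc ‖u d z + v d z - (eval z p1 + eval z p2)‖ = ‖(u d z - eval z p1) + (v d z - eval z p2)‖ := by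
        ring_nf
    _ ≤ η / 2 + η / 2 := (norm_add_le _ _).trans (add_le_add (hp1' z hz) (hp2' z hz))
    _ = η := by ring

theorem JJ.mul {u v : Fy n N} (hu : JJ A D u) (hv : JJ A D v) :
    JJ A D (fun d z => u d z * v d z) := by
  obtain ⟨⟨M, hM⟩, hu2⟩ := hu
  obtain ⟨⟨M', hM'⟩, hv2⟩ := hv
  refine ⟨⟨|M| * |M'|, fun d hd z hz => ?_⟩, fun η hη k' => ?_⟩
  · rw [norm_mul]
    exact mul_le_mul ((hM d hd z hz).trans (le_abs_self _)) ((hM' d hd z hz).trans (le_abs_self _))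
      (norm_nonneg _) (abs_nonneg _)
  set K : ℝ := |M| + |M'| + 1 with hK
  have hK0 : 1 ≤ K := by have := abs_nonneg M; have := abs_nonneg M'; linarith
  have hη1 : 0 < min 1 (η / (2 * K)) := lt_min one_pos (by positivity)
  obtain ⟨k1, hk1⟩ := hu2 (min 1 (η / (2 * K))) hη1 k'
  obtain ⟨k2, hk2⟩ := hv2 (min 1 (η / (2 * K))) hη1 0
  refine ⟨max k1 k2, fun l => ?_⟩
  obtain ⟨D1, hD1⟩ := hk1 l
  obtain ⟨D2, hD2⟩ := hk2 l
  refine ⟨D1 + D2, fun d hd hq => ?_⟩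
  obtain ⟨p1, hp1, hp1'⟩ := hD1 d hd (rg_high hq (le_max_left _ _))
  obtain ⟨p2, hp2, hp2'⟩ := hD2 d hd (rg_high hq (le_max_right _ _))
  refine ⟨p1 * p2, hp1.mul hp2, fun z hz => ?_⟩
  rw [map_mul]
  have e1 : u d z * v d z - eval z p1 * eval z p2 =
      (u d z - eval z p1) * v d z + eval z p1 * (v d z - eval z p2) := by ring
  have b1 := hp1' z hz
  have b2 := hp2' z hz
  have b3 : ‖v d z‖ ≤ K := (hM' d hd z hz).trans (by
    have := abs_nonneg M; have := le_abs_self M'; linarith)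
  have b4 : ‖eval z p1‖ ≤ K := by
    have : ‖eval z p1‖ ≤ ‖u d z‖ + ‖u d z - eval z p1‖ := by
      calc ‖eval z p1‖ = ‖u d z - (u d z - eval z p1)‖ := by ring_nf
        _ ≤ _ := norm_sub_le _ _
    have h1 := hM d hd z hz
    have h2 := le_abs_self M
    have h3 := abs_nonneg M'
    have h4 := b1.trans (min_le_left _ _)
    linarith
  rw [e1]
  refine (norm_add_le _ _).trans ?_
  rw [norm_mul, norm_mul]
  calc ‖u d z - eval z p1‖ * ‖v d z‖ + ‖eval z p1‖ * ‖v d z - eval z p2‖ ≤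
        (η / (2 * K)) * K + K * (η / (2 * K)) :=
        add_le_add (mul_le_mul (b1.trans (min_le_right _ _)) b3 (norm_nonneg _) (by positivity))
          (mul_le_mul b4 (b2.trans (min_le_right _ _)) (norm_nonneg _) (by positivity))
    _ = η := by field_simp; ring

theorem JJ.lim {u : Fy n N} (hb : ∃ M, Bdd A D u M)
    (h : ∀ η : ℝ, 0 < η → ∃ v, JJ A D v ∧ Bdd A D (fun d z => u d z - v d z) η) : JJ A D u := by
  refine ⟨hb, fun η hη k' => ?_⟩
  obtain ⟨v, hv, hv2⟩ := h (η / 2) (by positivity)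
  obtain ⟨k1, hk1⟩ := hv.2 (η / 2) (by positivity) k'
  refine ⟨k1, fun l => ?_⟩
  obtain ⟨D1, hD1⟩ := hk1 l
  refine ⟨D1, fun d hd hq => ?_⟩
  obtain ⟨p, hp, hp'⟩ := hD1 d hd hq
  refine ⟨p, hp, fun z hz => ?_⟩
  calc ‖u d z - eval z p‖ = ‖(u d z - v d z) + (v d z - eval z p)‖ := by ring_nf
    _ ≤ η / 2 + η / 2 := (norm_add_le _ _).trans (add_le_add (hv2 d hd z hz) (hp' z hz))
    _ = η := by ring

theorem JJ.congr {u v : Fy n N} (hu : JJ A D u) (h : ∀ d, AdD A D d → ∀ z ∈ Bal n, v d z = u d z) :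
    JJ A D v := by
  obtain ⟨M, hM⟩ := hu.1
  refine JJ.lim ⟨M, fun d hd z hz => by rw [h d hd z hz]; exact hM d hd z hz⟩ fun η hη =>
    ⟨u, hu, fun d hd z hz => ?_⟩
  simp only [h d hd z hz, sub_self, norm_zero]
  exact hη.le

theorem MM.const (κ : Dt n N → ℂ) (hκ : ∃ M, ∀ d, AdD A D d → ‖κ d‖ ≤ M) :
    MM A D (fun d _ => κ d) := by
  obtain ⟨M, hM⟩ := hκ
  refine ⟨⟨M, fun d hd z _ => hM d hd⟩, fun u hu => ?_⟩
  obtain ⟨⟨M', hM'⟩, hu2⟩ := hu
  refine ⟨⟨|M| * |M'|, fun d hd z hz => ?_⟩, fun η hη k' => ?_⟩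
  · rw [norm_mul]
    exact mul_le_mul ((hM d hd).trans (le_abs_self _)) ((hM' d hd z hz).trans (le_abs_self _))
      (norm_nonneg _) (abs_nonneg _)
  obtain ⟨k1, hk1⟩ := hu2 (η / (|M| + 1)) (by positivity) k'
  refine ⟨k1, fun l => ?_⟩
  obtain ⟨D1, hD1⟩ := hk1 l
  refine ⟨D1, fun d hd hq => ?_⟩
  obtain ⟨p, hp, hp'⟩ := hD1 d hd hq
  refine ⟨C (κ d) * p, hp.C_mul _, fun z hz => ?_⟩
  rw [map_mul, eval_C, ← mul_sub, norm_mul]
  have h1 : ‖κ d‖ ≤ |M| + 1 := (hM d hd).trans (by linarith [le_abs_self M])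
  calc ‖κ d‖ * ‖u d z - eval z p‖ ≤ (|M| + 1) * (η / (|M| + 1)) :=
        mul_le_mul h1 (hp' z hz) (norm_nonneg _) (by positivity)
    _ = η := by field_simp

theorem MM.add {φ ψ : Fy n N} (h1 : MM A D φ) (h2 : MM A D ψ) :
    MM A D (fun d z => φ d z + ψ d z) := by
  obtain ⟨⟨M, hM⟩, h1'⟩ := h1
  obtain ⟨⟨M', hM'⟩, h2'⟩ := h2
  refine ⟨⟨M + M', fun d hd z hz => (norm_add_le _ _).trans (add_le_add (hM d hd z hz)
    (hM' d hd z hz))⟩, fun u hu => ?_⟩
  refine ((h1' u hu).add (h2' u hu)).congr fun d _ z _ => ?_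
  ring

theorem MM.mul {φ ψ : Fy n N} (h1 : MM A D φ) (h2 : MM A D ψ) :
    MM A D (fun d z => φ d z * ψ d z) := by
  obtain ⟨⟨M, hM⟩, h1'⟩ := h1
  obtain ⟨⟨M', hM'⟩, h2'⟩ := h2
  refine ⟨⟨|M| * |M'|, fun d hd z hz => ?_⟩, fun u hu => ?_⟩
  · rw [norm_mul]
    exact mul_le_mul ((hM d hd z hz).trans (le_abs_self _)) ((hM' d hd z hz).trans (le_abs_self _))
      (norm_nonneg _) (abs_nonneg _)
  refine (h1' _ (h2' u hu)).congr fun d _ z _ => ?_
  ring

theorem MM.lim {φ : Fy n N} (hb : ∃ M, Bdd A D φ M)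
    (h : ∀ η : ℝ, 0 < η → ∃ ψ, MM A D ψ ∧ Bdd A D (fun d z => φ d z - ψ d z) η) : MM A D φ := by
  refine ⟨hb, fun u hu => ?_⟩
  obtain ⟨M, hM⟩ := hb
  obtain ⟨M', hM'⟩ := hu.1
  refine JJ.lim ⟨|M| * |M'|, fun d hd z hz => ?_⟩ fun η hη => ?_
  · rw [norm_mul]
    exact mul_le_mul ((hM d hd z hz).trans (le_abs_self _)) ((hM' d hd z hz).trans (le_abs_self _))
      (norm_nonneg _) (abs_nonneg _)
  obtain ⟨ψ, hψ, hψ2⟩ := h (η / (|M'| + 1)) (by positivity)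
  refine ⟨_, hψ.2 u hu, fun d hd z hz => ?_⟩
  beta_reduce
  rw [← sub_mul, norm_mul]
  have h1 : ‖u d z‖ ≤ |M'| + 1 := (hM' d hd z hz).trans (by linarith [le_abs_self M'])
  calc ‖φ d z - ψ d z‖ * ‖u d z‖ ≤ (η / (|M'| + 1)) * (|M'| + 1) :=
        mul_le_mul (hψ2 d hd z hz) h1 (norm_nonneg _) (by positivity)
    _ = η := by field_simp

theorem MM.congr {u v : Fy n N} (hu : MM A D u) (h : ∀ d, AdD A D d → ∀ z ∈ Bal n, v d z = u d z) :
    MM A D v := by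
  obtain ⟨M, hM⟩ := hu.1
  refine MM.lim ⟨M, fun d hd z hz => by rw [h d hd z hz]; exact hM d hd z hz⟩ fun η hη =>
    ⟨u, hu, fun d hd z hz => ?_⟩
  simp only [h d hd z hz, sub_self, norm_zero]
  exact hη.le

theorem MM.sum {ι : Type*} (T : Finset ι) (φ : ι → Fy n N) (h : ∀ i ∈ T, MM A D (φ i)) :
    MM A D (fun d z => ∑ i ∈ T, φ i d z) := by
  classical
  induction T using Finset.induction_on with
  | empty =>
    simp only [Finset.sum_empty]
    exact MM.const (fun _ => 0) ⟨0, fun _ _ => by simp⟩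
  | insert i T hi ih =>
    simp only [Finset.sum_insert hi]
    exact (h i (Finset.mem_insert_self _ _)).add
      (ih fun j hj => h j (Finset.mem_insert_of_mem hj))

theorem MM.prod {ι : Type*} (T : Finset ι) (φ : ι → Fy n N) (h : ∀ i ∈ T, MM A D (φ i)) :
    MM A D (fun d z => ∏ i ∈ T, φ i d z) := by
  classical
  induction T using Finset.induction_on with
  | empty =>
    simp only [Finset.prod_empty]
    exact MM.const (fun _ => 1) ⟨1, fun _ _ => by simp⟩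
  | insert i T hi ih =>
    simp only [Finset.prod_insert hi]
    exact (h i (Finset.mem_insert_self _ _)).mul
      (ih fun j hj => h j (Finset.mem_insert_of_mem hj))

theorem MM.pow {φ : Fy n N} (h : MM A D φ) (m : ℕ) : MM A D (fun d z => φ d z ^ m) := by
  induction m with
  | zero =>
    simp only [pow_zero]
    exact MM.const (fun _ => 1) ⟨1, fun _ _ => by simp⟩
  | succ m ih =>
    simp only [pow_succ]
    exact ih.mul h

theorem z_le {z : Fin n → ℂ} (hz : z ∈ Bal n) (i : Fin n) : ‖z i‖ ≤ 1 := by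
  have h1 : nsq z < 1 := hz
  have h2 : ‖z i‖ ^ 2 ≤ nsq z :=
    Finset.single_le_sum (f := fun j => ‖z j‖ ^ 2) (fun j _ => by positivity) (Finset.mem_univ i)
  have h3 : ‖z i‖ ^ 2 ≤ 1 ^ 2 := by linarith
  exact le_of_sq_le_sq h3 (by norm_num)

/-- multiplication by `conj z_i` -/
theorem MM.conjz (i : Fin n) : MM A D (fun (_ : Dt n N) z => starRingEnd ℂ (z i)) := by
  refine ⟨⟨1, fun d _ z hz => by simpa using z_le hz i⟩, fun u hu => ?_⟩
  obtain ⟨⟨M, hM⟩, hu2⟩ := hu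
  refine ⟨⟨|M|, fun d hd z hz => ?_⟩, fun η hη k' => ?_⟩
  · rw [norm_mul, RCLike.norm_conj]
    calc ‖z i‖ * ‖u d z‖ ≤ 1 * |M| := mul_le_mul (z_le hz i)
          ((hM d hd z hz).trans (le_abs_self _)) (norm_nonneg _) zero_le_one
      _ = |M| := one_mul _
  obtain ⟨k0, hk01, hk0⟩ := conj_approx (n := n) (η := η / (2 * (|M| + 1))) (by positivity)
  have hη1 : 0 < min 1 (η / 2) := lt_min one_pos (by positivity)
  obtain ⟨k1, hk1⟩ := hu2 (min 1 (η / 2)) hη1 (max k0 (k' + 1))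
  refine ⟨k1, fun l => ?_⟩
  obtain ⟨D1, hD1⟩ := hk1 l
  refine ⟨D1, fun d hd hq => ?_⟩
  obtain ⟨p, hp, hp'⟩ := hD1 d hd hq
  have hpb : ∀ z ∈ Bal n, ‖eval z p‖ ≤ |M| + 1 := by
    intro z hz
    have : ‖eval z p‖ ≤ ‖u d z‖ + ‖u d z - eval z p‖ := by
      calc ‖eval z p‖ = ‖u d z - (u d z - eval z p)‖ := by ring_nf
        _ ≤ _ := norm_sub_le _ _
    have h1 := hM d hd z hz
    have h2 := le_abs_self M
    have h3 := (hp' z hz).trans (min_le_left _ _)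
    linarith
  obtain ⟨q, hq1, hq2⟩ := hk0 _ (le_max_left _ _) D1 p hp (|M| + 1) (by positivity) hpb i
  refine ⟨q, hq1.mono ?_ le_rfl, fun z hz => ?_⟩
  · have := le_max_right k0 (k' + 1)
    omega
  · have e1 : starRingEnd ℂ (z i) * u d z - eval z q =
        starRingEnd ℂ (z i) * (u d z - eval z p) - (eval z q - starRingEnd ℂ (z i) * eval z p) := by
      ring
    rw [e1]
    refine (norm_sub_le _ _).trans ?_
    have b1 := hq2 z hz
    have b2 : ‖starRingEnd ℂ (z i) * (u d z - eval z p)‖ ≤ η / 2 := by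
      rw [norm_mul, RCLike.norm_conj]
      calc ‖z i‖ * ‖u d z - eval z p‖ ≤ 1 * (η / 2) := mul_le_mul (z_le hz i)
            ((hp' z hz).trans (min_le_right _ _)) (norm_nonneg _) zero_le_one
        _ = η / 2 := one_mul _
    have b3 : (|M| + 1) * (η / (2 * (|M| + 1))) = η / 2 := by field_simp
    rw [b3] at b1
    linarith

/-- the exponents of degree at most `D` -/
noncomputable def FD (n D : ℕ) : Finset (Fin n →₀ ℕ) := (Finsupp.finite_of_degree_le D).toFinset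

theorem mem_FD {s : Fin n →₀ ℕ} : s ∈ FD n D ↔ s.degree ≤ D := by
  unfold FD
  simp

theorem eval_FD {p : MP n} (h : Rg 0 D p) (z : Fin n → ℂ) :
    eval z p = ∑ s ∈ FD n D, p.coeff s * ∏ i, z i ^ s i := by
  rw [MvPolynomial.eval_eq']
  refine Finset.sum_subset (fun s hs => mem_FD.2 (h s (mem_support_iff.1 hs)).2)
    (fun s _ hs => ?_)
  rw [notMem_support_iff.1 hs, zero_mul]

theorem mono_le {z : Fin n → ℂ} (hz : z ∈ Bal n) (s : Fin n →₀ ℕ) : ‖∏ i, z i ^ s i‖ ≤ 1 := by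
  rw [norm_prod]
  refine Finset.prod_le_one (fun _ _ => norm_nonneg _) fun i _ => ?_
  rw [norm_pow]
  exact pow_le_one₀ (norm_nonneg _) (z_le hz i)

theorem Sz.bd {p : Fin N → MP n} (h : Sz D p) {z : Fin n → ℂ} (hz : z ∈ Bal n) (j : Fin N) :
    ‖eval z (p j)‖ ≤ (FD n D).card * D := by
  rw [eval_FD (h j).1]
  refine (norm_sum_le _ _).trans ?_
  have : ∀ s ∈ FD n D, ‖(p j).coeff s * ∏ i, z i ^ s i‖ ≤ D := by
    intro s _
    rw [norm_mul]
    calc ‖(p j).coeff s‖ * ‖∏ i, z i ^ s i‖ ≤ D * 1 :=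
          mul_le_mul ((h j).2 s) (mono_le hz s) (norm_nonneg _) (by positivity)
      _ = D := mul_one _
  refine (Finset.sum_le_card_nsmul _ _ _ this).trans ?_
  rw [nsmul_eq_mul]

/-- multiplication by polynomials of bounded size -/
theorem MM.pol (P : Dt n N → MP n) (hP : ∀ d, AdD A D d → Rg 0 D (P d) ∧ ∀ s, ‖(P d).coeff s‖ ≤ D) :
    MM A D (fun d z => eval z (P d)) := by
  have hb : ∀ d, AdD A D d → ∀ z ∈ Bal n, ‖eval z (P d)‖ ≤ (FD n D).card * D := by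
    intro d hd z hz
    exact Sz.bd (N := 1) (p := fun _ => P d) (fun _ => hP d hd) hz 0
  refine ⟨⟨_, hb⟩, fun u hu => ?_⟩
  obtain ⟨⟨M, hM⟩, hu2⟩ := hu
  set K : ℝ := (FD n D).card * D + 1 with hK
  have hK0 : 0 < K := by positivity
  refine ⟨⟨K * |M|, fun d hd z hz => ?_⟩, fun η hη k' => ?_⟩
  · rw [norm_mul]
    exact mul_le_mul ((hb d hd z hz).trans (by rw [hK]; linarith))
      ((hM d hd z hz).trans (le_abs_self _)) (norm_nonneg _) hK0.le
  obtain ⟨k1, hk1⟩ := hu2 (η / K) (by positivity) k'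
  refine ⟨k1, fun l => ?_⟩
  obtain ⟨D1, hD1⟩ := hk1 l
  refine ⟨D + D1, fun d hd hq => ?_⟩
  obtain ⟨p, hp, hp'⟩ := hD1 d hd hq
  refine ⟨P d * p, ((hP d hd).1.mul hp).mono (by omega) le_rfl, fun z hz => ?_⟩
  rw [map_mul, ← mul_sub, norm_mul]
  calc ‖eval z (P d)‖ * ‖u d z - eval z p‖ ≤ K * (η / K) :=
        mul_le_mul ((hb d hd z hz).trans (by rw [hK]; linarith)) (hp' z hz) (norm_nonneg _) hK0.le
    _ = η := by field_simp

/-- multiplication by conjugates of polynomials of bounded size -/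
theorem MM.cpol (P : Dt n N → MP n) (hP : ∀ d, AdD A D d → Rg 0 D (P d) ∧ ∀ s, ‖(P d).coeff s‖ ≤ D) :
    MM A D (fun d z => starRingEnd ℂ (eval z (P d))) := by
  have h1 : MM A D (fun (d : Dt n N) z => ∑ s ∈ FD n D, starRingEnd ℂ ((P d).coeff s) *
      ∏ i, starRingEnd ℂ (z i) ^ s i) := by
    refine MM.sum _ (fun s (d : Dt n N) z => starRingEnd ℂ ((P d).coeff s) *
      ∏ i, starRingEnd ℂ (z i) ^ s i) fun s _ => ?_
    refine MM.mul (MM.const (fun d => starRingEnd ℂ ((P d).coeff s)) ⟨D, fun d hd => ?_⟩) ?_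
    · rw [RCLike.norm_conj]
      exact (hP d hd).2 s
    · exact MM.prod _ (fun i (_ : Dt n N) z => starRingEnd ℂ (z i) ^ s i)
        fun i _ => (MM.conjz i).pow (s i)
  refine h1.congr fun d hd z _ => ?_
  rw [eval_FD (hP d hd).1, map_sum]
  refine Finset.sum_congr rfl fun s _ => ?_
  rw [map_mul, map_prod]
  congr 1
  refine Finset.prod_congr rfl fun i _ => ?_
  rw [map_pow]

/-- the components of `q` -/
theorem JJ.q (hA : 1 ≤ A) (j : Fin N) : JJ A D (fun (d : Dt n N) z => eval z (d.q j)) := by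
  refine ⟨⟨1, fun d hd z hz => ?_⟩, fun η hη k' => ⟨k', fun l => ⟨l, fun d _ hq =>
    ⟨d.q j, hq j, fun z _ => by simp [hη.le]⟩⟩⟩⟩
  have h1 := (hd.ad z hz).hv
  have h2 : ‖eval z (d.q j)‖ ^ 2 ≤ nsq (ev d.q z) :=
    Finset.single_le_sum (f := fun j => ‖ev d.q z j‖ ^ 2) (fun j _ => by positivity)
      (Finset.mem_univ j)
  have h3 : nsq (ev d.q z) ≤ nsq (ev d.q z) * (100 * A ^ 2) ^ 2 := by
    have : 1 ≤ (100 * A ^ 2) ^ 2 := by
      apply one_le_pow₀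
      nlinarith
    nlinarith [nsq_nonneg (ev d.q z)]
  have h4 : ‖eval z (d.q j)‖ ^ 2 ≤ 1 ^ 2 := by linarith
  exact le_of_sq_le_sq h4 (by norm_num)

theorem JJ.zero : JJ A D (fun (_ : Dt n N) _ => 0) :=
  ⟨⟨0, fun _ _ _ _ => by simp⟩, fun η hη k' => ⟨0, fun _ => ⟨0, fun _ _ _ =>
    ⟨0, Rg.zero, fun z _ => by simp [hη.le]⟩⟩⟩⟩

theorem JJ.sum {ι : Type*} (T : Finset ι) (φ : ι → Fy n N) (h : ∀ i ∈ T, JJ A D (φ i)) :
    JJ A D (fun d z => ∑ i ∈ T, φ i d z) := by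
  classical
  induction T using Finset.induction_on with
  | empty =>
    simp only [Finset.sum_empty]
    exact JJ.zero
  | insert i T hi ih =>
    simp only [Finset.sum_insert hi]
    exact (h i (Finset.mem_insert_self _ _)).add
      (ih fun j hj => h j (Finset.mem_insert_of_mem hj))

theorem MM.cst (c : ℂ) : MM A D (fun (_ : Dt n N) _ => c) :=
  MM.const (fun _ => c) ⟨‖c‖, fun _ _ => le_rfl⟩

/-- the geometric series -/
theorem JJ.geo {u w : Fy n N} (hu : JJ A D u) (hw : JJ A D w) (hw2 : Bdd A D w (1 / 2)) :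
    JJ A D (fun d z => u d z * (1 / (1 - w d z))) := by
  obtain ⟨M, hM⟩ := hu.1
  have hinv : ∀ d, AdD A D d → ∀ z ∈ Bal n, 1 / 2 ≤ ‖1 - w d z‖ := by
    intro d hd z hz
    have h1 := norm_sub_norm_le (1:ℂ) (w d z)
    rw [norm_one] at h1
    have h2 : ‖w d z‖ ≤ 1 / 2 := hw2 d hd z hz
    linarith
  have hgeo : ∀ P : ℕ, JJ A D (fun d z => u d z * ∑ j ∈ Finset.range P, w d z ^ j) := by
    intro P
    induction P with
    | zero =>
      simp only [Finset.range_zero, Finset.sum_empty, mul_zero]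
      exact JJ.zero
    | succ P ih =>
      have h1 : JJ A D (fun d z => u d z + w d z * (u d z * ∑ j ∈ Finset.range P, w d z ^ j)) :=
        hu.add (hw.mul ih)
      refine h1.congr fun d _ z _ => ?_
      rw [Finset.sum_range_succ']
      simp only [pow_succ, pow_zero]
      rw [← Finset.sum_mul]
      ring
  refine JJ.lim ⟨2 * |M|, fun d hd z hz => ?_⟩ fun η hη => ?_
  · rw [norm_mul, norm_div, norm_one]
    have h1 := hinv d hd z hz
    have h2 : 1 / ‖1 - w d z‖ ≤ 2 := by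
      rw [div_le_iff₀ (by linarith)]
      linarith
    have h3 : ‖u d z‖ ≤ |M| := (hM d hd z hz).trans (le_abs_self _)
    calc ‖u d z‖ * (1 / ‖1 - w d z‖) ≤ |M| * 2 :=
          mul_le_mul h3 h2 (by positivity) (abs_nonneg _)
      _ = 2 * |M| := by ring
  · obtain ⟨P, hP⟩ := exists_pow_lt_of_lt_one (show 0 < η / (2 * (|M| + 1)) by positivity)
      (show (1 / 2 : ℝ) < 1 by norm_num)
    refine ⟨_, hgeo P, fun d hd z hz => ?_⟩
    have h1 := hinv d hd z hz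
    have h0 : 1 - w d z ≠ 0 := by
      intro h
      rw [h, norm_zero] at h1
      norm_num at h1
    have e1 : u d z * (1 / (1 - w d z)) - u d z * ∑ j ∈ Finset.range P, w d z ^ j =
        u d z * (w d z ^ P / (1 - w d z)) := by
      have h2 := mul_neg_geom_sum (w d z) P
      have h3 : ∑ j ∈ Finset.range P, w d z ^ j = (1 - w d z ^ P) / (1 - w d z) := by
        rw [eq_div_iff h0]
        linear_combination h2
      rw [h3]
      field_simp
      ring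
    beta_reduce
    rw [e1, norm_mul, norm_div, norm_pow]
    have h4 : ‖w d z‖ ^ P / ‖1 - w d z‖ ≤ 2 * (1 / 2) ^ P := by
      rw [div_le_iff₀ (by linarith)]
      have h5 : ‖w d z‖ ^ P ≤ (1 / 2) ^ P := pow_le_pow_left₀ (norm_nonneg _) (hw2 d hd z hz) P
      have h6 : (0:ℝ) ≤ (1 / 2) ^ P := by positivity
      nlinarith
    have h3 : ‖u d z‖ ≤ |M| + 1 := (hM d hd z hz).trans (by linarith [le_abs_self M])
    calc ‖u d z‖ * (‖w d z‖ ^ P / ‖1 - w d z‖) ≤ (|M| + 1) * (2 * (1 / 2) ^ P) :=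
          mul_le_mul h3 h4 (by positivity) (by positivity)
      _ ≤ (|M| + 1) * (2 * (η / (2 * (|M| + 1)))) := by gcongr
      _ = η := by field_simp

end Pool.Agent.K9h23.Lac
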