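import Mathlib
import Pool.Agent.K9h23.Lac.Fam

/-!
Continuous functions of `f` and `h` are multipliers.
-/

set_option autoImplicit false

open Complex MvPolynomial Set

namespace Pool.Agent.K9h23.Lac

variable {n N : ℕ}

/-- the set of values -/
def KK (N : ℕ) (A R : ℝ) : Set ((Fin N → ℂ) × (Fin N → ℂ)) :=
  {x | 16 ≤ A * nsq x.1 ∧ nsq x.1 ≤ 4 ∧ nsq x.2 ≤ R ∧ ‖bd x.1 x.2 - 1‖ ≤ 1 / 8}

theorem nsq_cont : Continuous (fun u : Fin N → ℂ => nsq u) := by
  unfold nsq
  fun_prop

theorem bd_cont : Continuous (fun x : (Fin N → ℂ) × (Fin N → ℂ) => bd x.1 x.2) := by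
  unfold bd
  fun_prop

theorem le_nsq (u : Fin N → ℂ) (j : Fin N) : ‖u j‖ ^ 2 ≤ nsq u :=
  Finset.single_le_sum (f := fun j => ‖u j‖ ^ 2) (fun j _ => by positivity) (Finset.mem_univ j)

theorem KK_compact (A R : ℝ) : IsCompact (KK N A R) := by
  refine Metric.isCompact_of_isClosed_isBounded ?_ ?_
  · unfold KK
    have c1 : Continuous (fun x : (Fin N → ℂ) × (Fin N → ℂ) => nsq x.1) :=
      nsq_cont.comp continuous_fst
    have c2 : Continuous (fun x : (Fin N → ℂ) × (Fin N → ℂ) => nsq x.2) :=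
      nsq_cont.comp continuous_snd
    refine (isClosed_le continuous_const (continuous_const.mul c1)).inter
      ((isClosed_le c1 continuous_const).inter ((isClosed_le c2 continuous_const).inter
      (isClosed_le (bd_cont.sub continuous_const).norm continuous_const)))
  · rw [isBounded_iff_forall_norm_le]
    refine ⟨max 2 (Real.sqrt |R|), fun x hx => ?_⟩
    obtain ⟨-, h2, h3, -⟩ := hx
    rw [Prod.norm_def]
    have key : ∀ (u : Fin N → ℂ) (M : ℝ), 0 ≤ M → nsq u ≤ M → ‖u‖ ≤ Real.sqrt M := by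
      intro u M hM hu
      rw [pi_norm_le_iff_of_nonneg (Real.sqrt_nonneg _)]
      intro j
      apply Real.le_sqrt_of_sq_le
      exact (le_nsq u j).trans hu
    refine max_le ?_ ?_
    · have := key x.1 4 (by norm_num) h2
      rw [show (4:ℝ) = 2 ^ 2 by norm_num, Real.sqrt_sq (by norm_num)] at this
      exact this.trans (le_max_left _ _)
    · exact (key x.2 |R| (abs_nonneg _) (h3.trans (le_abs_self _))).trans (le_max_right _ _)

variable {A : ℝ} {D : ℕ}

/-- the bound for `|h|²` -/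
noncomputable def RR (n N D : ℕ) : ℝ := N * ((FD n D).card * D : ℝ) ^ 2

theorem Sz.nsq_le {p : Fin N → MP n} (h : Sz D p) {z : Fin n → ℂ} (hz : z ∈ Bal n) :
    nsq (ev p z) ≤ RR n N D := by
  unfold nsq RR
  have : ∀ j ∈ Finset.univ, ‖ev p z j‖ ^ 2 ≤ ((FD n D).card * D : ℝ) ^ 2 := fun j _ =>
    pow_le_pow_left₀ (norm_nonneg _) (h.bd hz j) 2
  refine (Finset.sum_le_card_nsmul _ _ _ this).trans ?_
  simp

theorem AdD.mem {d : Dt n N} (hd : AdD A D d) {z : Fin n → ℂ} (hz : z ∈ Bal n) :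
    (ev d.f z, ev d.h z) ∈ KK N A (RR n N D) :=
  ⟨(hd.ad z hz).hs, (hd.ad z hz).hs4, hd.sh.nsq_le hz, hd.bz z hz⟩

/-- **Continuous functions of `f` and `h` are multipliers.** -/
theorem MM.slow (c : (Fin N → ℂ) × (Fin N → ℂ) → ℂ) (hc : ContinuousOn c (KK N A (RR n N D))) :
    MM A D (fun (d : Dt n N) z => c (ev d.f z, ev d.h z)) := by
  classical
  set K := KK N A (RR n N D) with hK
  have : CompactSpace K := isCompact_iff_compactSpace.1 (KK_compact _ _)
  -- the functions
  set Φ : C(K, ℂ) → Fy n N := fun g d z => if h : (ev d.f z, ev d.h z) ∈ K then g ⟨_, h⟩ else 0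
    with hΦ
  have hΦe : ∀ g d, AdD A D d → ∀ z ∈ Bal n, ∃ h : (ev d.f z, ev d.h z) ∈ K,
      Φ g d z = g ⟨(ev d.f z, ev d.h z), h⟩ := by
    intro g d hd z hz
    have h : (ev d.f z, ev d.h z) ∈ K := hd.mem hz
    exact ⟨h, dif_pos h⟩
  set x1 : Fin N → C(K, ℂ) := fun j => ⟨fun x => x.1.1 j, by fun_prop⟩ with hx1
  set x2 : Fin N → C(K, ℂ) := fun j => ⟨fun x => x.1.2 j, by fun_prop⟩ with hx2
  set B : StarSubalgebra ℂ C(K, ℂ) := StarAlgebra.adjoin ℂ (Set.range x1 ∪ Set.range x2) with hB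
  have hBP : ∀ g ∈ B, MM A D (Φ g) ∧ MM A D (Φ (star g)) := by
    intro g hg
    induction hg using StarAlgebra.adjoin_induction with
    | mem x hx =>
      rcases hx with ⟨j, rfl⟩ | ⟨j, rfl⟩
      · constructor
        · refine (MM.pol (fun d => d.f j) (fun d hd => hd.sf j)).congr fun d hd z hz => ?_
          obtain ⟨h, he⟩ := hΦe (x1 j) d hd z hz
          rw [he]
          rfl
        · refine (MM.cpol (fun d => d.f j) (fun d hd => hd.sf j)).congr fun d hd z hz => ?_
          obtain ⟨h, he⟩ := hΦe (star (x1 j)) d hd z hz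
          rw [he]
          rfl
      · constructor
        · refine (MM.pol (fun d => d.h j) (fun d hd => hd.sh j)).congr fun d hd z hz => ?_
          obtain ⟨h, he⟩ := hΦe (x2 j) d hd z hz
          rw [he]
          rfl
        · refine (MM.cpol (fun d => d.h j) (fun d hd => hd.sh j)).congr fun d hd z hz => ?_
          obtain ⟨h, he⟩ := hΦe (star (x2 j)) d hd z hz
          rw [he]
          rfl
    | algebraMap r =>
      constructor
      · refine (MM.cst r).congr fun d hd z hz => ?_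
        obtain ⟨h, he⟩ := hΦe (algebraMap ℂ C(K, ℂ) r) d hd z hz
        rw [he]
        rfl
      · refine (MM.cst (starRingEnd ℂ r)).congr fun d hd z hz => ?_
        obtain ⟨h, he⟩ := hΦe (star (algebraMap ℂ C(K, ℂ) r)) d hd z hz
        rw [he]
        rfl
    | add x y hx hy h1 h2 =>
      constructor
      · refine (h1.1.add h2.1).congr fun d hd z hz => ?_
        obtain ⟨h, he⟩ := hΦe (x + y) d hd z hz
        obtain ⟨h', he1⟩ := hΦe x d hd z hz
        obtain ⟨h'', he2⟩ := hΦe y d hd z hz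
        rw [he, he1, he2]
        rfl
      · refine (h1.2.add h2.2).congr fun d hd z hz => ?_
        obtain ⟨h, he⟩ := hΦe (star (x + y)) d hd z hz
        obtain ⟨h', he1⟩ := hΦe (star x) d hd z hz
        obtain ⟨h'', he2⟩ := hΦe (star y) d hd z hz
        rw [he, he1, he2, star_add]
        rfl
    | mul x y hx hy h1 h2 =>
      constructor
      · refine (h1.1.mul h2.1).congr fun d hd z hz => ?_
        obtain ⟨h, he⟩ := hΦe (x * y) d hd z hz
        obtain ⟨h', he1⟩ := hΦe x d hd z hz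
        obtain ⟨h'', he2⟩ := hΦe y d hd z hz
        rw [he, he1, he2]
        rfl
      · refine (h1.2.mul h2.2).congr fun d hd z hz => ?_
        obtain ⟨h, he⟩ := hΦe (star (x * y)) d hd z hz
        obtain ⟨h', he1⟩ := hΦe (star x) d hd z hz
        obtain ⟨h'', he2⟩ := hΦe (star y) d hd z hz
        rw [he, he1, he2, star_mul']
        rfl
    | star x hx h1 =>
      rw [star_star]
      exact ⟨h1.2, h1.1⟩
  have hsep : B.SeparatesPoints := by
    intro x y hxy
    by_contra hcon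
    push Not at hcon
    apply hxy
    apply Subtype.ext
    refine Prod.ext (funext fun j => ?_) (funext fun j => ?_)
    · have := hcon (x1 j) ⟨x1 j, StarAlgebra.subset_adjoin ℂ _ (Or.inl ⟨j, rfl⟩), rfl⟩
      exact this
    · have := hcon (x2 j) ⟨x2 j, StarAlgebra.subset_adjoin ℂ _ (Or.inr ⟨j, rfl⟩), rfl⟩
      exact this
  have htop := ContinuousMap.starSubalgebra_topologicalClosure_eq_top_of_separatesPoints B hsep
  -- the function `c`
  set g : C(K, ℂ) := ⟨K.domRestrict c, hc.domRestrict⟩ with hg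
  have hgm : g ∈ B.topologicalClosure := by rw [htop]; trivial
  have hgc : g ∈ closure (B : Set C(K, ℂ)) := hgm
  rw [Metric.mem_closure_iff] at hgc
  refine MM.lim ⟨‖g‖, fun d hd z hz => ?_⟩ fun η hη => ?_
  · have h := hd.mem hz
    exact g.norm_coe_le_norm ⟨_, h⟩
  · obtain ⟨g', hg', hd'⟩ := hgc η hη
    refine ⟨Φ g', (hBP g' hg').1, fun d hd z hz => ?_⟩
    beta_reduce
    obtain ⟨h, he⟩ := hΦe g' d hd z hz
    rw [he]
    rw [dist_eq_norm] at hd'
    exact ((g - g').norm_coe_le_norm ⟨_, h⟩).trans hd'.le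

end Pool.Agent.K9h23.Lac
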