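import Mathlib
import Pool.Agent.K9h23.Lac.Slow

/-!
The fast part of the step is approximated by polynomials.
-/

set_option autoImplicit false

open Complex MvPolynomial Set

namespace Pool.Agent.K9h23.Lac

variable {n N : ℕ}

/-- the normalised vector -/
noncomputable def Hn (x : (Fin N → ℂ) × (Fin N → ℂ)) (j : Fin N) : ℂ := x.2 j / bd x.1 x.2

theorem bd_ne {x : (Fin N → ℂ) × (Fin N → ℂ)} (h : ‖bd x.1 x.2 - 1‖ ≤ 1 / 8) : bd x.1 x.2 ≠ 0 := by
  intro h0
  rw [h0, zero_sub, norm_neg, norm_one] at h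
  norm_num at h

theorem bd_Hn {x : (Fin N → ℂ) × (Fin N → ℂ)} (h : ‖bd x.1 x.2 - 1‖ ≤ 1 / 8) :
    bd x.1 (Hn x) = 1 := by
  have h0 := bd_ne h
  have h1 : bd x.1 (Hn x) = bd x.1 x.2 / bd x.1 x.2 := by
    unfold Hn
    conv_lhs => unfold bd
    conv_rhs => rw [bd, Finset.sum_div]
    refine Finset.sum_congr rfl fun j _ => ?_
    rw [mul_div_assoc']
  rw [h1, div_self h0]

variable {A R : ℝ} {D : ℕ}

theorem Hn_cont (j : Fin N) :
    ContinuousOn (fun x : (Fin N → ℂ) × (Fin N → ℂ) => Hn x j) (KK N A R) := by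
  unfold Hn
  refine ContinuousOn.div (by fun_prop) bd_cont.continuousOn fun x hx => bd_ne hx.2.2.2

theorem tH_cont : ContinuousOn (fun x : (Fin N → ℂ) × (Fin N → ℂ) => nsq (Hn x)) (KK N A R) := by
  have : ContinuousOn (fun x : (Fin N → ℂ) × (Fin N → ℂ) => Hn x) (KK N A R) :=
    continuousOn_pi.2 fun j => Hn_cont j
  exact nsq_cont.comp_continuousOn this

theorem th_cont : Continuous (fun t : ℝ => th A t) := by
  unfold th
  fun_prop

/-- **The fast part of the step.** -/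
theorem JJ.GG (hA : 4 ≤ A) (j : Fin N) : JJ A D (fun (d : Dt n N) z =>
    GG A (ev d.f z) (Hn (ev d.f z, ev d.h z)) (ev d.q z) j - Hn (ev d.f z, ev d.h z) j) := by
  have hA1 : 1 ≤ A := by linarith
  have hA0 : 0 < A := by linarith
  -- slow functions
  have mr : ∀ c : (Fin N → ℂ) × (Fin N → ℂ) → ℝ, ContinuousOn c (KK N A (RR n N D)) →
      MM A D (fun (d : Dt n N) z => ((c (ev d.f z, ev d.h z) : ℝ) : ℂ)) := fun c hc =>
    MM.slow (fun x => ((c x : ℝ) : ℂ)) (Complex.continuous_ofReal.comp_continuousOn hc)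
  have mH : ∀ i : Fin N, MM A D (fun (d : Dt n N) z => Hn (ev d.f z, ev d.h z) i) := fun i =>
    MM.slow (fun x => Hn x i) (Hn_cont i)
  have ct : ContinuousOn (fun x : (Fin N → ℂ) × (Fin N → ℂ) => nsq (Hn x)) (KK N A (RR n N D)) :=
    tH_cont
  have cs : ContinuousOn (fun x : (Fin N → ℂ) × (Fin N → ℂ) => nsq x.1) (KK N A (RR n N D)) :=
    (nsq_cont.comp continuous_fst).continuousOn
  have mt := mr _ ct
  have mth : MM A D (fun (d : Dt n N) z => ((th A (nsq (Hn (ev d.f z, ev d.h z))) : ℝ) : ℂ)) :=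
    mr (fun x => th A (nsq (Hn x))) (th_cont.comp_continuousOn ct)
  have msg : MM A D (fun (d : Dt n N) z =>
      ((1 / sg (nsq (ev d.f z)) (nsq (Hn (ev d.f z, ev d.h z))) : ℝ) : ℂ)) := by
    refine mr (fun x => 1 / sg (nsq x.1) (nsq (Hn x))) ?_
    refine ContinuousOn.div continuousOn_const ?_ fun x _ => ?_
    · unfold sg
      exact ((cs.mul ct).sub continuousOn_const).sup continuousOn_const
    · have : (1:ℝ) ≤ sg (nsq x.1) (nsq (Hn x)) := le_max_right _ _
      linarith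
  have myh : MM A D (fun (d : Dt n N) z =>
      ((100 * A / max (100 * A) (nsq (Hn (ev d.f z, ev d.h z))) : ℝ) : ℂ)) := by
    refine mr (fun x => 100 * A / max (100 * A) (nsq (Hn x))) ?_
    refine ContinuousOn.div continuousOn_const (continuousOn_const.sup ct) fun x _ => ?_
    have : 0 < max (100 * A) (nsq (Hn x)) := lt_max_of_lt_left (by positivity)
    exact this.ne'
  -- fast functions
  have jx : JJ A D (fun (d : Dt n N) z => xx (ev d.f z) (ev d.q z)) :=
    JJ.sum Finset.univ (fun i (d : Dt n N) z => starRingEnd ℂ (eval z (d.f i)) * eval z (d.q i))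
      fun i _ => (MM.cpol (fun d => d.f i) (fun d hd => hd.sf i)).2 _ (JJ.q hA1 i)
  have jy : JJ A D (fun (d : Dt n N) z => bd (Hn (ev d.f z, ev d.h z)) (ev d.q z)) :=
    JJ.sum Finset.univ (fun i (d : Dt n N) z => Hn (ev d.f z, ev d.h z) i * eval z (d.q i))
      fun i _ => (mH i).2 _ (JJ.q hA1 i)
  have jE : JJ A D (fun (d : Dt n N) z => EE A (xx (ev d.f z) (ev d.q z)) - 1) := by
    have h1 := (MM.cst (A := A) (D := D) (n := n) (N := N) (A : ℂ)).2 _ jx
    have h2 := (MM.cst (A := A) (D := D) (n := n) (N := N) (1 / 2 : ℂ)).2 _ (h1.mul h1)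
    refine (h1.add h2).congr fun d _ z _ => ?_
    unfold EE
    ring
  have jw : JJ A D (fun (d : Dt n N) z => ww (nsq (ev d.f z)) (nsq (Hn (ev d.f z, ev d.h z)))
      (xx (ev d.f z) (ev d.q z)) (bd (Hn (ev d.f z, ev d.h z)) (ev d.q z))) := by
    have h1 := (mt.mul (MM.cst (-1))).2 _ jx
    have h2 := msg.2 _ (jy.add h1)
    refine h2.congr fun d _ z _ => ?_
    unfold ww
    push_cast
    ring
  have jwb : Bdd A D (fun (d : Dt n N) z => ww (nsq (ev d.f z)) (nsq (Hn (ev d.f z, ev d.h z)))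
      (xx (ev d.f z) (ev d.q z)) (bd (Hn (ev d.f z, ev d.h z)) (ev d.q z))) (1 / 2) := by
    intro d hd z hz
    have h := hd.ad z hz
    have hw2 : Real.sqrt (nsq (ev d.q z)) ^ 2 = nsq (ev d.q z) := Real.sq_sqrt (nsq_nonneg _)
    refine ww_le (Real.sqrt_nonneg (nsq (ev d.q z))) ?_ ?_ h.hs h.hs4 h.s0 (nsq_nonneg _) hA h.w
    · rw [hw2]; exact xx_le _ _
    · rw [hw2]; exact bd_le _ _
  have jyh : JJ A D (fun (d : Dt n N) z => yh A (nsq (Hn (ev d.f z, ev d.h z)))
      (bd (Hn (ev d.f z, ev d.h z)) (ev d.q z))) := by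
    refine (myh.2 _ jy).congr fun d _ z _ => ?_
    rfl
  have jyhb : Bdd A D (fun (d : Dt n N) z => -1 * yh A (nsq (Hn (ev d.f z, ev d.h z)))
      (bd (Hn (ev d.f z, ev d.h z)) (ev d.q z))) (1 / 2) := by
    intro d hd z hz
    have h := hd.ad z hz
    have hw2 : Real.sqrt (nsq (ev d.q z)) ^ 2 = nsq (ev d.q z) := Real.sq_sqrt (nsq_nonneg _)
    beta_reduce
    rw [neg_one_mul, norm_neg]
    refine yh_le (Real.sqrt_nonneg (nsq (ev d.q z))) ?_ (nsq_nonneg _) hA h.w
    rw [hw2]; exact bd_le _ _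
  -- the coefficient `cc`
  have jc : JJ A D (fun (d : Dt n N) z => cc A (nsq (ev d.f z)) (nsq (Hn (ev d.f z, ev d.h z)))
      (xx (ev d.f z) (ev d.q z)) (bd (Hn (ev d.f z, ev d.h z)) (ev d.q z))) := by
    have h1 := (jy.add jE).add (jy.mul jE)
    have h2 := (msg.mul (MM.cst (-1))).2 _ h1
    have h3 := h2.geo jw jwb
    refine h3.congr fun d _ z _ => ?_
    unfold cc
    ring
  have mU : MM A D (fun (d : Dt n N) z => UU (ev d.f z) (Hn (ev d.f z, ev d.h z)) j) := by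
    have h1 := mt.mul (MM.cpol (fun d => d.f j) (fun d hd => hd.sf j))
    have h2 := h1.add ((mH j).mul (MM.cst (-1)))
    refine h2.congr fun d _ z _ => ?_
    unfold UU ev
    ring
  -- assemble
  have g1 := mth.2 _ (((mH j).2 _ jE).add (mU.2 _ jc))
  have g2 := jyh.geo ((MM.cst (-1)).2 _ jyh) jyhb
  have g3 := (mH j).2 _ g2
  have g4 := ((MM.cst (1:ℂ)).add (mth.mul (MM.cst (-1)))).2 _ g3
  have g5 := g1.add ((MM.cst (-1)).2 _ g4)
  refine g5.congr fun d _ z _ => ?_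
  unfold Lac.GG
  simp only [neg_one_mul, sub_neg_eq_add]
  ring

end Pool.Agent.K9h23.Lac
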