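import Mathlib
import Pool.Agent.K9h23.Lac.Appr

/-!
Equivalence of norms on polynomials of bounded degree.
-/

set_option autoImplicit false

open Complex MvPolynomial Set

namespace Pool.Agent.K9h23.Lac

variable {n N : ℕ}

/-- a polynomial vanishing near `0` is zero -/
theorem poly_zero {p : MP n} {c : ℝ} (hc : 0 < c) (h : ∀ z : Fin n → ℂ, nsq z ≤ c → eval z p = 0) :
    p = 0 := by
  apply MvPolynomial.funext
  intro x
  rw [map_zero]
  have hd : Differentiable ℂ (fun ζ : ℂ => eval (fun j => (0 : Fin n → ℂ) j + ζ * x j) p) :=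
    line_diff p 0 x
  have ha : AnalyticOnNhd ℂ (fun ζ : ℂ => eval (fun j => (0 : Fin n → ℂ) j + ζ * x j) p) univ :=
    hd.differentiableOn.analyticOnNhd isOpen_univ
  have hev : (fun ζ : ℂ => eval (fun j => (0 : Fin n → ℂ) j + ζ * x j) p) =ᶠ[nhds 0] 0 := by
    have hcont : Continuous (fun ζ : ℂ => nsq (fun j => ζ * x j)) := by
      unfold nsq
      fun_prop
    have h0 : nsq (fun j => (0:ℂ) * x j) < c := by
      unfold nsq
      simpa using hc
    filter_upwards [hcont.continuousAt.eventually_lt continuousAt_const h0] with ζ hζ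
    simp only [Pi.zero_apply, zero_add]
    exact h _ hζ.le
  have := ha.eqOn_zero_of_preconnected_of_eventuallyEq_zero isPreconnected_univ (mem_univ 0) hev
    (mem_univ 1)
  simpa using this

/-- **Bound of the coefficients.** -/
theorem coeff_bound (n l : ℕ) : ∃ C : ℝ, 0 ≤ C ∧ ∀ p : MP n, Rg 0 l p → ∀ M : ℝ,
    (∀ z : Fin n → ℂ, nsq z < 1 / 4 → ‖eval z p‖ ≤ M) → ∀ s, ‖p.coeff s‖ ≤ C * M := by
  classical
  set X : Set (Fin n → ℂ) := {z | nsq z ≤ 1 / 16} with hX
  have hXc : IsCompact X := by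
    refine Metric.isCompact_of_isClosed_isBounded (isClosed_le nsq_cont continuous_const) ?_
    rw [isBounded_iff_forall_norm_le]
    refine ⟨1, fun x hx => ?_⟩
    rw [pi_norm_le_iff_of_nonneg zero_le_one]
    intro j
    have h1 : ‖x j‖ ^ 2 ≤ 1 ^ 2 := by
      have := le_nsq x j
      have h2 : nsq x ≤ 1 / 16 := hx
      linarith
    exact le_of_sq_le_sq h1 (by norm_num)
  have : CompactSpace X := isCompact_iff_compactSpace.1 hXc
  set T : (FD n l → ℂ) →ₗ[ℂ] C(X, ℂ) :=
    { toFun := fun c => ⟨fun z => ∑ s : FD n l, c s * ∏ i, (z : Fin n → ℂ) i ^ (s : Fin n →₀ ℕ) i,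
        continuous_finsetSum _ fun s _ => continuous_const.mul (continuous_finsetProd _
          fun i _ => ((continuous_apply i).comp continuous_subtype_val).pow _)⟩
      map_add' := by
        intro c c'
        ext z
        change ∑ s : FD n l, (c + c') s * _ = ∑ s : FD n l, c s * _ + ∑ s : FD n l, c' s * _
        rw [← Finset.sum_add_distrib]
        refine Finset.sum_congr rfl fun s _ => ?_
        rw [Pi.add_apply]
        ring
      map_smul' := by
        intro c c'
        ext z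
        change ∑ s : FD n l, (c • c') s * _ = c • ∑ s : FD n l, c' s * _
        rw [Finset.smul_sum]
        refine Finset.sum_congr rfl fun s _ => ?_
        rw [Pi.smul_apply, smul_eq_mul, smul_eq_mul]
        ring } with hT
  have hTe : ∀ c : FD n l → ℂ, ∀ z : X,
      T c z = ∑ s : FD n l, c s * ∏ i, (z : Fin n → ℂ) i ^ (s : Fin n →₀ ℕ) i := fun c z => rfl
  have hker : LinearMap.ker T = ⊥ := by
    rw [LinearMap.ker_eq_bot']
    intro c hc
    set p : MP n := ∑ s : FD n l, monomial (s : Fin n →₀ ℕ) (c s) with hp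
    have hp0 : p = 0 := by
      refine poly_zero (c := 1 / 16) (by norm_num) fun z hz => ?_
      have h1 := congrArg (fun g : C(X, ℂ) => g ⟨z, hz⟩) hc
      simp only [hTe] at h1
      rw [hp, map_sum]
      refine Eq.trans ?_ h1
      refine Finset.sum_congr rfl fun s _ => ?_
      rw [eval_monomial]
      congr 1
      exact Finsupp.prod_fintype _ _ (fun i => by simp)
    funext s
    have h2 := congrArg (fun p : MP n => p.coeff (s : Fin n →₀ ℕ)) hp0
    simp only [hp, coeff_sum, coeff_monomial, coeff_zero] at h2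
    rw [Finset.sum_eq_single s] at h2
    · simpa using h2
    · intro b _ hb
      rw [if_neg]
      exact fun h => hb (Subtype.ext h)
    · intro h; exact absurd (Finset.mem_univ _) h
  obtain ⟨K, hK, hKa⟩ := T.exists_antilipschitzWith hker
  refine ⟨K, K.2, fun p hp M hM s => ?_⟩
  have hM0 : 0 ≤ M := (norm_nonneg _).trans (hM 0 (by unfold nsq; simp))
  by_cases hs : s ∈ FD n l
  · set c : FD n l → ℂ := fun s => p.coeff (s : Fin n →₀ ℕ) with hc
    have h1 : ‖c‖ ≤ K * ‖T c‖ := by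
      have := hKa.le_mul_dist c 0
      simpa [dist_eq_norm] using this
    have h2 : ‖T c‖ ≤ M := by
      rw [ContinuousMap.norm_le _ hM0]
      intro z
      have h3 : T c z = eval (z : Fin n → ℂ) p := by
        rw [hTe, eval_FD hp]
        rw [← Finset.sum_coe_sort (FD n l)]
      rw [h3]
      apply hM
      have : nsq (z : Fin n → ℂ) ≤ 1 / 16 := z.2
      linarith
    have h4 : ‖c ⟨s, hs⟩‖ ≤ ‖c‖ := norm_le_pi_norm _ _
    calc ‖p.coeff s‖ = ‖c ⟨s, hs⟩‖ := rfl
      _ ≤ K * ‖T c‖ := h4.trans h1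
      _ ≤ K * M := by gcongr
  · have h1 : p.coeff s = 0 := by
      by_contra hcon
      exact hs (mem_FD.2 (hp s hcon).2)
    rw [h1, norm_zero]
    have := K.2
    positivity

/-- **The size of a polynomial which is bounded near `0`.** -/
theorem size_bound (n N l : ℕ) (M : ℝ) : ∃ S : ℕ, ∀ p : Fin N → MP n, (∀ j, Rg 0 l (p j)) →
    (∀ j, ∀ z : Fin n → ℂ, nsq z < 1 / 4 → ‖eval z (p j)‖ ≤ M) → Sz S p := by
  obtain ⟨C, hC0, hC⟩ := coeff_bound n l
  refine ⟨max l ⌈C * M⌉₊, fun p hp hM j => ⟨(hp j).mono le_rfl (le_max_left _ _), fun s => ?_⟩⟩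
  refine (hC (p j) (hp j) M (hM j) s).trans ((Nat.le_ceil _).trans ?_)
  exact_mod_cast le_max_right _ _

/-- polynomials of bounded degree are uniformly continuous under dilations -/
theorem dil_close (n l : ℕ) {M κ : ℝ} (hM : 0 ≤ M) (hκ : 0 < κ) : ∃ r : ℝ, 0 < r ∧ r < 1 ∧
    ∀ p : MP n, Rg 0 l p → (∀ z : Fin n → ℂ, nsq z < 1 / 4 → ‖eval z p‖ ≤ M) →
      ∀ z ∈ Bal n, ‖eval z p - eval (fun j => (r:ℂ) * z j) p‖ ≤ κ := by
  obtain ⟨C, hC0, hC⟩ := coeff_bound n l
  set K : ℝ := (FD n l).card * (C * M) with hK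
  have hK0 : 0 ≤ K := by positivity
  have hlim : Filter.Tendsto (fun r : ℝ => K * (1 - r ^ l)) (nhdsWithin 1 (Iio 1))
      (nhds (K * (1 - 1 ^ l))) := by
    have : Continuous (fun r : ℝ => K * (1 - r ^ l)) := by fun_prop
    exact (this.tendsto 1).mono_left nhdsWithin_le_nhds
  rw [one_pow, sub_self, mul_zero] at hlim
  have h1 := (hlim.eventually_lt_const hκ).and (Ioo_mem_nhdsLT (show (0:ℝ) < 1 by norm_num))
  obtain ⟨r, hr, hr2⟩ := h1.exists
  refine ⟨r, hr2.1, hr2.2, fun p hp hpM z hz => ?_⟩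
  rw [eval_FD hp, eval_FD hp, ← Finset.sum_sub_distrib]
  refine (norm_sum_le _ _).trans (le_trans ?_ hr.le)
  have h2 : ∀ s ∈ FD n l, ‖p.coeff s * ∏ i, z i ^ s i - p.coeff s * ∏ i, ((r:ℂ) * z i) ^ s i‖ ≤
      (C * M) * (1 - r ^ l) := by
    intro s hs
    have e1 : ∏ i, ((r:ℂ) * z i) ^ s i = (r:ℂ) ^ s.degree * ∏ i, z i ^ s i := by
      simp_rw [mul_pow]
      rw [Finset.prod_mul_distrib, Finset.prod_pow_eq_pow_sum]
      congr 2
      exact (Finsupp.degree_eq_sum s).symm
    have e2 : p.coeff s * ∏ i, z i ^ s i - p.coeff s * ∏ i, ((r:ℂ) * z i) ^ s i =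
        p.coeff s * ((1 - (r:ℂ) ^ s.degree) * ∏ i, z i ^ s i) := by
      rw [e1]; ring
    rw [e2, norm_mul, norm_mul]
    have e3 : ‖(1 - (r:ℂ) ^ s.degree)‖ = 1 - r ^ s.degree := by
      rw [← Complex.ofReal_pow, ← Complex.ofReal_one, ← Complex.ofReal_sub, Complex.norm_real,
        Real.norm_of_nonneg]
      have : r ^ s.degree ≤ 1 := pow_le_one₀ hr2.1.le hr2.2.le
      linarith
    rw [e3]
    have e4 : r ^ l ≤ r ^ s.degree := pow_le_pow_of_le_one hr2.1.le hr2.2.le (mem_FD.1 hs)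
    have e5 : r ^ s.degree ≤ 1 := pow_le_one₀ hr2.1.le hr2.2.le
    calc ‖p.coeff s‖ * ((1 - r ^ s.degree) * ‖∏ i, z i ^ s i‖) ≤
          (C * M) * ((1 - r ^ l) * 1) := by
          refine mul_le_mul (hC p hp M hpM s) ?_ (mul_nonneg (by linarith) (norm_nonneg _))
            (by positivity)
          exact mul_le_mul (by linarith) (mono_le hz s) (norm_nonneg _) (by linarith)
      _ = _ := by ring
  refine (Finset.sum_le_card_nsmul _ _ _ h2).trans ?_
  rw [nsmul_eq_mul, hK]
  linarith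

end Pool.Agent.K9h23.Lac
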