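import Mathlib
import Pool.Agent.K9h23.Lac.Nrm

/-!
The step with polynomials.
-/

set_option autoImplicit false

open Complex MvPolynomial Set

namespace Pool.Agent.K9h23.Lac

variable {n N : ℕ}

theorem Rg.pow {l : ℕ} {p : MP n} (hp : Rg 0 l p) (m : ℕ) : Rg 0 (m * l) (p ^ m) := by
  induction m with
  | zero =>
    intro s hs
    rw [pow_zero, coeff_one] at hs
    have : s = 0 := by
      by_contra h
      rw [if_neg (fun h' => h h'.symm)] at hs
      exact hs rfl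
    rw [this]
    simp
  | succ m ih =>
    rw [pow_succ]
    have := ih.mul hp
    exact this.mono (by omega) (by rw [Nat.succ_mul])

theorem Rg.one {l : ℕ} : Rg 0 l (1 : MP n) := by
  have := (Rg.pow (p := (0 : MP n)) (l := 0) Rg.zero 0).mono (le_refl 0) (Nat.zero_le l)
  simpa using this

theorem Rg.sub {k l : ℕ} {p q : MP n} (hp : Rg k l p) (hq : Rg k l q) : Rg k l (p - q) := by
  have h := hp.add (hq.C_mul (-1))
  have : p + C (-1) * q = p - q := by
    rw [C_neg, C_1]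
    ring
  rwa [this] at h

/-- the normalised polynomial vector -/
noncomputable def hsh (J : ℕ) (f h : Fin N → MP n) (j : Fin N) : MP n :=
  h j * ∑ i ∈ Finset.range J, (1 - ∑ k, f k * h k) ^ i

theorem hsh_Rg {D J : ℕ} {f h : Fin N → MP n} (hf : Sz D f) (hh : Sz D h) (j : Fin N) :
    Rg 0 (D + J * (D + D)) (hsh J f h j) := by
  unfold hsh
  have h1 : Rg 0 (D + D) (1 - ∑ k, f k * h k) :=
    Rg.one.sub (Rg.sum _ _ fun k _ => by simpa using ((hf k).1.mul (hh k).1))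
  have h2 : Rg 0 (J * (D + D)) (∑ i ∈ Finset.range J, (1 - ∑ k, f k * h k) ^ i) :=
    Rg.sum _ _ fun i hi => (h1.pow i).mono le_rfl
      (Nat.mul_le_mul_right _ (Finset.mem_range.1 hi).le)
  simpa using (hh j).1.mul h2

theorem hsh_close {D J : ℕ} {f h : Fin N → MP n} (hh : Sz D h) {z : Fin n → ℂ} (hz : z ∈ Bal n)
    (hb : ‖bd (ev f z) (ev h z) - 1‖ ≤ 1 / 8) (j : Fin N) :
    ‖eval z (hsh J f h j) - Hn (ev f z, ev h z) j‖ ≤ 2 * ((FD n D).card * D) * (1 / 8) ^ J := by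
  set b := bd (ev f z) (ev h z) with hbdef
  have hb0 : b ≠ 0 := bd_ne (x := (ev f z, ev h z)) hb
  have e1 : eval z (∑ k, f k * h k) = b := by
    rw [map_sum, hbdef]
    unfold bd ev
    refine Finset.sum_congr rfl fun k _ => ?_
    rw [map_mul]
  have e2 : eval z (hsh J f h j) = eval z (h j) * ∑ i ∈ Finset.range J, (1 - b) ^ i := by
    unfold hsh
    rw [map_mul, map_sum]
    congr 1
    refine Finset.sum_congr rfl fun i _ => ?_
    rw [map_pow, map_sub, map_one, e1]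
  have e3 : ∑ i ∈ Finset.range J, (1 - b) ^ i = (1 - (1 - b) ^ J) / b := by
    rw [eq_div_iff hb0]
    have := mul_neg_geom_sum (1 - b) J
    linear_combination this
  have e4 : eval z (hsh J f h j) - Hn (ev f z, ev h z) j = -(eval z (h j) * ((1 - b) ^ J / b)) := by
    rw [e2, e3]
    unfold Hn ev
    simp only
    change _ - eval z (h j) / b = _
    field_simp
    ring
  rw [e4, norm_neg, norm_mul, norm_div, norm_pow]
  have h1 : ‖1 - b‖ ≤ 1 / 8 := by rw [norm_sub_rev]; exact hb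
  have h2 : 7 / 8 ≤ ‖b‖ := by
    have h3 : ‖(1:ℂ)‖ ≤ ‖b‖ + ‖1 - b‖ := by
      calc ‖(1:ℂ)‖ = ‖b + (1 - b)‖ := by ring_nf
        _ ≤ _ := norm_add_le _ _
    rw [norm_one] at h3
    linarith
  have h4 : ‖1 - b‖ ^ J / ‖b‖ ≤ 2 * (1 / 8) ^ J := by
    rw [div_le_iff₀ (by linarith)]
    have h5 : ‖1 - b‖ ^ J ≤ (1 / 8) ^ J := pow_le_pow_left₀ (norm_nonneg _) h1 J
    have h6 : (0:ℝ) ≤ (1 / 8) ^ J := by positivity
    nlinarith
  calc ‖eval z (h j)‖ * (‖1 - b‖ ^ J / ‖b‖) ≤ ((FD n D).card * D) * (2 * (1 / 8) ^ J) :=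
        mul_le_mul (hh.bd hz j) h4 (by positivity) (by positivity)
    _ = _ := by ring

theorem Hn_le {D : ℕ} {f h : Fin N → MP n} (hh : Sz D h) {z : Fin n → ℂ} (hz : z ∈ Bal n)
    (hb : ‖bd (ev f z) (ev h z) - 1‖ ≤ 1 / 8) (j : Fin N) :
    ‖Hn (ev f z, ev h z) j‖ ≤ 2 * ((FD n D).card * D) := by
  set b := bd (ev f z) (ev h z) with hbdef
  have h1 : ‖1 - b‖ ≤ 1 / 8 := by rw [norm_sub_rev]; exact hb
  have h2 : 7 / 8 ≤ ‖b‖ := by
    have h3 : ‖(1:ℂ)‖ ≤ ‖b‖ + ‖1 - b‖ := by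
      calc ‖(1:ℂ)‖ = ‖b + (1 - b)‖ := by ring_nf
        _ ≤ _ := norm_add_le _ _
    rw [norm_one] at h3
    linarith
  have h3 : ‖Hn (ev f z, ev h z) j‖ = ‖eval z (h j)‖ / ‖b‖ := by
    unfold Hn
    rw [norm_div]
    rfl
  rw [h3, div_le_iff₀ (by linarith)]
  have := hh.bd hz j
  have h4 := norm_nonneg (eval z (h j))
  nlinarith

/-- **The step.** -/
theorem step {A : ℝ} (hA : 4 ≤ A) (n N D : ℕ) {η : ℝ} (hη : 0 < η) : ∃ K : ℕ, ∀ l : ℕ, ∃ D' : ℕ,
    ∀ d : Dt n N, AdD A D d → (∀ j, Rg K l (d.q j)) → ∃ hs p : Fin N → MP n,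
      Sz D' (fun j => hs j + p j) ∧ (∀ j, Rg D D' (p j)) ∧ ∀ z ∈ Bal n, ∀ j,
        ‖eval z (hs j) - Hn (ev d.f z, ev d.h z) j‖ ≤ η ∧
        ‖eval z (p j) - (GG A (ev d.f z) (Hn (ev d.f z, ev d.h z)) (ev d.q z) j -
          Hn (ev d.f z, ev d.h z) j)‖ ≤ η := by
  classical
  have hJ := fun j : Fin N => JJ.GG (n := n) (N := N) (A := A) (D := D) hA j
  choose M hM using fun j => (hJ j).1
  choose k0 hk0 using fun j => (hJ j).2 η hη D
  obtain ⟨J, hJJ⟩ := exists_pow_lt_of_lt_one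
    (show 0 < η / (2 * ((FD n D).card * D) + 1) by positivity) (show (1 / 8 : ℝ) < 1 by norm_num)
  refine ⟨Finset.univ.sup k0, fun l => ?_⟩
  choose D1 hD1 using fun j => hk0 j l
  set D2 : ℕ := (D + J * (D + D)) + Finset.univ.sup D1 with hD2
  set MM' : ℝ := ∑ j, |M j| + 2 * ((FD n D).card * D) + 2 * η with hMM
  obtain ⟨S, hS⟩ := size_bound n N D2 MM'
  refine ⟨max S D2, fun d hd hq => ?_⟩
  choose p hp hp' using fun j => hD1 j d hd
    (fun i => (hq i).mono (Finset.le_sup (f := k0) (Finset.mem_univ j)) le_rfl)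
  have hclose : ∀ z ∈ Bal n, ∀ j, ‖eval z (hsh J d.f d.h j) - Hn (ev d.f z, ev d.h z) j‖ ≤ η := by
    intro z hz j
    refine (hsh_close hd.sh hz (hd.bz z hz) j).trans ?_
    have h1 : 2 * ((FD n D).card * D : ℝ) * (1 / 8) ^ J ≤
        (2 * ((FD n D).card * D) + 1) * (η / (2 * ((FD n D).card * D) + 1)) := by
      refine mul_le_mul (by linarith) hJJ.le (by positivity) (by positivity)
    refine h1.trans (le_of_eq ?_)
    field_simp
  have hDj : ∀ j, D1 j ≤ D2 := fun j => (Finset.le_sup (f := D1) (Finset.mem_univ j)).trans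
    (Nat.le_add_left _ _)
  refine ⟨hsh J d.f d.h, p, ?_, fun j => (hp j).mono le_rfl ((hDj j).trans (le_max_right _ _)),
    fun z hz j => ⟨hclose z hz j, ?_⟩⟩
  · have hRg : ∀ j, Rg 0 D2 (hsh J d.f d.h j + p j) := fun j =>
      ((hsh_Rg hd.sf hd.sh j).mono le_rfl (Nat.le_add_right _ _)).add
        ((hp j).mono (Nat.zero_le _) (hDj j))
    have h1 := hS (fun j => hsh J d.f d.h j + p j) hRg (fun j z hz => ?_)
    · intro j
      refine ⟨(h1 j).1.mono le_rfl (le_max_left _ _), fun s => ((h1 j).2 s).trans ?_⟩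
      exact_mod_cast le_max_left _ _
    · have hz' : z ∈ Bal n := by
        change nsq z < 1
        linarith
      rw [map_add]
      have e1 := hclose z hz' j
      have e2 := hp' j z hz'
      have e3 : ‖GG A (ev d.f z) (Hn (ev d.f z, ev d.h z)) (ev d.q z) j -
          Hn (ev d.f z, ev d.h z) j‖ ≤ |M j| := (hM j d hd z hz').trans (le_abs_self _)
      have e4 := Hn_le hd.sh hz' (hd.bz z hz') j
      have e5 : |M j| ≤ ∑ j, |M j| :=
        Finset.single_le_sum (f := fun j => |M j|) (fun j _ => abs_nonneg _) (Finset.mem_univ j)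
      set u := eval z (hsh J d.f d.h j)
      set v := eval z (p j)
      set g := GG A (ev d.f z) (Hn (ev d.f z, ev d.h z)) (ev d.q z) j
      set H := Hn (ev d.f z, ev d.h z) j
      have e6 : u + v = (u - H) + H - ((g - H) - v) + (g - H) := by ring
      rw [e6]
      calc ‖(u - H) + H - ((g - H) - v) + (g - H)‖ ≤ ‖u - H‖ + ‖H‖ + ‖(g - H) - v‖ + ‖g - H‖ :=
            (norm_add_le _ _).trans (by
              gcongr
              exact (norm_sub_le _ _).trans (by gcongr; exact norm_add_le _ _))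
        _ ≤ η + 2 * ((FD n D).card * D) + η + |M j| := by gcongr
        _ ≤ MM' := by rw [hMM]; linarith
  · rw [norm_sub_rev]
    exact hp' j z hz

end Pool.Agent.K9h23.Lac
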