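import Mathlib
import Pool.Agent.K9h23.Lac.Step

/-!
Polynomials without common zeros on the closed ball: approximate Bezout identities with
polynomials, uniformly on polynomials of bounded degree.
-/

set_option autoImplicit false

open Complex MvPolynomial Set

namespace Pool.Agent.K9h23.Lac

variable {n N : ℕ}

/-- the closed ball -/
def CB (n : ℕ) : Set (Fin n → ℂ) := {z | nsq z ≤ 1}

theorem CB_compact (n : ℕ) : IsCompact (CB n) := by
  refine Metric.isCompact_of_isClosed_isBounded (isClosed_le nsq_cont continuous_const) ?_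
  rw [isBounded_iff_forall_norm_le]
  refine ⟨1, fun x hx => ?_⟩
  rw [pi_norm_le_iff_of_nonneg zero_le_one]
  intro j
  have h1 : ‖x j‖ ^ 2 ≤ 1 ^ 2 := by
    have := le_nsq x j
    have h2 : nsq x ≤ 1 := hx
    linarith
  exact le_of_sq_le_sq h1 (by norm_num)

/-- inequalities pass to the closed ball -/
theorem le_CB {g : (Fin n → ℂ) → ℝ} (hg : Continuous g) {M : ℝ} (h : ∀ z ∈ Bal n, g z ≤ M)
    {z : Fin n → ℂ} (hz : z ∈ CB n) : g z ≤ M := by
  have hc : Continuous (fun r : ℝ => g (fun j => (r:ℂ) * z j)) := by fun_prop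
  have hlim : Filter.Tendsto (fun r : ℝ => g (fun j => (r:ℂ) * z j)) (nhdsWithin 1 (Iio 1))
      (nhds (g (fun j => ((1:ℝ):ℂ) * z j))) := (hc.tendsto 1).mono_left nhdsWithin_le_nhds
  simp only [Complex.ofReal_one, one_mul] at hlim
  refine le_of_tendsto hlim ?_
  filter_upwards [Ioo_mem_nhdsLT (show (0:ℝ) < 1 by norm_num)] with r hr
  apply h
  change nsq (fun j => (r:ℂ) * z j) < 1
  rw [nsq_smul', Complex.norm_real, Real.norm_of_nonneg hr.1.le]
  have h1 : nsq z ≤ 1 := hz
  have h2 : r ^ 2 < 1 := by nlinarith [hr.1, hr.2]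
  nlinarith [nsq_nonneg z]

theorem eval_cont (p : MP n) : Continuous (fun z : Fin n → ℂ => eval z p) := by
  simp_rw [MvPolynomial.eval_eq']
  fun_prop

theorem ev_cont (p : Fin N → MP n) : Continuous (fun z : Fin n → ℂ => ev p z) :=
  continuous_pi fun j => eval_cont (p j)

/-- **Approximate Bezout identity.** -/
theorem bez_one (f : Fin N → MP n) (hf : ∀ z ∈ CB n, 0 < nsq (ev f z)) {ε : ℝ} (hε : 0 < ε) :
    ∃ h : Fin N → MP n, ∀ z ∈ CB n, ‖bd (ev f z) (ev h z) - 1‖ ≤ ε := by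
  classical
  have hXc : CompactSpace (CB n) := isCompact_iff_compactSpace.1 (CB_compact n)
  set co : Fin n → C(CB n, ℂ) := fun i => ⟨fun z => (z : Fin n → ℂ) i,
    (continuous_apply i).comp continuous_subtype_val⟩ with hco
  set ι : MP n →ₐ[ℂ] C(CB n, ℂ) := aeval co with hι
  have hιe : ∀ (p : MP n) (z : CB n), ι p z = eval (z : Fin n → ℂ) p := by
    intro p z
    have h1 : ((ContinuousMap.evalAlgHom ℂ ℂ z).comp ι : MP n →ₐ[ℂ] ℂ) =
        aeval (z : Fin n → ℂ) := by
      apply MvPolynomial.algHom_ext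
      intro i
      rw [AlgHom.comp_apply, hι, aeval_X, aeval_X]
      rfl
    have h2 := congrArg (fun φ : MP n →ₐ[ℂ] ℂ => φ p) h1
    simp only [AlgHom.comp_apply] at h2
    rw [← MvPolynomial.coe_aeval_eq_eval]
    exact h2
  clear_value ι
  set P : Subalgebra ℂ C(CB n, ℂ) := ι.range.topologicalClosure with hP
  have hιP : ∀ p, ι p ∈ P := fun p => ι.range.le_topologicalClosure ⟨p, rfl⟩
  set ι' : MP n →ₐ[ℂ] P := ι.codRestrict P hιP with hι'
  have : IsClosed (P : Set C(CB n, ℂ)) := ι.range.isClosed_topologicalClosure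
  have : CompleteSpace P := this.completeSpace_coe
  -- the ideal
  set I : Ideal P := Ideal.span (range fun j => ι' (f j)) with hI
  have htop : I = ⊤ := by
    by_contra hne
    obtain ⟨M, hM, hIM⟩ := Ideal.exists_le_maximal I hne
    set φ := M.toCharacterSpace with hφ
    have hφ0 : ∀ j, φ (ι' (f j)) = 0 := fun j =>
      M.toCharacterSpace_apply_eq_zero_of_mem (hIM (Ideal.subset_span ⟨j, rfl⟩))
    set ψ : P →ₐ[ℂ] ℂ := WeakDual.CharacterSpace.toAlgHom φ with hψ
    have hψe : ∀ x, ψ x = φ x := fun x => rfl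
    set p : Fin n → ℂ := fun i => ψ (ι' (X i)) with hp
    have hev : ∀ F : MP n, ψ (ι' F) = eval p F := by
      intro F
      have h1 : (ψ.comp ι' : MP n →ₐ[ℂ] ℂ) = aeval p := by
        apply MvPolynomial.algHom_ext
        intro i
        rw [AlgHom.comp_apply, aeval_X]
      have h2 := congrArg (fun φ : MP n →ₐ[ℂ] ℂ => φ F) h1
      simp only [AlgHom.comp_apply] at h2
      rw [← MvPolynomial.coe_aeval_eq_eval]
      exact h2
    have hnorm : ∀ x : P, ‖ψ x‖ ≤ ‖x‖ := by
      intro x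
      have h1 := AlgHom.norm_apply_le_self_mul_norm_one ψ x
      have h2 : ‖(1 : P)‖ ≤ 1 := by
        change ‖((1 : P) : C(CB n, ℂ))‖ ≤ 1
        rw [ContinuousMap.norm_le _ zero_le_one]
        intro z
        simp
      calc ‖ψ x‖ ≤ ‖x‖ * ‖(1 : P)‖ := h1
        _ ≤ ‖x‖ * 1 := by gcongr
        _ = ‖x‖ := mul_one _
    -- the point lies in the closed ball
    have hpB : nsq p ≤ 1 := by
      set F : MP n := ∑ i, C (starRingEnd ℂ (p i)) * X i with hF
      have h1 : ψ (ι' F) = (nsq p : ℂ) := by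
        rw [hev, hF, map_sum, nsq_c]
        refine Finset.sum_congr rfl fun i _ => ?_
        rw [map_mul, eval_C, eval_X]
        ring
      have h2 : ‖ι' F‖ ≤ Real.sqrt (nsq p) := by
        change ‖ι F‖ ≤ _
        rw [ContinuousMap.norm_le _ (Real.sqrt_nonneg _)]
        intro z
        rw [hιe]
        have h3 : eval (z : Fin n → ℂ) F = xx p z := by
          rw [hF, map_sum]
          unfold xx
          refine Finset.sum_congr rfl fun i _ => ?_
          rw [map_mul, eval_C, eval_X]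
        rw [h3]
        apply Real.le_sqrt_of_sq_le
        refine (xx_le p z).trans ?_
        have h4 : nsq (z : Fin n → ℂ) ≤ 1 := z.2
        nlinarith [nsq_nonneg p]
      have h5 := (hnorm (ι' F)).trans h2
      rw [h1, Complex.norm_real, Real.norm_of_nonneg (nsq_nonneg _)] at h5
      have h6 := Real.sq_sqrt (nsq_nonneg p)
      have h7 := Real.sqrt_nonneg (nsq p)
      by_contra hcon
      push Not at hcon
      have h8 : 1 < Real.sqrt (nsq p) := by
        rw [Real.lt_sqrt zero_le_one]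
        linarith
      nlinarith
    have h1 := hf p hpB
    have h2 : nsq (ev f p) = 0 := by
      unfold nsq
      refine Finset.sum_eq_zero fun j _ => ?_
      have h3 : ev f p j = 0 := by
        have h4 := hφ0 j
        rw [← hψe, hev] at h4
        exact h4
      rw [h3, norm_zero]
      norm_num
    linarith
  have h1 : (1 : P) ∈ I := by rw [htop]; trivial
  rw [hI, Ideal.mem_span_range_iff_exists_fun] at h1
  obtain ⟨c, hc⟩ := h1
  -- bound of f
  set Kf : ℝ := ∑ j, ‖ι (f j)‖ + 1 with hKf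
  have hKf0 : 0 < Kf := by
    have : 0 ≤ ∑ j, ‖ι (f j)‖ := Finset.sum_nonneg fun _ _ => norm_nonneg _
    linarith
  have h3' : ∀ (z : Fin n → ℂ) (hz : z ∈ CB n), ∑ j, (c j : C(CB n, ℂ)) ⟨z, hz⟩ * eval z (f j) = 1 := by
    intro z hz
    have h4 := congrArg (fun x : P => (x : C(CB n, ℂ)) ⟨z, hz⟩) hc
    have h5 : ((∑ i, c i * ι' (f i) : P) : C(CB n, ℂ)) ⟨z, hz⟩ =
        ∑ j, (c j : C(CB n, ℂ)) ⟨z, hz⟩ * eval z (f j) := by
      rw [AddSubmonoidClass.coe_finsetSum, ContinuousMap.sum_apply]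
      refine Finset.sum_congr rfl fun j _ => ?_
      rw [MulMemClass.coe_mul, ContinuousMap.mul_apply]
      congr 1
      exact hιe (f j) ⟨z, hz⟩
    rw [← h5]
    exact h4
  obtain ⟨c', hc'⟩ : ∃ c' : Fin N → C(CB n, ℂ), ∀ j, c' j = (c j : C(CB n, ℂ)) := ⟨_, fun _ => rfl⟩
  have hcl : ∀ j, c' j ∈ closure (ι.range : Set C(CB n, ℂ)) := fun j => by
    rw [hc']; exact (c j).2
  have h3'' : ∀ (z : Fin n → ℂ) (hz : z ∈ CB n), ∑ j, c' j ⟨z, hz⟩ * eval z (f j) = 1 := by
    intro z hz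
    rw [← h3' z hz]
    refine Finset.sum_congr rfl fun j _ => ?_
    rw [hc']
  clear h3' hc' hc htop
  clear c
  have happ : ∀ j, ∃ h : MP n, ‖c' j - ι h‖ ≤ ε / Kf := by
    intro j
    have h2 := hcl j
    rw [Metric.mem_closure_iff] at h2
    obtain ⟨b, ⟨h, rfl⟩, hb⟩ := h2 (ε / Kf) (by positivity)
    rw [dist_eq_norm] at hb
    exact ⟨h, hb.le⟩
  choose h hh using happ
  refine ⟨h, fun z hz => ?_⟩
  have h3 := h3'' z hz
  have h6 : bd (ev f z) (ev h z) - 1 =
      -∑ j, (c' j ⟨z, hz⟩ - eval z (h j)) * eval z (f j) := by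
    rw [← h3]
    unfold bd ev
    rw [← Finset.sum_sub_distrib, ← Finset.sum_neg_distrib]
    refine Finset.sum_congr rfl fun j _ => ?_
    ring
  rw [h6, norm_neg]
  refine (norm_sum_le _ _).trans ?_
  have h7 : ∀ j ∈ Finset.univ, ‖(c' j ⟨z, hz⟩ - eval z (h j)) * eval z (f j)‖ ≤
      (ε / Kf) * ‖ι (f j)‖ := by
    intro j _
    rw [norm_mul]
    have e1 : ‖c' j ⟨z, hz⟩ - eval z (h j)‖ ≤ ε / Kf := by
      have e2 := (c' j - ι (h j)).norm_coe_le_norm ⟨z, hz⟩
      rw [ContinuousMap.sub_apply, hιe] at e2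
      exact e2.trans (hh j)
    have e3 : ‖eval z (f j)‖ ≤ ‖ι (f j)‖ := by
      have e4 := (ι (f j)).norm_coe_le_norm ⟨z, hz⟩
      rwa [hιe] at e4
    exact mul_le_mul e1 e3 (norm_nonneg _) (div_pos hε hKf0).le
  refine (Finset.sum_le_sum h7).trans ?_
  rw [← Finset.mul_sum]
  have e5 : ∑ j, ‖ι (f j)‖ ≤ Kf := by rw [hKf]; linarith
  calc ε / Kf * ∑ j, ‖ι (f j)‖ ≤ ε / Kf * Kf :=
        mul_le_mul_of_nonneg_left e5 (div_pos hε hKf0).le
    _ = ε := div_mul_cancel₀ ε hKf0.ne'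

end Pool.Agent.K9h23.Lac
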