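import Mathlib
import Pool.Agent.K9h23.Lac.Bez

/-!
The uniform version of the approximate Bezout identity.
-/

set_option autoImplicit false

open Complex MvPolynomial Set

namespace Pool.Agent.K9h23.Lac

variable {n N : ℕ}

/-- the polynomials with given coefficients -/
noncomputable def pol (l : ℕ) (x : Fin N → FD n l → ℂ) (j : Fin N) : MP n :=
  ∑ s : FD n l, monomial (s : Fin n →₀ ℕ) (x j s)

theorem ev_pol (l : ℕ) (x : Fin N → FD n l → ℂ) (z : Fin n → ℂ) :
    ev (pol l x) z = fun j => ∑ s : FD n l, x j s * ∏ i, z i ^ (s : Fin n →₀ ℕ) i := by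
  funext j
  unfold ev pol
  rw [map_sum]
  refine Finset.sum_congr rfl fun s _ => ?_
  rw [eval_monomial]
  congr 1
  exact Finsupp.prod_fintype _ _ (fun i => by simp)

theorem pol_coeff (l : ℕ) (x : Fin N → FD n l → ℂ) (j : Fin N) (s : FD n l) :
    (pol l x j).coeff (s : Fin n →₀ ℕ) = x j s := by
  classical
  unfold pol
  simp only [coeff_sum, coeff_monomial]
  rw [Finset.sum_eq_single s]
  · simp
  · intro b _ hb
    rw [if_neg]
    exact fun h => hb (Subtype.ext h)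
  · intro h; exact absurd (Finset.mem_univ _) h

theorem pol_Rg (l : ℕ) (x : Fin N → FD n l → ℂ) (j : Fin N) : Rg 0 l (pol l x j) := by
  classical
  unfold pol
  refine Rg.sum _ _ fun s _ => ?_
  intro t ht
  rw [coeff_monomial] at ht
  split_ifs at ht with h
  · rw [← h]
    exact ⟨Nat.zero_le _, mem_FD.1 s.2⟩
  · exact absurd rfl ht

theorem pol_eq {l : ℕ} {f : Fin N → MP n} (hf : ∀ j, Rg 0 l (f j)) :
    pol l (fun j s => (f j).coeff (s : Fin n →₀ ℕ)) = f := by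
  funext j
  ext s
  by_cases hs : s ∈ FD n l
  · exact pol_coeff l (fun j s => (f j).coeff (s : Fin n →₀ ℕ)) j ⟨s, hs⟩
  · have h1 : (f j).coeff s = 0 := by
      by_contra hcon
      exact hs (mem_FD.2 (hf j s hcon).2)
    have h2 : (pol l (fun j s => (f j).coeff (s : Fin n →₀ ℕ)) j).coeff s = 0 := by
      by_contra hcon
      exact hs (mem_FD.2 (pol_Rg l _ j s hcon).2)
    rw [h1, h2]

theorem pol_cont (l : ℕ) : Continuous (fun y : (Fin N → FD n l → ℂ) × (Fin n → ℂ) =>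
    ev (pol l y.1) y.2) := by
  simp_rw [ev_pol]
  refine continuous_pi fun j => continuous_finsetSum _ fun s _ => ?_
  refine Continuous.mul ?_ (continuous_finsetProd _ fun i _ => ?_)
  · exact (continuous_apply s).comp ((continuous_apply j).comp continuous_fst)
  · exact ((continuous_apply i).comp continuous_snd).pow _

theorem pol_cont_x (l : ℕ) (z : Fin n → ℂ) :
    Continuous (fun x : Fin N → FD n l → ℂ => ev (pol l x) z) := by
  simp_rw [ev_pol]
  refine continuous_pi fun j => continuous_finsetSum _ fun s _ => ?_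
  exact (continuous_apply_apply j s).mul continuous_const

theorem size_exists (h : Fin N → MP n) : ∃ Λ : ℕ, Sz Λ h := by
  classical
  have h1 : ∀ j : Fin N, ∃ Λ : ℕ, Rg 0 Λ (h j) ∧ ∀ s, ‖(h j).coeff s‖ ≤ Λ := by
    intro j
    obtain ⟨m, hm⟩ := exists_nat_ge (∑ s ∈ (h j).support, ‖(h j).coeff s‖)
    refine ⟨max (h j).totalDegree m, Rg.deg (le_max_left _ _) (fun _ _ => Nat.zero_le _),
      fun s => ?_⟩
    have hm' : (m : ℝ) ≤ ((max (h j).totalDegree m : ℕ) : ℝ) := by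
      exact_mod_cast le_max_right _ _
    by_cases hs : s ∈ (h j).support
    · exact ((Finset.single_le_sum (f := fun s => ‖(h j).coeff s‖) (fun _ _ => norm_nonneg _)
        hs).trans hm).trans hm'
    · rw [notMem_support_iff.1 hs, norm_zero]
      exact Nat.cast_nonneg _
  choose Λ h2 h3 using h1
  refine ⟨Finset.univ.sup Λ, fun j => ⟨(h2 j).mono le_rfl
    (Finset.le_sup (f := Λ) (Finset.mem_univ j)), fun s => (h3 j s).trans ?_⟩⟩
  exact_mod_cast Finset.le_sup (f := Λ) (Finset.mem_univ j)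

theorem Sz.mono {D D' : ℕ} {p : Fin N → MP n} (h : Sz D p) (hD : D ≤ D') : Sz D' p := fun j =>
  ⟨(h j).1.mono le_rfl hD, fun s => ((h j).2 s).trans (by exact_mod_cast hD)⟩

/-- the coefficients of admissible polynomials -/
def CC (n N l : ℕ) (c : ℝ) : Set (Fin N → FD n l → ℂ) :=
  {x | ∀ z ∈ CB n, c ≤ nsq (ev (pol l x) z) ∧ nsq (ev (pol l x) z) ≤ 4}

theorem CC_compact (n N l : ℕ) (c : ℝ) : IsCompact (CC n N l c) := by
  have hcx : ∀ z : Fin n → ℂ, Continuous (fun x : Fin N → FD n l → ℂ => nsq (ev (pol l x) z)) :=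
    fun z => nsq_cont.comp (pol_cont_x l z)
  refine Metric.isCompact_of_isClosed_isBounded ?_ ?_
  · have : CC n N l c = ⋂ z ∈ CB n, {x | c ≤ nsq (ev (pol l x) z) ∧ nsq (ev (pol l x) z) ≤ 4} := by
      ext x
      simp [CC]
    rw [this]
    exact isClosed_biInter fun z _ =>
      (isClosed_le continuous_const (hcx z)).inter (isClosed_le (hcx z) continuous_const)
  · obtain ⟨C, hC0, hC⟩ := coeff_bound n l
    rw [isBounded_iff_forall_norm_le]
    refine ⟨C * 2, fun x hx => ?_⟩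
    rw [pi_norm_le_iff_of_nonneg (by positivity)]
    intro j
    rw [pi_norm_le_iff_of_nonneg (by positivity)]
    intro s
    rw [← pol_coeff l x j s]
    refine hC (pol l x j) (pol_Rg l x j) 2 (fun z hz => ?_) s
    have h1 := (hx z (by change nsq z ≤ 1; linarith)).2
    have h2 := le_nsq (ev (pol l x) z) j
    have h3 : ‖ev (pol l x) z j‖ ^ 2 ≤ 2 ^ 2 := by linarith
    exact le_of_sq_le_sq h3 (by norm_num)

theorem key_loc {l : ℕ} {ε : ℝ} (x : Fin N → FD n l → ℂ) (h : Fin N → MP n)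
    (hh : ∀ z ∈ CB n, ‖bd (ev (pol l x) z) (ev h z) - 1‖ < ε) :
    ∀ᶠ x' in nhds x, ∀ z ∈ CB n, ‖bd (ev (pol l x') z) (ev h z) - 1‖ < ε := by
  have hF : Continuous (fun y : (Fin N → FD n l → ℂ) × (Fin n → ℂ) =>
      ‖bd (ev (pol l y.1) y.2) (ev h y.2) - 1‖) := by
    have h1 : Continuous (fun y : (Fin N → FD n l → ℂ) × (Fin n → ℂ) =>
        bd (ev (pol l y.1) y.2) (ev h y.2)) :=
      bd_cont.comp ((pol_cont l).prodMk ((ev_cont h).comp continuous_snd))
    exact (h1.sub continuous_const).norm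
  refine (CB_compact n).eventually_forall_of_forall_eventually fun z hz => ?_
  exact hF.continuousAt.eventually_lt continuousAt_const (hh z hz)

theorem key (n N l : ℕ) {c ε : ℝ} (hc : 0 < c) (hε : 0 < ε) : ∃ Λ : ℕ, ∀ x ∈ CC n N l c,
    ∃ h : Fin N → MP n, Sz Λ h ∧ ∀ z ∈ CB n, ‖bd (ev (pol l x) z) (ev h z) - 1‖ ≤ ε := by
  refine (CC_compact n N l c).induction_on (p := fun t => ∃ Λ : ℕ, ∀ x ∈ t,
    ∃ h : Fin N → MP n, Sz Λ h ∧ ∀ z ∈ CB n, ‖bd (ev (pol l x) z) (ev h z) - 1‖ ≤ ε)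
    ⟨0, fun x hx => absurd hx (notMem_empty x)⟩ ?_ ?_ ?_
  · rintro s t hst ⟨Λ, hΛ⟩
    exact ⟨Λ, fun x hx => hΛ x (hst hx)⟩
  · rintro s t ⟨Λ1, h1⟩ ⟨Λ2, h2⟩
    refine ⟨max Λ1 Λ2, fun x hx => ?_⟩
    rcases hx with hx | hx
    · obtain ⟨h, hs, hh⟩ := h1 x hx
      exact ⟨h, hs.mono (le_max_left _ _), hh⟩
    · obtain ⟨h, hs, hh⟩ := h2 x hx
      exact ⟨h, hs.mono (le_max_right _ _), hh⟩
  · intro x hx
    obtain ⟨h, hh⟩ := bez_one (pol l x) (fun z hz => lt_of_lt_of_le hc (hx z hz).1)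
      (half_pos hε)
    have htube := key_loc x h (ε := ε) (fun z hz => (hh z hz).trans_lt (by linarith))
    obtain ⟨Λ, hΛ⟩ := size_exists h
    exact ⟨_, mem_nhdsWithin_of_mem_nhds htube, Λ, fun x' hx' => ⟨h, hΛ, fun z hz => (hx' z hz).le⟩⟩

/-- **The uniform approximate Bezout identity.** -/
theorem bez_unif (n N l : ℕ) {c ε : ℝ} (hc : 0 < c) (hε : 0 < ε) : ∃ Λ : ℕ, ∀ f : Fin N → MP n,
    (∀ j, Rg 0 l (f j)) → (∀ z ∈ Bal n, c ≤ nsq (ev f z) ∧ nsq (ev f z) ≤ 4) →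
    ∃ h : Fin N → MP n, Sz Λ h ∧ ∀ z ∈ Bal n, ‖bd (ev f z) (ev h z) - 1‖ ≤ ε := by
  obtain ⟨Λ, hΛ⟩ := key n N l hc hε
  refine ⟨Λ, fun f hf hfb => ?_⟩
  have hfc : Continuous (fun z : Fin n → ℂ => nsq (ev f z)) := nsq_cont.comp (ev_cont f)
  obtain ⟨h, hs, hh⟩ := hΛ (fun j s => (f j).coeff (s : Fin n →₀ ℕ)) (by
    intro z hz
    rw [pol_eq hf]
    constructor
    · have := le_CB (g := fun z => -nsq (ev f z)) hfc.neg (M := -c)
        (fun z hz => neg_le_neg (hfb z hz).1) hz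
      linarith
    · exact le_CB hfc (fun z hz => (hfb z hz).2) hz)
  refine ⟨h, hs, fun z hz => ?_⟩
  have h1 := hh z (by change nsq z ≤ 1; exact le_of_lt hz)
  rwa [pol_eq hf] at h1

end Pool.Agent.K9h23.Lac
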