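import Mathlib
import Pool.Agent.K9h23.Lac.BezU

/-!
The transition from one scale to the next one.
-/

set_option autoImplicit false

open Complex MvPolynomial Set

namespace Pool.Agent.K9h23.Lac

variable {n N : ℕ}

/-- the euclidean norm -/
noncomputable def nn (u : Fin N → ℂ) : ℝ := Real.sqrt (nsq u)

theorem nn_nonneg (u : Fin N → ℂ) : 0 ≤ nn u := Real.sqrt_nonneg _

theorem nn_sq (u : Fin N → ℂ) : nn u ^ 2 = nsq u := Real.sq_sqrt (nsq_nonneg _)

theorem nn_norm (u : Fin N → ℂ) : nn u = ‖(WithLp.toLp 2 u : EuclideanSpace ℂ (Fin N))‖ := by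
  unfold nn
  rw [← nn_eq, Real.sqrt_sq (norm_nonneg _)]

theorem nn_add_le (u v : Fin N → ℂ) : nn (fun j => u j + v j) ≤ nn u + nn v := by
  rw [nn_norm, nn_norm, nn_norm]
  exact norm_add_le (WithLp.toLp 2 u : EuclideanSpace ℂ (Fin N)) (WithLp.toLp 2 v)

theorem nn_le_of {u : Fin N → ℂ} {M : ℝ} (hM : 0 ≤ M) (h : nsq u ≤ M ^ 2) : nn u ≤ M := by
  unfold nn
  rw [Real.sqrt_le_left hM]
  exact h

theorem nn_le_comp {u : Fin N → ℂ} {η : ℝ} (hη : 0 ≤ η) (h : ∀ j, ‖u j‖ ≤ η) :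
    nn u ≤ (N + 1) * η := by
  apply nn_le_of (by positivity)
  unfold nsq
  have h1 : ∀ j ∈ Finset.univ, ‖u j‖ ^ 2 ≤ η ^ 2 := fun j _ =>
    pow_le_pow_left₀ (norm_nonneg _) (h j) 2
  refine (Finset.sum_le_card_nsmul _ _ _ h1).trans ?_
  rw [nsmul_eq_mul, Finset.card_univ, Fintype.card_fin, mul_pow]
  have h2 : (N:ℝ) ≤ (N + 1) ^ 2 := by
    have : (0:ℝ) ≤ N := Nat.cast_nonneg _
    nlinarith
  gcongr

theorem comp_le_nn (u : Fin N → ℂ) (j : Fin N) : ‖u j‖ ≤ nn u := by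
  unfold nn
  apply Real.le_sqrt_of_sq_le
  exact le_nsq u j

theorem bd_le_nn (u v : Fin N → ℂ) : ‖bd u v‖ ≤ nn u * nn v := by
  have h := bd_le u v
  rw [← nn_sq, ← nn_sq, ← mul_pow] at h
  exact le_of_sq_le_sq h (mul_nonneg (nn_nonneg _) (nn_nonneg _))

theorem nsq_Hn {x : (Fin N → ℂ) × (Fin N → ℂ)} : nn (Hn x) = nn x.2 / ‖bd x.1 x.2‖ := by
  have h1 : nsq (Hn x) = nsq x.2 / ‖bd x.1 x.2‖ ^ 2 := by
    unfold nsq Hn
    rw [Finset.sum_div]
    refine Finset.sum_congr rfl fun j _ => ?_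
    rw [norm_div, div_pow]
  unfold nn
  rw [h1, Real.sqrt_div (nsq_nonneg _), Real.sqrt_sq (norm_nonneg _)]

/-- the norm of the step -/
theorem GG_nn {A : ℝ} {a H v : Fin N → ℂ} (h : Adm A a v) (h1 : bd a H = 1) {P : ℝ} (hP : 0 ≤ P)
    (hH : nn H ≤ P * Real.exp (A * nsq a / 2)) :
    nn (GG A a H v) ≤ max P (20 * Real.sqrt A) *
      Real.exp (A * nsq (fun j => a j + v j) / 2) := by
  have hA0 : 0 < A := by linarith [h.hA]
  obtain ⟨-, h2⟩ := GG_prop h h1
  apply nn_le_of (by positivity)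
  refine h2.trans ?_
  rw [mul_pow]
  have e1 : Real.exp (A * nsq (fun j => a j + v j) / 2) ^ 2 =
      Real.exp (A * nsq (fun j => a j + v j)) := by
    rw [← Real.exp_nat_mul]
    congr 1
    push_cast
    ring
  rw [e1]
  gcongr
  refine max_le ?_ ?_
  · have h3 : nsq H ≤ (P * Real.exp (A * nsq a / 2)) ^ 2 := by
      rw [← nn_sq]
      exact pow_le_pow_left₀ (nn_nonneg _) hH 2
    have h4 : (P * Real.exp (A * nsq a / 2)) ^ 2 = P ^ 2 * Real.exp (A * nsq a) := by
      rw [mul_pow, ← Real.exp_nat_mul]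
      congr 2
      push_cast
      ring
    rw [h4] at h3
    calc nsq H * Real.exp (-(A * nsq a)) ≤ P ^ 2 * Real.exp (A * nsq a) *
          Real.exp (-(A * nsq a)) := by gcongr
      _ = P ^ 2 := by rw [mul_assoc, ← Real.exp_add]; simp
      _ ≤ _ := pow_le_pow_left₀ hP (le_max_left _ _) 2
  · have h5 : (20 * Real.sqrt A) ^ 2 = 400 * A := by
      rw [mul_pow, Real.sq_sqrt hA0.le]
      norm_num
    rw [← h5]
    exact pow_le_pow_left₀ (by positivity) (le_max_right _ _) 2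

/-- **The transition.** -/
theorem trans {A : ℝ} {D D' : ℕ} (d : Dt n N) (hd : AdD A D d) (hs p : Fin N → MP n) {η τ P : ℝ}
    (hη : 0 ≤ η) (hη1 : η ≤ 1) (hτ : τ ≤ 1 / 8) (hP : 0 ≤ P)
    (hcl : ∀ z ∈ Bal n, ∀ j, ‖eval z (hs j) - Hn (ev d.f z, ev d.h z) j‖ ≤ η ∧
        ‖eval z (p j) - (GG A (ev d.f z) (Hn (ev d.f z, ev d.h z)) (ev d.q z) j -
          Hn (ev d.f z, ev d.h z) j)‖ ≤ η)
    (hp : ∀ j, Rg D D' (p j))
    (hbz : ∀ z ∈ Bal n, ‖bd (ev d.f z) (ev d.h z) - 1‖ ≤ τ)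
    (hh : ∀ z ∈ Bal n, nn (ev d.h z) ≤ P * Real.exp (A * nsq (ev d.f z) / 2))
    (hg4 : ∀ z ∈ Bal n, nsq (ev (fun j => d.f j + d.q j) z) ≤ 4) :
    (∀ z ∈ Bal n, ‖bd (ev (fun j => d.f j + d.q j) z) (ev (fun j => hs j + p j) z) - 1‖ ≤
      4 * (N + 1) * η) ∧
    (∀ z ∈ Bal n, nn (ev (fun j => hs j + p j) z) ≤
      (max (P / (1 - τ)) (20 * Real.sqrt A) + 2 * (N + 1) * η) *
        Real.exp (A * nsq (ev (fun j => d.f j + d.q j) z) / 2)) ∧
    ∀ r : ℝ, 0 < r → r < 1 → ∀ z : Fin n → ℂ, nsq z ≤ r ^ 2 → ∀ j,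
      ‖eval z (hs j + p j) - eval z (d.h j)‖ ≤ η + 2 * τ * (P * Real.exp (2 * A)) +
        (1 + 2 * (max (P / (1 - τ)) (20 * Real.sqrt A) * Real.exp (2 * A))) * r ^ D := by
  have hA0 : ∀ z ∈ Bal n, 0 < A := fun z hz => by linarith [(hd.ad z hz).hA]
  have evf : ∀ z, ev (fun j => d.f j + d.q j) z = fun j => ev d.f z j + ev d.q z j := by
    intro z; funext j; unfold ev; rw [map_add]
  have hb : ∀ z ∈ Bal n, 1 - τ ≤ ‖bd (ev d.f z) (ev d.h z)‖ := by
    intro z hz
    have h1 := hbz z hz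
    have h2 : ‖(1:ℂ)‖ ≤ ‖bd (ev d.f z) (ev d.h z)‖ + ‖bd (ev d.f z) (ev d.h z) - 1‖ := by
      calc ‖(1:ℂ)‖ = ‖bd (ev d.f z) (ev d.h z) - (bd (ev d.f z) (ev d.h z) - 1)‖ := by ring_nf
        _ ≤ _ := norm_sub_le _ _
    rw [norm_one] at h2
    linarith
  have h1τ : 0 < 1 - τ := by linarith
  have hHn : ∀ z ∈ Bal n, nn (Hn (ev d.f z, ev d.h z)) ≤
      P / (1 - τ) * Real.exp (A * nsq (ev d.f z) / 2) := by
    intro z hz
    rw [nsq_Hn]
    simp only
    have h1 := hb z hz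
    rw [div_le_iff₀ (by linarith)]
    have h2 := hh z hz
    have h3 : P * Real.exp (A * nsq (ev d.f z) / 2) =
        P / (1 - τ) * Real.exp (A * nsq (ev d.f z) / 2) * (1 - τ) := by
      field_simp
    rw [h3] at h2
    refine h2.trans ?_
    have : 0 ≤ P / (1 - τ) * Real.exp (A * nsq (ev d.f z) / 2) := by positivity
    gcongr
  have hGG : ∀ z ∈ Bal n, nn (GG A (ev d.f z) (Hn (ev d.f z, ev d.h z)) (ev d.q z)) ≤
      max (P / (1 - τ)) (20 * Real.sqrt A) *
        Real.exp (A * nsq (ev (fun j => d.f j + d.q j) z) / 2) := by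
    intro z hz
    rw [evf]
    exact GG_nn (hd.ad z hz) (bd_Hn (x := (ev d.f z, ev d.h z)) (hd.bz z hz)) (by positivity)
      (hHn z hz)
  -- the error
  set e : (Fin n → ℂ) → Fin N → ℂ := fun z j => eval z (hs j + p j) -
    GG A (ev d.f z) (Hn (ev d.f z, ev d.h z)) (ev d.q z) j with he
  have hev : ∀ z, ev (fun j => hs j + p j) z = fun j =>
      GG A (ev d.f z) (Hn (ev d.f z, ev d.h z)) (ev d.q z) j + e z j := by
    intro z; funext j; rw [he]; unfold ev; ring
  have hee : ∀ z ∈ Bal n, nn (e z) ≤ (N + 1) * (2 * η) := by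
    intro z hz
    apply nn_le_comp (by positivity)
    intro j
    obtain ⟨h1, h2⟩ := hcl z hz j
    have h3 : e z j = (eval z (hs j) - Hn (ev d.f z, ev d.h z) j) +
        (eval z (p j) - (GG A (ev d.f z) (Hn (ev d.f z, ev d.h z)) (ev d.q z) j -
          Hn (ev d.f z, ev d.h z) j)) := by
      rw [he]
      simp only [map_add]
      ring
    rw [h3]
    refine (norm_add_le _ _).trans ?_
    linarith
  have bdadd : ∀ (u v w : Fin N → ℂ), bd u (fun j => v j + w j) = bd u v + bd u w := by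
    intro u v w
    unfold bd
    rw [← Finset.sum_add_distrib]
    refine Finset.sum_congr rfl fun j _ => ?_
    ring
  refine ⟨fun z hz => ?_, fun z hz => ?_, fun r hr0 hr1 z hz j => ?_⟩
  · rw [hev z, bdadd]
    have h1 : bd (ev (fun j => d.f j + d.q j) z)
        (GG A (ev d.f z) (Hn (ev d.f z, ev d.h z)) (ev d.q z)) = 1 := by
      rw [evf]
      exact (GG_prop (hd.ad z hz) (bd_Hn (x := (ev d.f z, ev d.h z)) (hd.bz z hz))).1
    have h2 : bd (ev (fun j => d.f j + d.q j) z)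
        (fun j => GG A (ev d.f z) (Hn (ev d.f z, ev d.h z)) (ev d.q z) j) = 1 := h1
    rw [h2, add_sub_cancel_left]
    have h3 := bd_le_nn (ev (fun j => d.f j + d.q j) z) (e z)
    have h4 : nn (ev (fun j => d.f j + d.q j) z) ≤ 2 :=
      nn_le_of (by norm_num) ((hg4 z hz).trans (by norm_num))
    refine h3.trans ?_
    calc nn (ev (fun j => d.f j + d.q j) z) * nn (e z) ≤ 2 * ((N + 1) * (2 * η)) :=
          mul_le_mul h4 (hee z hz) (nn_nonneg _) (by norm_num)
      _ = 4 * (N + 1) * η := by ring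
  · rw [hev z]
    refine (nn_add_le _ _).trans ?_
    have hE : 1 ≤ Real.exp (A * nsq (ev (fun j => d.f j + d.q j) z) / 2) := by
      apply Real.one_le_exp
      have := hA0 z hz
      have := nsq_nonneg (ev (fun j => d.f j + d.q j) z)
      positivity
    have h1 := hGG z hz
    have h2 := hee z hz
    have h3 : (N + 1) * (2 * η) ≤ 2 * (N + 1) * η *
        Real.exp (A * nsq (ev (fun j => d.f j + d.q j) z) / 2) := by
      have : 0 ≤ 2 * ((N:ℝ) + 1) * η := by positivity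
      nlinarith
    rw [add_mul]
    exact add_le_add h1 (h2.trans h3)
  · have hzB : z ∈ Bal n := by
      change nsq z < 1
      nlinarith
    have hA := hA0 z hzB
    have hexpf : Real.exp (A * nsq (ev d.f z) / 2) ≤ Real.exp (2 * A) := by
      apply Real.exp_le_exp.2
      have := (hd.ad z hzB).hs4
      nlinarith
    obtain ⟨h1, -⟩ := hcl z hzB j
    set b := bd (ev d.f z) (ev d.h z) with hbdef
    -- the second term
    have h2 : ‖Hn (ev d.f z, ev d.h z) j - eval z (d.h j)‖ ≤ 2 * τ * (P * Real.exp (2 * A)) := by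
      have hb1 := hb z hzB
      rw [← hbdef] at hb1
      have hb0 : b ≠ 0 := by
        intro h0
        rw [h0, norm_zero] at hb1
        linarith
      have e1 : Hn (ev d.f z, ev d.h z) j - eval z (d.h j) = eval z (d.h j) * ((1 - b) / b) := by
        unfold Hn
        simp only
        change eval z (d.h j) / b - eval z (d.h j) = _
        field_simp
      rw [e1, norm_mul, norm_div]
      have hbt : ‖1 - b‖ ≤ τ := by rw [norm_sub_rev]; exact hbz z hzB
      have hτ0 : 0 ≤ τ := (norm_nonneg _).trans hbt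
      have h3 : ‖1 - b‖ / ‖b‖ ≤ 2 * τ := by
        rw [div_le_iff₀ (by linarith)]
        nlinarith
      have h4 : ‖eval z (d.h j)‖ ≤ P * Real.exp (2 * A) :=
        (comp_le_nn (ev d.h z) j).trans ((hh z hzB).trans (by gcongr))
      calc ‖eval z (d.h j)‖ * (‖1 - b‖ / ‖b‖) ≤ (P * Real.exp (2 * A)) * (2 * τ) :=
            mul_le_mul h4 h3 (by positivity) (by positivity)
        _ = _ := by ring
    -- the third term
    have h3 : ‖eval z (p j)‖ ≤
        (1 + 2 * (max (P / (1 - τ)) (20 * Real.sqrt A) * Real.exp (2 * A))) * r ^ D := by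
      refine schwarz (hp j) (fun z hz => ?_) hr0 hr1 hz
      obtain ⟨-, h4⟩ := hcl z hz j
      have hexpf' : Real.exp (A * nsq (ev d.f z) / 2) ≤ Real.exp (2 * A) := by
        apply Real.exp_le_exp.2
        have := (hd.ad z hz).hs4
        nlinarith
      have hexpg : Real.exp (A * nsq (ev (fun j => d.f j + d.q j) z) / 2) ≤ Real.exp (2 * A) := by
        apply Real.exp_le_exp.2
        have := hg4 z hz
        nlinarith
      have h5 : ‖GG A (ev d.f z) (Hn (ev d.f z, ev d.h z)) (ev d.q z) j‖ ≤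
          max (P / (1 - τ)) (20 * Real.sqrt A) * Real.exp (2 * A) :=
        (comp_le_nn _ j).trans ((hGG z hz).trans (by gcongr))
      have h6 : ‖Hn (ev d.f z, ev d.h z) j‖ ≤
          max (P / (1 - τ)) (20 * Real.sqrt A) * Real.exp (2 * A) := by
        refine (comp_le_nn _ j).trans ((hHn z hz).trans ?_)
        gcongr
        exact le_max_left _ _
      set G := GG A (ev d.f z) (Hn (ev d.f z, ev d.h z)) (ev d.q z) j
      set H := Hn (ev d.f z, ev d.h z) j
      have h7 : eval z (p j) = (eval z (p j) - (G - H)) + (G - H) := by ring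
      rw [h7]
      calc ‖(eval z (p j) - (G - H)) + (G - H)‖ ≤ ‖eval z (p j) - (G - H)‖ + (‖G‖ + ‖H‖) :=
            (norm_add_le _ _).trans (by gcongr; exact norm_sub_le _ _)
        _ ≤ _ := by linarith
    have h4 : eval z (hs j + p j) - eval z (d.h j) =
        (eval z (hs j) - Hn (ev d.f z, ev d.h z) j) +
        (Hn (ev d.f z, ev d.h z) j - eval z (d.h j)) + eval z (p j) := by
      rw [map_add]
      ring
    rw [h4]
    refine (norm_add_le _ _).trans (add_le_add ((norm_add_le _ _).trans (add_le_add h1 h2)) h3)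

end Pool.Agent.K9h23.Lac
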