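import Mathlib
import Pool.Agent.K9h23.Lac.Trans

/-!
Partial sums of series of polynomials with gaps.
-/

set_option autoImplicit false

open Complex MvPolynomial Set

namespace Pool.Agent.K9h23.Lac

variable {n N : ℕ}

/-- partial sums -/
noncomputable def PS (Q : ℕ → Fin N → MP n) (m : ℕ) (j : Fin N) : MP n :=
  ∑ i ∈ Finset.range (m + 1), Q i j

theorem PS_succ (Q : ℕ → Fin N → MP n) (m : ℕ) :
    PS Q (m + 1) = fun j => PS Q m j + Q (m + 1) j := by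
  funext j
  unfold PS
  rw [Finset.sum_range_succ]

theorem PS_Rg {Q : ℕ → Fin N → MP n} {l : ℕ → ℕ} (hl : Monotone l)
    (hQ : ∀ m j, Rg 0 (l m) (Q m j)) (m : ℕ) (j : Fin N) : Rg 0 (l m) (PS Q m j) := by
  unfold PS
  refine Rg.sum _ _ fun i hi => (hQ i j).mono le_rfl (hl ?_)
  have := Finset.mem_range.1 hi
  omega

/-- the data -/
structure Gap (F : ℕ → ℕ) (Q : ℕ → Fin N → MP n) (l : ℕ → ℕ) (f : Fin N → (Fin n → ℂ) → ℂ)
    (m0 : ℕ) : Prop where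
  hl : StrictMono l
  hQ : ∀ m j, Rg 0 (l m) (Q m j)
  hf : ∀ j, ∀ z ∈ Bal n, HasSum (fun m => eval z (Q m j)) (f j z)
  hg : ∀ m, m0 ≤ m → ∀ j, Rg (F (l m)) (l (m + 1)) (Q (m + 1) j)
  hb : ∀ m, m0 ≤ m → ∀ j, ∀ z ∈ Bal n, ‖eval z (Q (m + 1) j)‖ ≤ 1
  hf1 : ∀ j, ∀ z ∈ Bal n, ‖f j z‖ ≤ 1

/-- the tails -/
theorem Gap.tail {F G : ℕ → ℕ} {Q : ℕ → Fin N → MP n} {l : ℕ → ℕ}
    {f : Fin N → (Fin n → ℂ) → ℂ} {m0 : ℕ} (h : Gap F Q l f m0)
    (hG : ∀ a b, a ≤ b → G a + b ≤ F b) {m : ℕ} (hm : m0 ≤ m) {r : ℝ} (hr0 : 0 < r) (hr1 : r < 1)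
    {z : Fin n → ℂ} (hz : nsq z ≤ r ^ 2) (j : Fin N) :
    ‖f j z - eval z (PS Q m j)‖ ≤ r ^ (G (l m)) / (1 - r) := by
  have hzB : z ∈ Bal n := by
    change nsq z < 1
    nlinarith
  have h1 := (hasSum_nat_add_iff' (m + 1)).2 (h.hf j z hzB)
  have h2 : ∑ i ∈ Finset.range (m + 1), eval z (Q i j) = eval z (PS Q m j) := by
    unfold PS
    rw [map_sum]
  rw [h2] at h1
  have h3 : HasSum (fun i : ℕ => r ^ (G (l m)) * r ^ i) (r ^ (G (l m)) * (1 - r)⁻¹) :=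
    (hasSum_geometric_of_lt_one hr0.le hr1).mul_left _
  rw [div_eq_mul_inv]
  refine h1.norm_le_of_bounded h3 fun i => ?_
  have hi : m0 ≤ m + i := by omega
  have h4 := h.hg (m + i) hi j
  have h5 := schwarz h4 (h.hb (m + i) hi j) hr0 hr1 hz
  rw [one_mul] at h5
  have e1 : i + (m + 1) = m + i + 1 := by ring
  rw [e1]
  refine h5.trans ?_
  rw [← pow_add]
  refine pow_le_pow_of_le_one hr0.le hr1.le ?_
  have h6 : l m ≤ l (m + i) := h.hl.monotone (by omega)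
  have h7 := hG (l m) (l (m + i)) h6
  have h8 : m + i ≤ l (m + i) := h.hl.id_le _
  omega

/-- **The partial sums are close to the values of the sum.** -/
theorem gap_close (n : ℕ) {κ : ℝ} (hκ : 0 < κ) : ∃ G : ℕ → ℕ, ∀ (N : ℕ) (F : ℕ → ℕ)
    (Q : ℕ → Fin N → MP n) (l : ℕ → ℕ) (f : Fin N → (Fin n → ℂ) → ℂ) (m0 : ℕ),
    (∀ a b, a ≤ b → G a + b ≤ F b) → Gap F Q l f m0 → ∀ m, m0 ≤ m →
    (∀ j, ∀ z : Fin n → ℂ, nsq z < 1 / 4 → ‖eval z (PS Q m j)‖ ≤ 2) ∧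
    ∀ z ∈ Bal n, ∃ z' ∈ Bal n, ∀ j, ‖eval z (PS Q m j) - f j z'‖ ≤ κ := by
  choose r hr0 hr1 hr using fun l : ℕ =>
    dil_close n l (show (0:ℝ) ≤ 2 by norm_num) (half_pos hκ)
  have hG : ∀ l : ℕ, ∃ G : ℕ, 1 ≤ G ∧ (r l) ^ G / (1 - r l) ≤ κ / 2 := by
    intro l
    have h1 : 0 < 1 - r l := by linarith [hr1 l]
    obtain ⟨G, hG⟩ := exists_pow_lt_of_lt_one (show 0 < κ / 2 * (1 - r l) by positivity) (hr1 l)
    refine ⟨G + 1, by omega, ?_⟩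
    rw [div_le_iff₀ h1]
    refine le_trans ?_ hG.le
    exact pow_le_pow_of_le_one (hr0 l).le (hr1 l).le (by omega)
  choose G hG1 hG2 using hG
  refine ⟨G, fun N F Q l f m0 hGF h m hm => ?_⟩
  have hM : ∀ j, ∀ z : Fin n → ℂ, nsq z < 1 / 4 → ‖eval z (PS Q m j)‖ ≤ 2 := by
    intro j z hz
    have hzB : z ∈ Bal n := by
      change nsq z < 1
      linarith
    have h1 := h.tail hGF hm (r := 1 / 2) (by norm_num) (by norm_num) (z := z)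
      (by norm_num at hz ⊢; linarith) j
    have h2 : (1 / 2 : ℝ) ^ (G (l m)) / (1 - 1 / 2) ≤ 1 := by
      have : (1 / 2 : ℝ) ^ (G (l m)) ≤ (1 / 2) ^ 1 :=
        pow_le_pow_of_le_one (by norm_num) (by norm_num) (hG1 _)
      norm_num at this ⊢
      linarith
    have h3 := h.hf1 j z hzB
    have h4 : ‖eval z (PS Q m j)‖ ≤ ‖f j z‖ + ‖f j z - eval z (PS Q m j)‖ := by
      calc ‖eval z (PS Q m j)‖ = ‖f j z - (f j z - eval z (PS Q m j))‖ := by ring_nf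
        _ ≤ _ := norm_sub_le _ _
    linarith
  refine ⟨hM, fun z hz => ?_⟩
  have hz1 : nsq z < 1 := hz
  set ρ := r (l m) with hρ
  have hnz : nsq (fun j => (ρ:ℂ) * z j) ≤ ρ ^ 2 := by
    rw [nsq_smul', Complex.norm_real, Real.norm_of_nonneg (hr0 _).le]
    nlinarith [sq_nonneg ρ]
  refine ⟨fun j => (ρ:ℂ) * z j, ?_, fun j => ?_⟩
  · change nsq (fun j => (ρ:ℂ) * z j) < 1
    have := hr1 (l m)
    have := hr0 (l m)
    nlinarith
  · have h1 := hr (l m) (PS Q m j) (PS_Rg h.hl.monotone h.hQ m j) (hM j) z hz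
    have h2 := h.tail hGF hm (hr0 _) (hr1 _) hnz j
    have h3 := h2.trans (hG2 (l m))
    have h4 : eval z (PS Q m j) - f j (fun j => (ρ:ℂ) * z j) =
        (eval z (PS Q m j) - eval (fun j => (ρ:ℂ) * z j) (PS Q m j)) -
        (f j (fun j => (ρ:ℂ) * z j) - eval (fun j => (ρ:ℂ) * z j) (PS Q m j)) := by ring
    rw [h4]
    refine (norm_sub_le _ _).trans ?_
    linarith

end Pool.Agent.K9h23.Lac
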