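import Mathlib
import Pool.Agent.K9h23.Lac.Sums
import Pool.Agent.Y263.GF.Osg

/-!
The iteration over all scales.
-/

set_option autoImplicit false

open Complex MvPolynomial Set Filter Topology

namespace Pool.Agent.K9h23.Lac

variable {n N : ℕ}

/-- the accuracy of a step -/
noncomputable def eta (N D : ℕ) : ℝ := (1 / 2) ^ D / (4 * (N + 1))

theorem eta_pos (N D : ℕ) : 0 < eta N D := by unfold eta; positivity

theorem isOpen_Bal (n : ℕ) : IsOpen (Bal n) := isOpen_lt nsq_cont continuous_const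

/-- limits of polynomials -/
theorem limit_fun {h : ℕ → MP n} {C1 M : ℝ}
    (hcl : ∀ k : ℕ, ∀ r : ℝ, 0 < r → r < 1 → ∀ z : Fin n → ℂ, nsq z ≤ r ^ 2 →
      ‖eval z (h (k + 1)) - eval z (h k)‖ ≤ C1 * ((1 / 2) ^ k + r ^ k))
    (hM : ∀ k, ∀ z ∈ Bal n, ‖eval z (h k)‖ ≤ M) :
    ∃ g : (Fin n → ℂ) → ℂ, DifferentiableOn ℂ g (Bal n) ∧
      ∀ z ∈ Bal n, Tendsto (fun k => eval z (h k)) atTop (𝓝 (g z)) := by
  set g : (Fin n → ℂ) → ℂ := fun z => eval z (h 0) + ∑' k, (eval z (h (k + 1)) - eval z (h k))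
    with hg
  have hu : ∀ r : ℝ, 0 < r → r < 1 → Summable (fun k : ℕ => C1 * ((1 / 2 : ℝ) ^ k + r ^ k)) := by
    intro r hr0 hr1
    exact ((summable_geometric_of_lt_one (by norm_num) (by norm_num)).add
      (summable_geometric_of_lt_one hr0.le hr1)).mul_left _
  have hrad : ∀ z ∈ Bal n, ∃ r : ℝ, 0 < r ∧ r < 1 ∧ nsq z < r ^ 2 := by
    intro z hz
    have h1 : nsq z < 1 := hz
    have h0 := nsq_nonneg z
    refine ⟨Real.sqrt ((nsq z + 1) / 2), Real.sqrt_pos.2 (by linarith), ?_, ?_⟩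
    · rw [Real.sqrt_lt' one_pos]; linarith
    · rw [Real.sq_sqrt (by linarith)]; linarith
  have htend : ∀ z ∈ Bal n, Tendsto (fun k => eval z (h k)) atTop (𝓝 (g z)) := by
    intro z hz
    obtain ⟨r, hr0, hr1, hr⟩ := hrad z hz
    have h1 : Summable (fun k => eval z (h (k + 1)) - eval z (h k)) :=
      Summable.of_norm_bounded (hu r hr0 hr1) fun k => hcl k r hr0 hr1 z hr.le
    have h2 := h1.hasSum.tendsto_sum_nat
    have h3 := h2.const_add (eval z (h 0))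
    refine h3.congr fun k => ?_
    rw [Finset.sum_range_sub (fun k => eval z (h k))]
    ring
  refine ⟨g, ?_, htend⟩
  refine Pool.Agent.Y263.GF.osg_fin n (Bal n) g M (isOpen_Bal n) (fun z hz => ?_) ?_
  · exact le_of_tendsto (htend z hz).norm (Eventually.of_forall fun k => hM k z hz)
  · intro x hx v
    obtain ⟨r, hr0, hr1, hr⟩ := hrad x hx
    have hcont : Continuous (fun t : ℂ => nsq (x + t • v)) := nsq_cont.comp (by fun_prop)
    have hev : ∀ᶠ t in 𝓝 (0:ℂ), nsq (x + t • v) < r ^ 2 := by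
      refine hcont.continuousAt.eventually_lt continuousAt_const ?_
      simpa using hr
    obtain ⟨ρ, hρ, hρ2⟩ := Metric.eventually_nhds_iff_ball.1 hev
    have hl : ∀ p : MP n, Differentiable ℂ (fun t : ℂ => eval (x + t • v) p) := fun p =>
      line_diff p x v
    have hd : DifferentiableOn ℂ (fun t : ℂ =>
        ∑' k, (eval (x + t • v) (h (k + 1)) - eval (x + t • v) (h k))) (Metric.ball 0 ρ) := by
      refine differentiableOn_tsum_of_summable_norm (hu r hr0 hr1)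
        (fun k => ((hl _).sub (hl _)).differentiableOn) Metric.isOpen_ball fun k t ht => ?_
      exact hcl k r hr0 hr1 _ (hρ2 t ht).le
    have hd2 := ((hl (h 0)).differentiableOn (s := Metric.ball 0 ρ)).add hd
    exact (hd2.differentiableAt (Metric.ball_mem_nhds 0 hρ))

theorem bd_tendsto {u v : ℕ → Fin N → ℂ} {a b : Fin N → ℂ} (hu : Tendsto u atTop (𝓝 a))
    (hv : Tendsto v atTop (𝓝 b)) : Tendsto (fun k => bd (u k) (v k)) atTop (𝓝 (bd a b)) := by
  unfold bd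
  exact tendsto_finsetSum _ fun j _ => (tendsto_pi_nhds.1 hu j).mul (tendsto_pi_nhds.1 hv j)

theorem PS_tendsto {Q : ℕ → Fin N → MP n} {z : Fin n → ℂ} {j : Fin N} {a : ℂ}
    (h : HasSum (fun m => eval z (Q m j)) a) (m0 : ℕ) :
    Tendsto (fun k => ev (PS Q (m0 + k)) z j) atTop (𝓝 a) := by
  have h4 := h.tendsto_sum_nat.comp (tendsto_add_atTop_nat (m0 + 1))
  refine h4.congr fun k => ?_
  have e1 : ev (PS Q (m0 + k)) z j = ∑ i ∈ Finset.range (m0 + k + 1), eval z (Q i j) := by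
    unfold ev PS
    rw [map_sum]
  have e2 : k + (m0 + 1) = m0 + k + 1 := by omega
  rw [e1, ← e2]
  rfl

/-- **The iteration.** -/
theorem iterate {A : ℝ} (hA : 4 ≤ A) {K : ℕ → ℕ} {sD : ℕ → ℕ → ℕ}
    (hstep : ∀ D l : ℕ, ∀ d : Dt n N, AdD A D d → (∀ j, Rg (K D) l (d.q j)) →
      ∃ hs p : Fin N → MP n, Sz (sD D l) (fun j => hs j + p j) ∧ (∀ j, Rg D (sD D l) (p j)) ∧
        ∀ z ∈ Bal n, ∀ j, ‖eval z (hs j) - Hn (ev d.f z, ev d.h z) j‖ ≤ eta N D ∧
        ‖eval z (p j) - (GG A (ev d.f z) (Hn (ev d.f z, ev d.h z)) (ev d.q z) j -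
          Hn (ev d.f z, ev d.h z) j)‖ ≤ eta N D)
    {Dm : ℕ → ℕ} (hD8 : ∀ l, l + 8 ≤ Dm l) (hDs : ∀ l l', l < l' → sD (Dm l) l' ≤ Dm l')
    {F : ℕ → ℕ} (hF : ∀ l, K (Dm l) ≤ F l) {Q : ℕ → Fin N → MP n} {l : ℕ → ℕ}
    {f : Fin N → (Fin n → ℂ) → ℂ} {m0 : ℕ} (hgap : Gap F Q l f m0)
    (hsz : ∀ m, m0 ≤ m → Sz (Dm (l m)) (PS Q m))
    (hreg : ∀ m, m0 ≤ m → ∀ z ∈ Bal n, 16 ≤ A * nsq (ev (PS Q m) z) ∧ nsq (ev (PS Q m) z) ≤ 4)
    (hsm : ∀ m, m0 ≤ m → ∀ z ∈ Bal n, nsq (ev (Q (m + 1)) z) * (100 * A ^ 2) ^ 2 ≤ 1)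
    {B : ℝ} (hB1 : 1 ≤ B) (hB : 20 * Real.sqrt A ≤ B) (h0 : Fin N → MP n)
    (h0s : Sz (Dm (l m0)) h0)
    (h0b : ∀ z ∈ Bal n, ‖bd (ev (PS Q m0) z) (ev h0 z) - 1‖ ≤ 1 / 16)
    (h0n : ∀ z ∈ Bal n, nn (ev h0 z) ≤ B * Real.exp (A * nsq (ev (PS Q m0) z) / 2)) :
    ∃ g : Fin N → (Fin n → ℂ) → ℂ, (∀ j, DifferentiableOn ℂ (g j) (Bal n)) ∧
      (∀ z ∈ Bal n, nn (fun j => g j z) ≤ 2 * B * Real.exp (2 * A)) ∧
      ∀ z ∈ Bal n, ∑ j, f j z * g j z = 1 := by
  have hB0 : 0 < B := by linarith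
  have hA0 : 0 < A := by linarith
  set St : ℕ → (Fin N → MP n) → Prop := fun k h => Sz (Dm (l (m0 + k))) h ∧
    (∀ z ∈ Bal n, ‖bd (ev (PS Q (m0 + k)) z) (ev h z) - 1‖ ≤ (1 / 2) ^ (k + 4)) ∧
    (∀ z ∈ Bal n, nn (ev h z) ≤ B * (2 - (1 / 2) ^ k) *
      Real.exp (A * nsq (ev (PS Q (m0 + k)) z) / 2)) with hSt
  set C1 : ℝ := 1 + 4 * (B * Real.exp (2 * A)) with hC1
  have hC10 : 0 ≤ C1 := by positivity
  set Cl : ℕ → (Fin N → MP n) → (Fin N → MP n) → Prop := fun k h h' =>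
    ∀ r : ℝ, 0 < r → r < 1 → ∀ z : Fin n → ℂ, nsq z ≤ r ^ 2 → ∀ j,
      ‖eval z (h' j) - eval z (h j)‖ ≤ C1 * ((1 / 2) ^ k + r ^ k) with hCl
  have hnext : ∀ k h, St k h → ∃ h', St (k + 1) h' ∧ Cl k h h' := by
    intro k h ⟨s1, s2, s3⟩
    set D := Dm (l (m0 + k)) with hD
    have hkD : k + 8 ≤ D := by
      have h1 := hD8 (l (m0 + k))
      have h2 : m0 + k ≤ l (m0 + k) := hgap.hl.id_le _
      omega
    set d : Dt n N := ⟨PS Q (m0 + k), h, Q (m0 + k + 1)⟩ with hd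
    have hm : m0 ≤ m0 + k := Nat.le_add_right _ _
    have hpow4 : ((1:ℝ) / 2) ^ (k + 4) ≤ 1 / 16 := by
      rw [pow_add]
      have : ((1:ℝ) / 2) ^ k ≤ 1 := pow_le_one₀ (by norm_num) (by norm_num)
      norm_num
      norm_num at this
      linarith
    have hAd : AdD A D d := by
      refine ⟨hsz _ hm, s1, fun z hz => ⟨hA, (hreg _ hm z hz).1, (hreg _ hm z hz).2, ?_⟩,
        fun z hz => ?_⟩
      · exact hsm _ hm z hz
      · refine (s2 z hz).trans ?_
        linarith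
    have hq : ∀ j, Rg (K D) (l (m0 + k + 1)) (d.q j) := fun j =>
      (hgap.hg _ hm j).mono (hF _) le_rfl
    obtain ⟨hs, p, c1, c2, c3⟩ := hstep D (l (m0 + k + 1)) d hAd hq
    have hη0 := eta_pos N D
    have hηD : 4 * (N + 1) * eta N D = (1 / 2) ^ D := by
      unfold eta
      field_simp
    have hpowD : ((1:ℝ) / 2) ^ D ≤ (1 / 2) ^ (k + 8) :=
      pow_le_pow_of_le_one (by norm_num) (by norm_num) hkD
    have hpk : (0:ℝ) < (1 / 2) ^ k := by positivity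
    have hpk1 : ((1:ℝ) / 2) ^ k ≤ 1 := pow_le_one₀ (by norm_num) (by norm_num)
    have e8 : ((1:ℝ) / 2) ^ (k + 8) = (1 / 2) ^ k / 256 := by rw [pow_add]; norm_num; ring
    have e4 : ((1:ℝ) / 2) ^ (k + 4) = (1 / 2) ^ k / 16 := by rw [pow_add]; norm_num; ring
    have e5 : ((1:ℝ) / 2) ^ (k + 1 + 4) = (1 / 2) ^ k / 32 := by
      rw [add_assoc, pow_add]; norm_num; ring
    have e1 : ((1:ℝ) / 2) ^ (k + 1) = (1 / 2) ^ k / 2 := by rw [pow_succ]; ring
    have hη1 : eta N D ≤ (1 / 2) ^ (k + 8) := by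
      have h1 : eta N D ≤ 4 * (N + 1) * eta N D := by
        have : (1:ℝ) ≤ 4 * (N + 1) := by
          have : (0:ℝ) ≤ N := Nat.cast_nonneg _
          linarith
        nlinarith
      linarith
    have hP0 : 0 ≤ B * (2 - (1 / 2) ^ k) := by
      apply mul_nonneg hB0.le
      linarith
    have hPS : (fun j => d.f j + d.q j) = PS Q (m0 + (k + 1)) := by
      rw [← add_assoc, PS_succ]
    have hm1 : m0 ≤ m0 + (k + 1) := Nat.le_add_right _ _
    obtain ⟨t1, t2, t3⟩ := trans d hAd hs p hη0.le (by linarith) (τ := (1 / 2) ^ (k + 4))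
      (P := B * (2 - (1 / 2) ^ k)) (by linarith) hP0 c3 c2 s2 s3
      (fun z hz => by rw [hPS]; exact (hreg _ hm1 z hz).2)
    rw [hPS] at t1 t2
    have hmax : max (B * (2 - (1 / 2) ^ k) / (1 - (1 / 2) ^ (k + 4))) (20 * Real.sqrt A) ≤
        B * (2 - (1 / 2) ^ k) + B * ((1 / 2) ^ k / 4) := by
      refine max_le ?_ ?_
      · rw [div_le_iff₀ (by linarith), e4]
        have h1 : 0 ≤ B * ((1 / 2 : ℝ) ^ k) := by positivity
        have h2 : B * (2 - (1 / 2) ^ k) ≤ B * 2 := by nlinarith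
        nlinarith
      · have h1 : B ≤ B * (2 - (1 / 2) ^ k) := by nlinarith
        have h2 : 0 ≤ B * ((1 / 2 : ℝ) ^ k / 4) := by positivity
        linarith
    refine ⟨fun j => hs j + p j, ⟨?_, fun z hz => ?_, fun z hz => ?_⟩, ?_⟩
    · have h1 : l (m0 + k) < l (m0 + k + 1) := hgap.hl (by omega)
      exact c1.mono (hDs _ _ h1)
    · refine (t1 z hz).trans ?_
      rw [hηD]
      refine hpowD.trans ?_
      rw [e8, e5]
      linarith
    · refine (t2 z hz).trans ?_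
      refine mul_le_mul_of_nonneg_right ?_ (Real.exp_pos _).le
      have h1 : 2 * ((N:ℝ) + 1) * eta N D ≤ (1 / 2) ^ k / 512 := by
        have : 2 * ((N:ℝ) + 1) * eta N D = (1 / 2) ^ D / 2 := by
          rw [← hηD]; ring
        rw [this]
        linarith
      have h2 : (1 / 2 : ℝ) ^ k / 512 ≤ B * ((1 / 2) ^ k / 512) := by
        have : 0 ≤ (1 / 2 : ℝ) ^ k / 512 := by positivity
        nlinarith
      rw [e1]
      have h3 : 0 ≤ B * ((1 / 2 : ℝ) ^ k) := by positivity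
      nlinarith
    · intro r hr0 hr1 z hz j
      refine (t3 r hr0 hr1 z hz j).trans ?_
      have hE : 0 < Real.exp (2 * A) := Real.exp_pos _
      have h1 : max (B * (2 - (1 / 2) ^ k) / (1 - (1 / 2) ^ (k + 4))) (20 * Real.sqrt A) ≤ 2 * B := by
        refine hmax.trans ?_
        have : 0 ≤ B * ((1 / 2 : ℝ) ^ k) := by positivity
        nlinarith
      have h2 : r ^ D ≤ r ^ k := pow_le_pow_of_le_one hr0.le hr1.le (by omega)
      have h3 : (1 + 2 * (max (B * (2 - (1 / 2) ^ k) / (1 - (1 / 2) ^ (k + 4)))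
          (20 * Real.sqrt A) * Real.exp (2 * A))) * r ^ D ≤ C1 * r ^ k := by
        have h4 : 1 + 2 * (max (B * (2 - (1 / 2) ^ k) / (1 - (1 / 2) ^ (k + 4)))
          (20 * Real.sqrt A) * Real.exp (2 * A)) ≤ C1 := by
          rw [hC1]
          nlinarith
        exact mul_le_mul h4 h2 (by positivity) hC10
      have h5 : eta N D + 2 * (1 / 2) ^ (k + 4) * (B * (2 - (1 / 2) ^ k) * Real.exp (2 * A)) ≤
          C1 * (1 / 2) ^ k := by
        have h6 : B * (2 - (1 / 2) ^ k) * Real.exp (2 * A) ≤ 2 * (B * Real.exp (2 * A)) := by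
          have : 0 ≤ B * Real.exp (2 * A) := by positivity
          nlinarith
        have h7 : 2 * (1 / 2) ^ (k + 4) * (B * (2 - (1 / 2) ^ k) * Real.exp (2 * A)) ≤
            2 * (1 / 2) ^ (k + 4) * (2 * (B * Real.exp (2 * A))) :=
          mul_le_mul_of_nonneg_left h6 (by positivity)
        rw [e4] at h7 ⊢
        rw [e8] at hη1
        rw [hC1]
        have : 0 ≤ (1 / 2 : ℝ) ^ k * (B * Real.exp (2 * A)) := by positivity
        nlinarith
      rw [mul_add]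
      linarith
  -- the sequence
  have hSt0 : St 0 h0 := by
    refine ⟨by simpa using h0s, fun z hz => ?_, fun z hz => ?_⟩
    · refine (h0b z hz).trans ?_
      norm_num
    · have h1 := h0n z hz
      have h2 : B * (2 - (1 / 2) ^ 0) = B := by norm_num
      rw [h2]
      exact h1
  choose nx hnx1 hnx2 using hnext
  let T : (k : ℕ) → {h // St k h} := fun k => Nat.rec (motive := fun k => {h // St k h})
    ⟨h0, hSt0⟩ (fun k h => ⟨nx k h.1 h.2, hnx1 k h.1 h.2⟩) k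
  have hT : ∀ k, (T (k + 1)).1 = nx k (T k).1 (T k).2 := fun k => rfl
  have hcl : ∀ k, Cl k (T k).1 (T (k + 1)).1 := fun k => by
    rw [hT]
    exact hnx2 k _ _
  have hexp : ∀ k, ∀ z ∈ Bal n, nn (ev (T k).1 z) ≤ 2 * B * Real.exp (2 * A) := by
    intro k z hz
    refine ((T k).2.2.2 z hz).trans ?_
    have h1 := (hreg (m0 + k) (Nat.le_add_right _ _) z hz).2
    have h2 : Real.exp (A * nsq (ev (PS Q (m0 + k)) z) / 2) ≤ Real.exp (2 * A) := by
      apply Real.exp_le_exp.2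
      nlinarith
    have h3 : B * (2 - (1 / 2) ^ k) ≤ 2 * B := by
      have : (0:ℝ) < (1 / 2) ^ k := by positivity
      nlinarith
    exact mul_le_mul h3 h2 (Real.exp_pos _).le (by positivity)
  have hlim : ∀ j, ∃ g : (Fin n → ℂ) → ℂ, DifferentiableOn ℂ g (Bal n) ∧
      ∀ z ∈ Bal n, Tendsto (fun k => eval z ((T k).1 j)) atTop (𝓝 (g z)) := by
    intro j
    refine limit_fun (h := fun k => (T k).1 j) (C1 := C1) (fun k r hr0 hr1 z hz => hcl k r hr0 hr1 z hz j)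
      (M := 2 * B * Real.exp (2 * A)) fun k z hz => ?_
    exact (comp_le_nn (ev (T k).1 z) j).trans (hexp k z hz)
  choose g hg1 hg2 using hlim
  refine ⟨g, hg1, fun z hz => ?_, fun z hz => ?_⟩
  · have h1 : Tendsto (fun k => ev (T k).1 z) atTop (𝓝 (fun j => g j z)) :=
      tendsto_pi_nhds.2 fun j => hg2 j z hz
    have h2 : Continuous (fun u : Fin N → ℂ => nn u) := by
      unfold nn
      exact nsq_cont.sqrt
    exact le_of_tendsto ((h2.tendsto _).comp h1) (Eventually.of_forall fun k => hexp k z hz)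
  · have h1 : Tendsto (fun k => ev (T k).1 z) atTop (𝓝 (fun j => g j z)) :=
      tendsto_pi_nhds.2 fun j => hg2 j z hz
    have h2 : Tendsto (fun k => ev (PS Q (m0 + k)) z) atTop (𝓝 (fun j => f j z)) := by
      exact tendsto_pi_nhds.2 fun j => PS_tendsto (hgap.hf j z hz) m0
    have h3 : Tendsto (fun k => bd (ev (PS Q (m0 + k)) z) (ev (T k).1 z)) atTop
        (𝓝 (bd (fun j => f j z) (fun j => g j z))) :=
      bd_tendsto h2 h1
    have h4 : Tendsto (fun k => bd (ev (PS Q (m0 + k)) z) (ev (T k).1 z)) atTop (𝓝 1) := by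
      rw [tendsto_iff_norm_sub_tendsto_zero]
      refine squeeze_zero (fun _ => norm_nonneg _) (fun k => (T k).2.2.1 z hz) ?_
      have h5 : Tendsto (fun k : ℕ => ((1:ℝ) / 2) ^ k) atTop (𝓝 0) :=
        tendsto_pow_atTop_nhds_zero_of_lt_one (by norm_num) (by norm_num)
      exact h5.comp (tendsto_add_atTop_nat 4)
    exact tendsto_nhds_unique h3 h4

end Pool.Agent.K9h23.Lac
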