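import Mathlib
import Pool.Agent.K9h23.Lac.Iter

/-!
The corona theorem for series of small polynomials with large gaps.
-/

set_option autoImplicit false

open Complex MvPolynomial Set Filter Topology

namespace Pool.Agent.K9h23.Lac

/-- a function which dominates a recursion -/
theorem exists_Dm (B : ℕ → ℕ) (S : ℕ → ℕ → ℕ) :
    ∃ Dm : ℕ → ℕ, ∀ l, B l ≤ Dm l ∧ ∀ l', l' < l → S (Dm l') l ≤ Dm l := by
  let F : (l : ℕ) → ((m : ℕ) → m < l → ℕ) → ℕ := fun l ih => B l + ∑ i : Fin l, S (ih i i.2) l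
  let Dm : ℕ → ℕ := Nat.lt_wfRel.wf.fix F
  have hDm : ∀ l, Dm l = B l + ∑ i : Fin l, S (Dm i) l := fun l => by
    change Nat.lt_wfRel.wf.fix F l = _
    rw [WellFounded.fix_eq]
  refine ⟨Dm, fun l => ⟨?_, fun l' hl' => ?_⟩⟩
  · rw [hDm]; exact Nat.le_add_right _ _
  · rw [hDm l]
    refine le_trans ?_ (Nat.le_add_left _ _)
    exact Finset.single_le_sum (f := fun i : Fin l => S (Dm i) l) (fun _ _ => Nat.zero_le _)
      (Finset.mem_univ (⟨l', hl'⟩ : Fin l))

theorem const_eval {n : ℕ} {p : MP n} (hp : p.totalDegree = 0) (z : Fin n → ℂ) :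
    eval z p = p.coeff 0 := by
  rw [totalDegree_eq_zero_iff_eq_C.1 hp]
  simp

/-- **Main theorem.** -/
theorem lac_main {δ : ℝ} (hδ : 0 < δ) (hδ1 : δ ≤ 1) : ∃ ε : ℝ, 0 < ε ∧ ∃ C : ℝ, ∀ n N : ℕ,
    ∃ Φ : ℕ → ℕ, ∀ (Q : ℕ → Fin N → MP n) (l : ℕ → ℕ) (f : Fin N → (Fin n → ℂ) → ℂ) (m0 : ℕ),
    StrictMono l → (∀ m j, (Q m j).totalDegree ≤ l m) →
    (∀ j, ∀ z ∈ Bal n, HasSum (fun m => eval z (Q m j)) (f j z)) →
    (∀ z ∈ Bal n, δ ^ 2 ≤ ∑ j, ‖f j z‖ ^ 2 ∧ ∑ j, ‖f j z‖ ^ 2 ≤ 1) →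
    (∀ m, m0 ≤ m → (∀ j, ∀ s ∈ (Q (m + 1) j).support, Φ (l m) ≤ s.degree) ∧
      ∀ z ∈ Bal n, ∑ j, ‖eval z (Q (m + 1) j)‖ ^ 2 ≤ ε ^ 2) →
    ∃ g : Fin N → (Fin n → ℂ) → ℂ, (∀ j, DifferentiableOn ℂ (g j) (Bal n)) ∧
      (∃ M : ℝ, ∀ z ∈ Bal n, ∑ j, ‖g j z‖ ^ 2 ≤ M) ∧
      (∀ z ∈ Bal n, ∑ j, f j z * g j z = 1) ∧
      (m0 = 0 → (∀ j, (Q 0 j).totalDegree = 0) → ∀ z ∈ Bal n, ∑ j, ‖g j z‖ ^ 2 ≤ C) := by
  set A : ℝ := 64 / δ ^ 2 with hAdef
  have hδ2 : 0 < δ ^ 2 := by positivity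
  have hδ21 : δ ^ 2 ≤ 1 := by nlinarith
  have hA64 : 64 ≤ A := by
    rw [hAdef, le_div_iff₀ hδ2]
    nlinarith
  have hA : 4 ≤ A := by linarith
  have hA0 : 0 < A := by linarith
  have hAδ : A * (δ ^ 2 / 4) = 16 := by
    rw [hAdef]
    field_simp
    norm_num
  have hsA : 8 ≤ Real.sqrt A := by
    apply Real.le_sqrt_of_sq_le
    linarith
  refine ⟨1 / (100 * A ^ 2), by positivity, (2 * (20 * Real.sqrt A) * Real.exp (2 * A)) ^ 2,
    fun n N => ?_⟩
  -- the functions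
  choose K hK using fun D => step hA n N D (eta_pos N D)
  choose sD hsD using hK
  choose St hSt using fun l => size_bound n N l 2
  choose La hLa using fun l => bez_unif n N l (c := δ ^ 2 / 4) (ε := 1 / 16) (by positivity)
    (by norm_num)
  obtain ⟨G, hG⟩ := gap_close n (κ := δ / (2 * (N + 1))) (by positivity)
  obtain ⟨Dm, hDm⟩ := exists_Dm (fun l => St l + La l + l + 8 + ⌈Real.sqrt A⌉₊) sD
  refine ⟨fun l => K (Dm l) + ∑ i ∈ Finset.range (l + 1), G i + l, ?_⟩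
  intro Q l f m0 hl hdeg hf hfb hgap
  set Φ : ℕ → ℕ := fun l => K (Dm l) + ∑ i ∈ Finset.range (l + 1), G i + l with hΦ
  have hGΦ : ∀ a b, a ≤ b → G a + b ≤ Φ b := by
    intro a b hab
    have h1 : G a ≤ ∑ i ∈ Finset.range (b + 1), G i :=
      Finset.single_le_sum (f := G) (fun _ _ => Nat.zero_le _) (Finset.mem_range.2 (by omega))
    rw [hΦ]
    simp only
    omega
  have hQ0 : ∀ m j, Rg 0 (l m) (Q m j) := fun m j => Rg.deg (hdeg m j) fun _ _ => Nat.zero_le _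
  have hgapS : Gap Φ Q l f m0 := by
    refine ⟨hl, hQ0, hf, fun m hm j => ?_, fun m hm j z hz => ?_, fun j z hz => ?_⟩
    · exact Rg.deg (hdeg (m + 1) j) fun s hs => (hgap m hm).1 j s (mem_support_iff.2 hs)
    · have h1 := (hgap m hm).2 z hz
      have h2 := le_nsq (ev (Q (m + 1)) z) j
      have h3 : (1 / (100 * A ^ 2)) ^ 2 ≤ 1 ^ 2 := by
        apply pow_le_pow_left₀ (by positivity)
        rw [div_le_iff₀ (by positivity)]
        nlinarith
      have h4 : ‖eval z (Q (m + 1) j)‖ ^ 2 ≤ 1 ^ 2 := h2.trans (h1.trans h3)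
      exact le_of_sq_le_sq h4 (by norm_num)
    · have h1 := (hfb z hz).2
      have h2 := le_nsq (fun j => f j z) j
      have h4 : ‖f j z‖ ^ 2 ≤ 1 ^ 2 := by
        have : nsq (fun j => f j z) ≤ 1 := h1
        linarith
      exact le_of_sq_le_sq h4 (by norm_num)
  -- the region
  have hreg0 : ∀ m, m0 ≤ m → ∀ z ∈ Bal n, δ ^ 2 / 4 ≤ nsq (ev (PS Q m) z) ∧
      nsq (ev (PS Q m) z) ≤ 4 := by
    intro m hm z hz
    obtain ⟨-, h2⟩ := hG N Φ Q l f m0 hGΦ hgapS m hm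
    obtain ⟨z', hz', h3⟩ := h2 z hz
    have hN0 : (0:ℝ) < N + 1 := by positivity
    have h4 : nn (fun j => ev (PS Q m) z j - f j z') ≤ δ / 2 := by
      refine (nn_le_comp (η := δ / (2 * (N + 1))) (by positivity) h3).trans (le_of_eq ?_)
      field_simp
    have h4' : nn (fun j => f j z' - ev (PS Q m) z j) ≤ δ / 2 := by
      refine (nn_le_comp (η := δ / (2 * (N + 1))) (by positivity) fun j => ?_).trans (le_of_eq ?_)
      · rw [norm_sub_rev]; exact h3 j
      · field_simp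
    obtain ⟨h5, h6⟩ := hfb z' hz'
    have h7 : nn (fun j => f j z') ≤ 1 := nn_le_of zero_le_one (by rw [one_pow]; exact h6)
    have h8 : δ ≤ nn (fun j => f j z') := by
      unfold nn
      exact Real.le_sqrt_of_sq_le h5
    have h9 : nn (ev (PS Q m) z) ≤ 2 := by
      have := nn_add_le (fun j => f j z') (fun j => ev (PS Q m) z j - f j z')
      have e : (fun j => f j z' + (ev (PS Q m) z j - f j z')) = ev (PS Q m) z := by
        funext j; ring
      rw [e] at this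
      linarith
    have h10 : δ / 2 ≤ nn (ev (PS Q m) z) := by
      have := nn_add_le (ev (PS Q m) z) (fun j => f j z' - ev (PS Q m) z j)
      have e : (fun j => ev (PS Q m) z j + (f j z' - ev (PS Q m) z j)) = fun j => f j z' := by
        funext j; ring
      rw [e] at this
      linarith
    rw [← nn_sq]
    constructor
    · nlinarith [nn_nonneg (ev (PS Q m) z)]
    · nlinarith [nn_nonneg (ev (PS Q m) z)]
  have hreg : ∀ m, m0 ≤ m → ∀ z ∈ Bal n, 16 ≤ A * nsq (ev (PS Q m) z) ∧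
      nsq (ev (PS Q m) z) ≤ 4 := by
    intro m hm z hz
    obtain ⟨h1, h2⟩ := hreg0 m hm z hz
    refine ⟨?_, h2⟩
    rw [← hAδ]
    exact mul_le_mul_of_nonneg_left h1 hA0.le
  have hB : ∀ l, St l + La l + l + 8 + ⌈Real.sqrt A⌉₊ ≤ Dm l := fun l => (hDm l).1
  have hsz : ∀ m, m0 ≤ m → Sz (Dm (l m)) (PS Q m) := by
    intro m hm
    have h1 := hSt (l m) (PS Q m) (PS_Rg hl.monotone hQ0 m)
      (hG N Φ Q l f m0 hGΦ hgapS m hm).1
    refine h1.mono ?_
    have := hB (l m)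
    omega
  have hsm : ∀ m, m0 ≤ m → ∀ z ∈ Bal n, nsq (ev (Q (m + 1)) z) * (100 * A ^ 2) ^ 2 ≤ 1 := by
    intro m hm z hz
    have h1 := (hgap m hm).2 z hz
    have h2 : nsq (ev (Q (m + 1)) z) ≤ (1 / (100 * A ^ 2)) ^ 2 := h1
    calc nsq (ev (Q (m + 1)) z) * (100 * A ^ 2) ^ 2 ≤ (1 / (100 * A ^ 2)) ^ 2 *
          (100 * A ^ 2) ^ 2 := by gcongr
      _ = 1 := by
          rw [← mul_pow, one_div, inv_mul_cancel₀ (by positivity), one_pow]
  -- the iteration
  have main : ∀ B : ℝ, 1 ≤ B → 20 * Real.sqrt A ≤ B → ∀ h0 : Fin N → MP n,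
      Sz (Dm (l m0)) h0 → (∀ z ∈ Bal n, ‖bd (ev (PS Q m0) z) (ev h0 z) - 1‖ ≤ 1 / 16) →
      (∀ z ∈ Bal n, nn (ev h0 z) ≤ B * Real.exp (A * nsq (ev (PS Q m0) z) / 2)) →
      ∃ g : Fin N → (Fin n → ℂ) → ℂ, (∀ j, DifferentiableOn ℂ (g j) (Bal n)) ∧
      (∀ z ∈ Bal n, nn (fun j => g j z) ≤ 2 * B * Real.exp (2 * A)) ∧
      ∀ z ∈ Bal n, ∑ j, f j z * g j z = 1 := by
    intro B hB1 hB2 h0 h0s h0b h0n
    refine iterate hA (K := K) (sD := sD) (fun D l d hd hq => ?_) (Dm := Dm) (fun l => ?_)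
      (fun l l' hll' => ?_) (F := Φ) (fun l => ?_) hgapS hsz hreg hsm hB1 hB2 h0 h0s h0b h0n
    · exact hsD D l d hd hq
    · have := hB l; omega
    · exact (hDm l').2 l hll'
    · rw [hΦ]; simp only; omega
  have fin : ∀ B : ℝ, ∀ u : Fin N → ℂ, nn u ≤ B → ∑ j, ‖u j‖ ^ 2 ≤ B ^ 2 := by
    intro B u hu
    have h1 := pow_le_pow_left₀ (nn_nonneg u) hu 2
    rw [nn_sq] at h1
    exact h1
  by_cases hc : m0 = 0 ∧ ∀ j, (Q 0 j).totalDegree = 0
  · -- the constant case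
    obtain ⟨hm0, hc0⟩ := hc
    set a : Fin N → ℂ := fun j => (Q 0 j).coeff 0 with ha
    have hPS0 : ∀ z, ev (PS Q m0) z = a := by
      intro z
      funext j
      rw [hm0]
      unfold ev PS
      rw [zero_add, Finset.sum_range_one, const_eval (hc0 j)]
    have h0B : (0 : Fin n → ℂ) ∈ Bal n := by
      change nsq 0 < 1
      unfold nsq
      simp
    have hareg := hreg m0 le_rfl 0 h0B
    rw [hPS0] at hareg
    have ha0 : 0 < nsq a := by nlinarith [nsq_nonneg a]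
    set h0 : Fin N → MP n := fun j => C (starRingEnd ℂ (a j) / (nsq a : ℂ)) with hh0
    have hev : ∀ z, ev h0 z = fun j => ((1 / nsq a : ℝ) : ℂ) * starRingEnd ℂ (a j) := by
      intro z
      funext j
      unfold ev
      rw [hh0]
      simp only [eval_C]
      push_cast
      ring
    have hnn0 : nn (fun j => ((1 / nsq a : ℝ) : ℂ) * starRingEnd ℂ (a j)) ≤ Real.sqrt A := by
      apply nn_le_of (Real.sqrt_nonneg _)
      rw [Real.sq_sqrt hA0.le, nsq_smul', nsq_conj, Complex.norm_real,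
        Real.norm_of_nonneg (by positivity)]
      have : (1 / nsq a) ^ 2 * nsq a = 1 / nsq a := by field_simp
      rw [this, div_le_iff₀ ha0]
      linarith [hareg.1]
    have hsz0 : Sz (Dm (l m0)) h0 := by
      intro j
      refine ⟨?_, fun s => ?_⟩
      · refine Rg.deg ?_ (fun _ _ => Nat.zero_le _)
        rw [hh0]
        simp
      · classical
        have h1 : ‖(h0 j).coeff s‖ ≤ ‖((1 / nsq a : ℝ) : ℂ) * starRingEnd ℂ (a j)‖ := by
          rw [hh0]
          simp only [coeff_C]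
          split_ifs
          · apply le_of_eq
            congr 1
            push_cast
            ring
          · rw [norm_zero]; exact norm_nonneg _
        refine h1.trans ((comp_le_nn (fun j => ((1 / nsq a : ℝ) : ℂ) * starRingEnd ℂ (a j)) j).trans
          (hnn0.trans ((Nat.le_ceil _).trans ?_)))
        have := hB (l m0)
        exact_mod_cast (by omega : ⌈Real.sqrt A⌉₊ ≤ Dm (l m0))
    obtain ⟨g, g1, g2, g3⟩ := main (20 * Real.sqrt A) (by linarith) le_rfl h0 hsz0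
      (fun z _ => by
        rw [hPS0, hev]
        have : bd a (fun j => ((1 / nsq a : ℝ) : ℂ) * starRingEnd ℂ (a j)) = 1 := by
          have e1 : bd a (fun j => ((1 / nsq a : ℝ) : ℂ) * starRingEnd ℂ (a j)) =
              ((1 / nsq a : ℝ) : ℂ) * (nsq a : ℂ) := by
            rw [nsq_c a, Finset.mul_sum]
            unfold bd
            refine Finset.sum_congr rfl fun j _ => ?_
            beta_reduce
            ring
          rw [e1]
          push_cast
          have : (nsq a : ℂ) ≠ 0 := by exact_mod_cast ha0.ne'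
          field_simp
        rw [this]
        norm_num)
      (fun z _ => by
        rw [hev]
        refine hnn0.trans ?_
        have h1 : 1 ≤ Real.exp (A * nsq (ev (PS Q m0) z) / 2) := by
          apply Real.one_le_exp
          have := nsq_nonneg (ev (PS Q m0) z)
          positivity
        have h2 := Real.sqrt_nonneg A
        nlinarith)
    refine ⟨g, g1, ⟨_, fun z hz => fin _ _ (g2 z hz)⟩, g3, fun _ _ z hz => fin _ _ (g2 z hz)⟩
  · obtain ⟨h0, hs0, hb0⟩ := hLa (l m0) (PS Q m0) (PS_Rg hl.monotone hQ0 m0) (hreg0 m0 le_rfl)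
    have hs0' : Sz (Dm (l m0)) h0 := hs0.mono (by have := hB (l m0); omega)
    set B : ℝ := max (20 * Real.sqrt A) (Real.sqrt (RR n N (Dm (l m0)))) with hBdef
    obtain ⟨g, g1, g2, g3⟩ := main B (le_trans (by linarith) (le_max_left _ _)) (le_max_left _ _)
      h0 hs0' hb0 (fun z hz => by
        have h1 : nn (ev h0 z) ≤ Real.sqrt (RR n N (Dm (l m0))) := by
          unfold nn
          exact Real.sqrt_le_sqrt (hs0'.nsq_le hz)
        have h2 : 1 ≤ Real.exp (A * nsq (ev (PS Q m0) z) / 2) := by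
          apply Real.one_le_exp
          have := nsq_nonneg (ev (PS Q m0) z)
          positivity
        have h3 : nn (ev h0 z) ≤ B := h1.trans (le_max_right _ _)
        have h4 : 0 ≤ B := (nn_nonneg _).trans h3
        nlinarith)
    exact ⟨g, g1, ⟨_, fun z hz => fin _ _ (g2 z hz)⟩, g3, fun h1 h2 => absurd ⟨h1, h2⟩ hc⟩

end Pool.Agent.K9h23.Lac
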